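import Mathlib

/-!
# The Beurling majorant of the sign function
-/

set_option autoImplicit false

open MeasureTheory Set Filter Topology Real
open scoped Real FourierTransform

namespace BE

/-- Riemann-Lebesgue along a sequence. -/
lemma rl_cos {f : ℝ → ℝ} (hf : Integrable f) (c : ℝ) :
    Tendsto (fun N : ℕ => ∫ θ, cos ((2 * N + c) * θ) * f θ) atTop (𝓝 0) := by
  have h := Real.tendsto_integral_exp_smul_cocompact (fun v => ((f v : ℝ) : ℂ))
  have hw : Tendsto (fun N : ℕ => (2 * (N : ℝ) + c) / (2 * π)) atTop (cocompact ℝ) := by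
    refine Tendsto.mono_right ?_ atTop_le_cocompact
    refine Tendsto.atTop_div_const (by positivity) ?_
    refine tendsto_atTop_add_const_right _ _ ?_
    exact (tendsto_natCast_atTop_atTop).const_mul_atTop (by norm_num)
  have h2 := h.comp hw
  have h3 := (Complex.continuous_re.tendsto 0).comp h2
  simp only [Complex.zero_re] at h3
  refine h3.congr fun N => ?_
  change (∫ v : ℝ, 𝐞 (-(v * ((2 * N + c) / (2 * π)))) • ((f v : ℝ) : ℂ)).re = _
  have hint : Integrable (fun v : ℝ => 𝐞 (-(v * ((2 * N + c) / (2 * π)))) • ((f v : ℝ) : ℂ)) := by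
    have := (Real.fourierIntegral_convergent_iff (μ := volume) (f := fun v : ℝ => ((f v : ℝ) : ℂ))
      ((2 * N + c) / (2 * π))).2 hf.ofReal
    refine this.congr (Eventually.of_forall fun v => ?_)
    simp only [RCLike.inner_apply, conj_trivial]
    rw [mul_comm ((2 * ↑N + c) / (2 * π)) v]
  have h4 := Complex.reCLM.integral_comp_comm hint
  rw [Complex.reCLM_apply] at h4
  rw [← h4]
  refine integral_congr_ae (Eventually.of_forall fun v => ?_)
  simp only [Complex.reCLM_apply, Circle.smul_def, Real.fourierChar_apply, smul_eq_mul]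
  rw [Complex.mul_re, Complex.ofReal_re, Complex.ofReal_im, mul_zero, sub_zero,
    Complex.exp_ofReal_mul_I_re]
  have : 2 * π * -(v * ((2 * ↑N + c) / (2 * π))) = -((2 * N + c) * v) := by
    field_simp
  rw [this, cos_neg]

/-- The weighted cotangent. -/
noncomputable def cw (θ : ℝ) : ℝ := (1 - θ / π) * (cos θ / sin θ)

lemma cw_measurable : Measurable cw := by
  unfold cw
  fun_prop

/-- Bound for the weighted cotangent against a function vanishing linearly at `0`. -/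
lemma cw_mul_le {g : ℝ → ℝ} {K L : ℝ} (hK : ∀ θ, |g θ| ≤ K * |θ|) (hL : ∀ θ, |g θ| ≤ L)
    {θ : ℝ} (h0 : 0 < θ) (h1 : θ < π) : |cw θ * g θ| ≤ K * (π / 2) + L / 2 := by
  have hK0 : 0 ≤ K := by
    have := (abs_nonneg _).trans (hK 1)
    rwa [abs_one, mul_one] at this
  have hL0 : 0 ≤ L := (abs_nonneg _).trans (hL 0)
  have hs : 0 < sin θ := sin_pos_of_pos_of_lt_pi h0 h1
  have hπ := pi_pos
  have ha : |1 - θ / π| = (π - θ) / π := by
    rw [abs_of_nonneg (by rw [sub_nonneg, div_le_one hπ]; exact h1.le)]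
    field_simp
  have hc : |cos θ| ≤ 1 := abs_cos_le_one θ
  unfold cw
  rw [abs_mul, abs_mul, abs_div, abs_of_pos hs, ha]
  rcases le_total θ (π / 2) with h | h
  · have h2 := mul_le_sin h0.le h
    have h3 : (π - θ) / π ≤ 1 := by rw [div_le_one hπ]; linarith
    have h30 : 0 ≤ (π - θ) / π := div_nonneg (by linarith) hπ.le
    have h4 : |cos θ| / sin θ ≤ π / (2 * θ) := by
      rw [div_le_div_iff₀ hs (by positivity)]
      have : 2 * θ ≤ π * sin θ := by
        have := mul_le_mul_of_nonneg_left h2 hπ.le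
        calc 2 * θ = π * (2 / π * θ) := by field_simp
          _ ≤ _ := this
      calc |cos θ| * (2 * θ) ≤ 1 * (2 * θ) := mul_le_mul_of_nonneg_right hc (by positivity)
        _ ≤ π * sin θ := by linarith
    have h40 : 0 ≤ |cos θ| / sin θ := by positivity
    have h5 : |g θ| ≤ K * θ := by
      have := hK θ
      rwa [abs_of_pos h0] at this
    calc (π - θ) / π * (|cos θ| / sin θ) * |g θ| ≤ 1 * (π / (2 * θ)) * (K * θ) := by
          refine mul_le_mul (mul_le_mul h3 h4 h40 zero_le_one) h5 (abs_nonneg _) (by positivity)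
      _ = K * (π / 2) := by field_simp
      _ ≤ _ := by linarith
  · have h2 := mul_le_sin (x := π - θ) (by linarith) (by linarith)
    rw [sin_pi_sub] at h2
    have h4 : (π - θ) / π * (|cos θ| / sin θ) ≤ 1 / 2 := by
      rw [div_mul_div_comm, div_le_div_iff₀ (by positivity) (by norm_num)]
      have h5 : 2 * (π - θ) ≤ π * sin θ := by
        have := mul_le_mul_of_nonneg_left h2 hπ.le
        calc 2 * (π - θ) = π * (2 / π * (π - θ)) := by field_simp
          _ ≤ _ := this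
      have h6 : (π - θ) * |cos θ| ≤ (π - θ) * 1 :=
        mul_le_mul_of_nonneg_left hc (by linarith)
      linarith
    have h40 : 0 ≤ (π - θ) / π * (|cos θ| / sin θ) := by
      have : 0 ≤ (π - θ) / π := div_nonneg (by linarith) hπ.le
      positivity
    calc (π - θ) / π * (|cos θ| / sin θ) * |g θ| ≤ 1 / 2 * L :=
          mul_le_mul h4 (hL θ) (abs_nonneg _) (by norm_num)
      _ ≤ _ := by
        have : 0 ≤ K * (π / 2) := by positivity
        linarith

lemma cw_integrableOn {g : ℝ → ℝ} (hg : Measurable g) {K L : ℝ} (hK : ∀ θ, |g θ| ≤ K * |θ|)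
    (hL : ∀ θ, |g θ| ≤ L) : IntegrableOn (fun θ => cw θ * g θ) (Ioo 0 π) := by
  refine Measure.integrableOn_of_bounded (M := K * (π / 2) + L / 2) ?_ ?_ ?_
  · rw [Real.volume_Ioo]; exact ENNReal.ofReal_ne_top
  · exact (cw_measurable.mul hg).aestronglyMeasurable
  · refine (ae_restrict_iff' measurableSet_Ioo).2 (Eventually.of_forall fun θ hθ => ?_)
    rw [Real.norm_eq_abs]
    exact cw_mul_le hK hL hθ.1 hθ.2

lemma cw_intervalIntegrable {g : ℝ → ℝ} (hg : Measurable g) {K L : ℝ}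
    (hK : ∀ θ, |g θ| ≤ K * |θ|) (hL : ∀ θ, |g θ| ≤ L) :
    IntervalIntegrable (fun θ => cw θ * g θ) volume 0 π := by
  rw [intervalIntegrable_iff_integrableOn_Ioo_of_le pi_pos.le]
  exact cw_integrableOn hg hK hL

lemma abs_sin_mul_le (b θ : ℝ) : |sin (b * θ)| ≤ |b| * |θ| := by
  rw [← abs_mul]
  exact abs_sin_le_abs

/-- Cosine part. -/
noncomputable def Ai (τ : ℝ) : ℝ := ∫ θ in (0 : ℝ)..π, (1 - θ / π) * cos (2 * τ * θ)

/-- Constant sine part. -/
noncomputable def Bi (τ : ℝ) : ℝ := ∫ θ in (0 : ℝ)..π, 1 / π * sin (2 * τ * θ)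

/-- Cotangent part. -/
noncomputable def Ci (τ : ℝ) : ℝ := ∫ θ in (0 : ℝ)..π, cw θ * sin (2 * τ * θ)

/-- The majorant. -/
noncomputable def Hi (τ : ℝ) : ℝ :=
  ∫ θ in (0 : ℝ)..π, ((1 - θ / π) * cos (2 * τ * θ) + (cw θ + 1 / π) * sin (2 * τ * θ))

lemma Ci_integrable (b : ℝ) : IntervalIntegrable (fun θ => cw θ * sin (b * θ)) volume 0 π :=
  cw_intervalIntegrable (by fun_prop) (abs_sin_mul_le b) (fun θ => abs_sin_le_one _)

lemma Hi_eq (τ : ℝ) : Hi τ = Ai τ + Bi τ + Ci τ := by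
  unfold Hi Ai Bi Ci
  rw [← intervalIntegral.integral_add (by apply Continuous.intervalIntegrable; fun_prop)
    (by apply Continuous.intervalIntegrable; fun_prop),
    ← intervalIntegral.integral_add (by apply Continuous.intervalIntegrable; fun_prop)
    (Ci_integrable _)]
  refine intervalIntegral.integral_congr fun θ _ => ?_
  ring

lemma Ai_zero : Ai 0 = π / 2 := by
  unfold Ai
  have h : ∀ θ ∈ uIcc (0 : ℝ) π, HasDerivAt (fun θ => θ - θ ^ 2 / (2 * π)) (1 - θ / π) θ := by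
    intro θ _
    have := (hasDerivAt_id θ).sub (((hasDerivAt_id θ).pow 2).div_const (2 * π))
    refine this.congr_deriv ?_
    simp only [id, Nat.cast_ofNat]
    field_simp
    norm_num
  have h2 := intervalIntegral.integral_eq_sub_of_hasDerivAt h
    (by apply Continuous.intervalIntegrable; fun_prop)
  simp only [mul_zero, zero_mul, cos_zero, mul_one]
  rw [h2]
  field_simp
  ring

lemma Ai_eq {τ : ℝ} (hτ : τ ≠ 0) : Ai τ = (1 - cos (2 * τ * π)) / (4 * π * τ ^ 2) := by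
  unfold Ai
  have h : ∀ θ ∈ uIcc (0 : ℝ) π, HasDerivAt (fun θ => (1 - θ / π) * (sin (2 * τ * θ) / (2 * τ)) -
      cos (2 * τ * θ) / (4 * π * τ ^ 2)) ((1 - θ / π) * cos (2 * τ * θ)) θ := by
    intro θ _
    have e1 : HasDerivAt (fun θ : ℝ => 2 * τ * θ) (2 * τ) θ := by
      simpa using (hasDerivAt_id θ).const_mul (2 * τ)
    have e2 : HasDerivAt (fun θ : ℝ => 1 - θ / π) (-(1 / π)) θ := by
      simpa using (((hasDerivAt_id θ).div_const π).const_sub 1)
    have := (e2.mul (e1.sin.div_const (2 * τ))).sub (e1.cos.div_const (4 * π * τ ^ 2))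
    refine this.congr_deriv ?_
    field_simp
    ring
  rw [intervalIntegral.integral_eq_sub_of_hasDerivAt h
    (by apply Continuous.intervalIntegrable; fun_prop)]
  rw [div_self pi_ne_zero]
  simp only [mul_zero, sin_zero, cos_zero, sub_self, zero_mul, zero_div, zero_sub]
  ring

lemma Bi_zero : Bi 0 = 0 := by
  unfold Bi
  simp

lemma Bi_eq {τ : ℝ} (hτ : τ ≠ 0) : Bi τ = (1 - cos (2 * τ * π)) / (2 * π * τ) := by
  unfold Bi
  have h : ∀ θ ∈ uIcc (0 : ℝ) π, HasDerivAt (fun θ => -cos (2 * τ * θ) / (2 * π * τ))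
      (1 / π * sin (2 * τ * θ)) θ := by
    intro θ _
    have e1 : HasDerivAt (fun θ : ℝ => 2 * τ * θ) (2 * τ) θ := by
      simpa using (hasDerivAt_id θ).const_mul (2 * τ)
    have := (e1.cos.neg).div_const (2 * π * τ)
    refine this.congr_deriv ?_
    field_simp
  rw [intervalIntegral.integral_eq_sub_of_hasDerivAt h
    (by apply Continuous.intervalIntegrable; fun_prop)]
  simp only [mul_zero, cos_zero]
  ring

lemma Ci_zero : Ci 0 = 0 := by
  unfold Ci
  simp

/-- The recursion. -/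
lemma Ci_succ (τ : ℝ) : Ci (τ + 1) = Ci τ + (Ai (τ + 1) + Ai τ) := by
  have h : Ci (τ + 1) - Ci τ = Ai (τ + 1) + Ai τ := by
    unfold Ci Ai
    rw [← intervalIntegral.integral_sub (Ci_integrable _) (Ci_integrable _),
      ← intervalIntegral.integral_add (by apply Continuous.intervalIntegrable; fun_prop)
      (by apply Continuous.intervalIntegrable; fun_prop)]
    have hae : ∀ᵐ θ ∂volume, θ ∈ uIoc 0 π → cw θ * sin (2 * (τ + 1) * θ) - cw θ * sin (2 * τ * θ) =
        (1 - θ / π) * cos (2 * (τ + 1) * θ) + (1 - θ / π) * cos (2 * τ * θ) := by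
      have hne : ∀ᵐ θ : ℝ ∂volume, θ ≠ π := by
        refine compl_mem_ae_iff.2 ?_
        exact measure_singleton π
      filter_upwards [hne] with θ hθ hm
      rw [uIoc_of_le pi_pos.le] at hm
      have hs : sin θ ≠ 0 := (sin_pos_of_pos_of_lt_pi hm.1 (lt_of_le_of_ne hm.2 hθ)).ne'
      unfold cw
      have e1 : sin (2 * (τ + 1) * θ) = sin (2 * τ * θ) * cos (2 * θ) + cos (2 * τ * θ) * sin (2 * θ) := by
        rw [← sin_add]; ring_nf
      have e2 : cos (2 * (τ + 1) * θ) = cos (2 * τ * θ) * cos (2 * θ) - sin (2 * τ * θ) * sin (2 * θ) := by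
        rw [← cos_add]; ring_nf
      rw [e1, e2, cos_two_mul, sin_two_mul]
      field_simp
      have e3 : cos θ ^ 2 = 1 - sin θ ^ 2 := by rw [cos_sq']
      have e4 : cos θ ^ 3 = cos θ * (1 - sin θ ^ 2) := by rw [← e3]; ring
      ring_nf
      rw [e4, e3]
      ring
    exact intervalIntegral.integral_congr_ae hae
  linarith

lemma cos_period (τ : ℝ) : cos (2 * (τ + 1) * π) = cos (2 * τ * π) := by
  have : 2 * (τ + 1) * π = 2 * τ * π + 2 * π := by ring
  rw [this, cos_add_two_pi]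

lemma cos_nat (N : ℕ) : cos (2 * (N : ℝ) * π) = 1 := by
  have : 2 * (N : ℝ) * π = N * (2 * π) := by ring
  rw [this, cos_nat_mul_two_pi]

lemma Ci_nat (N : ℕ) : Ci ((N : ℝ) + 1) = π / 2 := by
  induction N with
  | zero =>
    have h := Ci_succ 0
    rw [Ci_zero, Ai_zero, Ai_eq (by norm_num : (0 : ℝ) + 1 ≠ 0)] at h
    have h1 := cos_nat 1
    simp only [Nat.cast_one] at h1
    simp only [zero_add] at h
    rw [h1] at h
    simp only [CharP.cast_eq_zero, zero_add]
    rw [h]; ring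
  | succ n ih =>
    have h := Ci_succ ((n : ℝ) + 1)
    have hn1 : ((n : ℝ) + 1) ≠ 0 := by positivity
    have hn2 : ((n : ℝ) + 1 + 1) ≠ 0 := by positivity
    have c1 := cos_nat (n + 1)
    have c2 := cos_nat (n + 1 + 1)
    push_cast at c1 c2 ⊢
    rw [Ai_eq hn1, Ai_eq hn2, c1, c2, ih] at h
    rw [h]; ring

lemma Ci_tendsto (τ : ℝ) : Tendsto (fun N : ℕ => Ci (τ + ((N : ℝ) + 1))) atTop (𝓝 (π / 2)) := by
  have hg1 : ∀ θ, |2 * sin (τ * θ)| ≤ (2 * |τ|) * |θ| := by
    intro θ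
    rw [abs_mul, abs_two, mul_assoc]
    exact mul_le_mul_of_nonneg_left (abs_sin_mul_le _ _) (by norm_num)
  have hg2 : ∀ θ, |2 * sin (τ * θ)| ≤ 2 := by
    intro θ
    rw [abs_mul, abs_two]
    have := abs_sin_le_one (τ * θ)
    linarith
  have hf : Integrable (indicator (Ioo 0 π) fun θ => cw θ * (2 * sin (τ * θ))) := by
    rw [integrable_indicator_iff measurableSet_Ioo]
    exact cw_integrableOn (by fun_prop) hg1 hg2
  have h := rl_cos hf (τ + 2)
  have h2 : Tendsto (fun N : ℕ => π / 2 + ∫ θ, cos ((2 * N + (τ + 2)) * θ) *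
      indicator (Ioo 0 π) (fun θ => cw θ * (2 * sin (τ * θ))) θ) atTop (𝓝 (π / 2 + 0)) :=
    h.const_add _
  rw [add_zero] at h2
  refine h2.congr fun N => ?_
  have h3 : Ci (τ + ((N : ℝ) + 1)) - Ci ((N : ℝ) + 1) = ∫ θ, cos ((2 * N + (τ + 2)) * θ) *
      indicator (Ioo 0 π) (fun θ => cw θ * (2 * sin (τ * θ))) θ := by
    unfold Ci
    rw [← intervalIntegral.integral_sub (Ci_integrable _) (Ci_integrable _),
      intervalIntegral.integral_of_le pi_pos.le, integral_Ioc_eq_integral_Ioo,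
      ← integral_indicator measurableSet_Ioo]
    refine integral_congr_ae (Eventually.of_forall fun θ => ?_)
    simp only
    by_cases hθ : θ ∈ Ioo 0 π
    · rw [indicator_of_mem hθ, indicator_of_mem hθ]
      have e : sin (2 * (τ + ((N : ℝ) + 1)) * θ) - sin (2 * ((N : ℝ) + 1) * θ) =
          2 * cos ((2 * N + (τ + 2)) * θ) * sin (τ * θ) := by
        rw [sin_sub_sin]
        ring_nf
      rw [← mul_sub, e]; ring
    · rw [indicator_of_notMem hθ, indicator_of_notMem hθ, mul_zero]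
  rw [← h3, Ci_nat]; ring

lemma Ai_neg (τ : ℝ) : Ai (-τ) = Ai τ := by
  unfold Ai
  refine intervalIntegral.integral_congr fun θ _ => ?_
  rw [← cos_neg]; ring_nf

lemma Bi_neg (τ : ℝ) : Bi (-τ) = -Bi τ := by
  unfold Bi
  rw [← intervalIntegral.integral_neg]
  refine intervalIntegral.integral_congr fun θ _ => ?_
  have : 2 * -τ * θ = -(2 * τ * θ) := by ring
  rw [this, sin_neg]; ring

lemma Ci_neg (τ : ℝ) : Ci (-τ) = -Ci τ := by
  unfold Ci
  rw [← intervalIntegral.integral_neg]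
  refine intervalIntegral.integral_congr fun θ _ => ?_
  have : 2 * -τ * θ = -(2 * τ * θ) := by ring
  rw [this, sin_neg]; ring

lemma cos_period_nat (τ : ℝ) (N : ℕ) : cos (2 * (τ + ((N : ℝ) + 1)) * π) = cos (2 * τ * π) := by
  have : 2 * (τ + ((N : ℝ) + 1)) * π = 2 * τ * π + ((N + 1 : ℕ) : ℝ) * (2 * π) := by
    push_cast; ring
  rw [this, cos_add_nat_mul_two_pi]

lemma tendsto_shift (τ : ℝ) : Tendsto (fun N : ℕ => τ + ((N : ℝ) + 1)) atTop atTop :=
  tendsto_atTop_add_const_left _ _ (tendsto_atTop_add_const_right _ _ tendsto_natCast_atTop_atTop)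

lemma Ai_tendsto {τ : ℝ} (hτ : 0 < τ) :
    Tendsto (fun N : ℕ => Ai (τ + ((N : ℝ) + 1))) atTop (𝓝 0) := by
  have h : Tendsto (fun N : ℕ => (1 - cos (2 * τ * π)) / (4 * π * (τ + ((N : ℝ) + 1)) ^ 2))
      atTop (𝓝 0) := by
    refine tendsto_const_nhds.div_atTop ?_
    refine Tendsto.const_mul_atTop (by positivity) ?_
    exact (tendsto_pow_atTop (by norm_num)).comp (tendsto_shift τ)
  refine h.congr fun N => ?_
  rw [Ai_eq (by positivity), cos_period_nat]

lemma Bi_tendsto {τ : ℝ} (hτ : 0 < τ) :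
    Tendsto (fun N : ℕ => Bi (τ + ((N : ℝ) + 1))) atTop (𝓝 0) := by
  have h : Tendsto (fun N : ℕ => (1 - cos (2 * τ * π)) / (2 * π * (τ + ((N : ℝ) + 1))))
      atTop (𝓝 0) := by
    refine tendsto_const_nhds.div_atTop ?_
    exact Tendsto.const_mul_atTop (by positivity) (tendsto_shift τ)
  refine h.congr fun N => ?_
  rw [Bi_eq (by positivity), cos_period_nat]

lemma Hi_tendsto {τ : ℝ} (hτ : 0 < τ) :
    Tendsto (fun N : ℕ => Hi (τ + ((N : ℝ) + 1))) atTop (𝓝 (π / 2)) := by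
  have h := ((Ai_tendsto hτ).add (Bi_tendsto hτ)).add (Ci_tendsto τ)
  rw [zero_add, zero_add] at h
  exact h.congr fun N => (Hi_eq _).symm

lemma Hi_neg_tendsto {τ : ℝ} (hτ : 0 < τ) :
    Tendsto (fun N : ℕ => Hi (-(τ + ((N : ℝ) + 1)))) atTop (𝓝 (-(π / 2))) := by
  have h := ((Ai_tendsto hτ).sub (Bi_tendsto hτ)).sub (Ci_tendsto τ)
  rw [sub_zero, zero_sub] at h
  refine h.congr fun N => ?_
  rw [Hi_eq, Ai_neg, Bi_neg, Ci_neg]; ring

lemma p_nonneg (τ : ℝ) : 0 ≤ 1 - cos (2 * τ * π) := by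
  have := cos_le_one (2 * τ * π)
  linarith

lemma Hi_step {τ : ℝ} (hτ : 0 < τ) : Hi (τ + 1) ≤ Hi τ := by
  have h1 : τ + 1 ≠ 0 := by positivity
  rw [Hi_eq, Hi_eq, Ci_succ, Bi_eq hτ.ne', Bi_eq h1, Ai_eq h1, cos_period]
  have hp := p_nonneg τ
  set p := 1 - cos (2 * τ * π)
  have h2 : p / (2 * π * τ) - (p / (4 * π * (τ + 1) ^ 2) + p / (2 * π * (τ + 1)) +
      p / (4 * π * (τ + 1) ^ 2)) = p / (2 * π) * (1 / (τ * (τ + 1) ^ 2)) := by
    field_simp
    ring
  have h3 : 0 ≤ p / (2 * π) * (1 / (τ * (τ + 1) ^ 2)) := by positivity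
  linarith

lemma Hi_neg_step {τ : ℝ} (hτ : 0 < τ) : Hi (-(τ + 1)) ≤ Hi (-τ) := by
  have h1 : τ + 1 ≠ 0 := by positivity
  rw [Hi_eq, Hi_eq, Ai_neg, Bi_neg, Ci_neg, Ai_neg, Bi_neg, Ci_neg, Ci_succ, Bi_eq hτ.ne', Bi_eq h1,
    Ai_eq h1, Ai_eq hτ.ne', cos_period]
  have hp := p_nonneg τ
  set p := 1 - cos (2 * τ * π)
  have h2 : (p / (4 * π * τ ^ 2) + p / (4 * π * τ ^ 2)) - p / (2 * π * τ) +
      p / (2 * π * (τ + 1)) = p / (2 * π) * (1 / (τ ^ 2 * (τ + 1))) := by
    field_simp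
    ring
  have h3 : 0 ≤ p / (2 * π) * (1 / (τ ^ 2 * (τ + 1))) := by positivity
  linarith

lemma Hi_shift {τ : ℝ} (hτ : 0 < τ) (N : ℕ) : Hi (τ + ((N : ℝ) + 1)) ≤ Hi τ := by
  induction N with
  | zero => simpa using Hi_step hτ
  | succ n ih =>
    have h := Hi_step (τ := τ + ((n : ℝ) + 1)) (by positivity)
    push_cast
    have e : τ + ((n : ℝ) + 1) + 1 = τ + ((n : ℝ) + 1 + 1) := by ring
    rw [e] at h
    exact h.trans ih

lemma Hi_neg_shift {τ : ℝ} (hτ : 0 < τ) (N : ℕ) : Hi (-(τ + ((N : ℝ) + 1))) ≤ Hi (-τ) := by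
  induction N with
  | zero => simpa using Hi_neg_step hτ
  | succ n ih =>
    have h := Hi_neg_step (τ := τ + ((n : ℝ) + 1)) (by positivity)
    push_cast
    have e : τ + ((n : ℝ) + 1) + 1 = τ + ((n : ℝ) + 1 + 1) := by ring
    rw [e] at h
    exact h.trans ih

/-- The majorant is at least `π / 2` on `[0, ∞)`. -/
theorem Hi_ge {τ : ℝ} (hτ : 0 ≤ τ) : π / 2 ≤ Hi τ := by
  rcases hτ.eq_or_lt with h | h
  · rw [← h, Hi_eq, Ai_zero, Bi_zero, Ci_zero]; simp
  · exact le_of_tendsto' (Hi_tendsto h) (fun N => Hi_shift h N)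

/-- The majorant is at least `-π / 2` everywhere. -/
theorem Hi_ge_neg (τ : ℝ) : -(π / 2) ≤ Hi τ := by
  rcases le_or_gt 0 τ with h | h
  · have := Hi_ge h
    have := pi_pos
    linarith
  · have h2 : 0 < -τ := by linarith
    have := le_of_tendsto' (Hi_neg_tendsto h2) (fun N => Hi_neg_shift h2 N)
    rwa [neg_neg] at this

end BE
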