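import Mathlib

/-!
# Signed sums: expectation and probability over uniform signs
-/

set_option autoImplicit false
set_option linter.unusedSectionVars false
set_option linter.unusedSimpArgs false

open Finset

namespace BE

variable {ι : Type*} [Fintype ι] [DecidableEq ι]

/-- The signed sum over the index set `s`. -/
noncomputable def Sm (a : ι → ℝ) (s : Finset ι) (ε : ι → Bool) : ℝ :=
  ∑ i ∈ s, (if ε i then a i else -a i)


/-- Expectation with respect to uniform signs. -/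
noncomputable def Ex (f : (ι → Bool) → ℝ) : ℝ := (∑ ε, f ε) / 2 ^ Fintype.card ι

open Classical in
/-- The indicator of a proposition. -/
noncomputable def ind (p : Prop) : ℝ := if p then 1 else 0

lemma ind_of {p : Prop} (h : p) : ind p = 1 := if_pos h

lemma ind_not {p : Prop} (h : ¬p) : ind p = 0 := if_neg h

lemma ind_nonneg (p : Prop) : 0 ≤ ind p := by
  unfold ind; split_ifs <;> norm_num

lemma ind_le_one (p : Prop) : ind p ≤ 1 := by
  unfold ind; split_ifs <;> norm_num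

/-- Probability with respect to uniform signs. -/
noncomputable def Pr (p : (ι → Bool) → Prop) : ℝ := Ex (fun ε => ind (p ε))

lemma card_signs : Fintype.card (ι → Bool) = 2 ^ Fintype.card ι := by
  rw [Fintype.card_fun, Fintype.card_bool]

lemma two_pow_pos : (0 : ℝ) < 2 ^ Fintype.card ι := by positivity

lemma Ex_const (c : ℝ) : Ex (fun _ : ι → Bool => c) = c := by
  unfold Ex
  rw [sum_const, Finset.card_univ, card_signs, nsmul_eq_mul]
  push_cast
  field_simp

lemma Ex_add (f g : (ι → Bool) → ℝ) : Ex (fun ε => f ε + g ε) = Ex f + Ex g := by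
  unfold Ex
  rw [sum_add_distrib, add_div]

lemma Ex_sub (f g : (ι → Bool) → ℝ) : Ex (fun ε => f ε - g ε) = Ex f - Ex g := by
  unfold Ex
  rw [sum_sub_distrib, sub_div]

lemma Ex_neg (f : (ι → Bool) → ℝ) : Ex (fun ε => -f ε) = -Ex f := by
  unfold Ex
  rw [sum_neg_distrib, neg_div]

lemma Ex_const_mul (c : ℝ) (f : (ι → Bool) → ℝ) : Ex (fun ε => c * f ε) = c * Ex f := by
  unfold Ex
  rw [← mul_sum, mul_div_assoc]

lemma Ex_mul_const (f : (ι → Bool) → ℝ) (c : ℝ) : Ex (fun ε => f ε * c) = Ex f * c := by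
  unfold Ex
  rw [← sum_mul]
  ring

lemma Ex_mono {f g : (ι → Bool) → ℝ} (h : ∀ ε, f ε ≤ g ε) : Ex f ≤ Ex g := by
  unfold Ex
  exact div_le_div_of_nonneg_right (sum_le_sum fun ε _ => h ε) (by positivity)

lemma Ex_nonneg {f : (ι → Bool) → ℝ} (h : ∀ ε, 0 ≤ f ε) : 0 ≤ Ex f := by
  unfold Ex
  exact div_nonneg (sum_nonneg fun ε _ => h ε) (by positivity)

lemma Ex_congr {f g : (ι → Bool) → ℝ} (h : ∀ ε, f ε = g ε) : Ex f = Ex g := by
  rw [funext h]

lemma Ex_comp_equiv (e : (ι → Bool) ≃ (ι → Bool)) (f : (ι → Bool) → ℝ) :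
    Ex (fun ε => f (e ε)) = Ex f := by
  unfold Ex
  rw [Equiv.sum_comp e f]

/-- Flip one coordinate. -/
def flip (i : ι) (ε : ι → Bool) : ι → Bool := Function.update ε i (!ε i)

lemma flip_flip (i : ι) (ε : ι → Bool) : flip i (flip i ε) = ε := by
  funext j
  unfold flip
  by_cases h : j = i
  · subst h; simp
  · simp [Function.update_of_ne h]

/-- Flip one coordinate, as an equivalence. -/
def flipEquiv (i : ι) : (ι → Bool) ≃ (ι → Bool) :=
  ⟨flip i, flip i, flip_flip i, flip_flip i⟩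

lemma Ex_flip (i : ι) (f : (ι → Bool) → ℝ) : Ex (fun ε => f (flip i ε)) = Ex f :=
  Ex_comp_equiv (flipEquiv i) f

/-- Flip all coordinates, as an equivalence. -/
def notEquiv : (ι → Bool) ≃ (ι → Bool) :=
  ⟨fun ε j => !ε j, fun ε j => !ε j, fun ε => by funext j; simp, fun ε => by funext j; simp⟩

lemma Ex_not (f : (ι → Bool) → ℝ) : Ex (fun ε => f (fun j => !ε j)) = Ex f :=
  Ex_comp_equiv notEquiv f

/-- The sign of coordinate `i`. -/
noncomputable def sg (i : ι) (ε : ι → Bool) : ℝ := if ε i then 1 else -1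

lemma sg_flip (i : ι) (ε : ι → Bool) : sg i (flip i ε) = -sg i ε := by
  unfold sg flip
  cases h : ε i <;> simp [h]

lemma sg_sq (i : ι) (ε : ι → Bool) : sg i ε ^ 2 = 1 := by
  unfold sg
  split_ifs <;> norm_num

lemma Ex_mul_sg (i : ι) (f : (ι → Bool) → ℝ) (hf : ∀ ε, f (flip i ε) = f ε) :
    Ex (fun ε => f ε * sg i ε) = 0 := by
  have h := Ex_flip i (fun ε => f ε * sg i ε)
  simp only [hf, sg_flip] at h
  have h2 : Ex (fun ε => f ε * -sg i ε) = -Ex (fun ε => f ε * sg i ε) := by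
    rw [← Ex_neg]; exact Ex_congr fun ε => by ring
  rw [h2] at h
  linarith

lemma Sm_eq (a : ι → ℝ) (s : Finset ι) (ε : ι → Bool) : Sm a s ε = ∑ i ∈ s, sg i ε * a i := by
  unfold Sm sg
  refine sum_congr rfl fun i _ => ?_
  split_ifs <;> ring

lemma Sm_empty (a : ι → ℝ) (ε : ι → Bool) : Sm a ∅ ε = 0 := by
  unfold Sm; rw [sum_empty]

lemma Sm_insert (a : ι → ℝ) {s : Finset ι} {i : ι} (hi : i ∉ s) (ε : ι → Bool) :
    Sm a (insert i s) ε = sg i ε * a i + Sm a s ε := by
  rw [Sm_eq, Sm_eq, sum_insert hi]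

lemma Sm_flip (a : ι → ℝ) {s : Finset ι} {i : ι} (hi : i ∉ s) (ε : ι → Bool) :
    Sm a s (flip i ε) = Sm a s ε := by
  unfold Sm
  refine sum_congr rfl fun j hj => ?_
  have hne : j ≠ i := fun h => hi (h ▸ hj)
  unfold flip
  rw [Function.update_of_ne hne]

lemma Sm_not (a : ι → ℝ) (s : Finset ι) (ε : ι → Bool) :
    Sm a s (fun j => !ε j) = -Sm a s ε := by
  unfold Sm
  rw [← sum_neg_distrib]
  refine sum_congr rfl fun j _ => ?_
  cases h : ε j
  · rw [if_pos (by simp [h]), if_neg (by simp [h]), neg_neg]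
  · rw [if_neg (by simp [h]), if_pos (by simp [h])]

lemma Sm_smul (a : ι → ℝ) (c : ℝ) (s : Finset ι) (ε : ι → Bool) :
    Sm (fun i => a i / c) s ε = Sm a s ε / c := by
  rw [Sm_eq, Sm_eq, sum_div]
  exact sum_congr rfl fun i _ => by ring

/-! ### Probability -/

lemma Pr_eq_card (p : (ι → Bool) → Prop) [DecidablePred p] :
    Pr p = ((univ.filter p).card : ℝ) / 2 ^ Fintype.card ι := by
  unfold Pr Ex
  rw [← sum_boole]
  congr 1
  refine sum_congr rfl fun ε _ => ?_
  by_cases h : p ε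
  · simp only [ind_of h, if_pos h]
  · simp only [ind_not h, if_neg h]

lemma Pr_congr {p q : (ι → Bool) → Prop} (h : ∀ ε, p ε ↔ q ε) : Pr p = Pr q := by
  have : p = q := funext fun ε => propext (h ε)
  rw [this]

lemma Pr_nonneg (p : (ι → Bool) → Prop) : 0 ≤ Pr p :=
  Ex_nonneg fun _ => ind_nonneg _

lemma Pr_mono {p q : (ι → Bool) → Prop} (h : ∀ ε, p ε → q ε) : Pr p ≤ Pr q := by
  refine Ex_mono fun ε => ?_
  by_cases hp : p ε
  · rw [ind_of hp, ind_of (h ε hp)]
  · rw [ind_not hp]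
    exact ind_nonneg _

lemma Pr_true : Pr (fun _ : ι → Bool => True) = 1 := by
  unfold Pr
  simp only [ind_of trivial]
  exact Ex_const 1

lemma Pr_false : Pr (fun _ : ι → Bool => False) = 0 := by
  unfold Pr
  simp only [ind_not not_false]
  exact Ex_const 0

lemma Pr_le_one (p : (ι → Bool) → Prop) : Pr p ≤ 1 := by
  rw [← Pr_true (ι := ι)]
  exact Pr_mono fun _ _ => trivial

lemma Pr_compl (p : (ι → Bool) → Prop) : Pr (fun ε => ¬p ε) = 1 - Pr p := by
  have h : Pr p + Pr (fun ε => ¬p ε) = 1 := by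
    rw [← Ex_const (ι := ι) 1]
    unfold Pr
    rw [← Ex_add]
    refine Ex_congr fun ε => ?_
    by_cases hp : p ε
    · rw [ind_of hp, ind_not (not_not_intro hp)]; norm_num
    · rw [ind_not hp, ind_of hp]; norm_num
  linarith

lemma Pr_or_le (p q : (ι → Bool) → Prop) : Pr (fun ε => p ε ∨ q ε) ≤ Pr p + Pr q := by
  unfold Pr
  rw [← Ex_add]
  refine Ex_mono fun ε => ?_
  have h1 := ind_nonneg (p ε)
  have h2 := ind_nonneg (q ε)
  by_cases hp : p ε
  · rw [ind_of (Or.inl hp), ind_of hp]; linarith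
  · by_cases hq : q ε
    · rw [ind_of (Or.inr hq), ind_of hq]; linarith
    · rw [ind_not (not_or.2 ⟨hp, hq⟩)]; linarith

lemma Pr_or_disj {p q : (ι → Bool) → Prop} (h : ∀ ε, p ε → ¬q ε) :
    Pr (fun ε => p ε ∨ q ε) = Pr p + Pr q := by
  unfold Pr
  rw [← Ex_add]
  refine Ex_congr fun ε => ?_
  by_cases hp : p ε
  · rw [ind_of (Or.inl hp), ind_of hp, ind_not (h ε hp)]; norm_num
  · by_cases hq : q ε
    · rw [ind_of (Or.inr hq), ind_of hq, ind_not hp]; norm_num
    · rw [ind_not (not_or.2 ⟨hp, hq⟩), ind_not hp, ind_not hq]; norm_num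

lemma Pr_not (p : (ι → Bool) → Prop) : Pr (fun ε => p (fun j => !ε j)) = Pr p :=
  Ex_not (fun ε => ind (p ε))

lemma Pr_flip (i : ι) (p : (ι → Bool) → Prop) : Pr (fun ε => p (flip i ε)) = Pr p :=
  Ex_flip i (fun ε => ind (p ε))

lemma Pr_neg_sum (a : ι → ℝ) (s : Finset ι) (q : ℝ → Prop) :
    Pr (fun ε => q (-Sm a s ε)) = Pr (fun ε => q (Sm a s ε)) := by
  rw [← Pr_not (fun ε => q (Sm a s ε))]
  exact Pr_congr fun ε => by rw [Sm_not]

/-- Splitting off one coordinate, for expectations. -/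
lemma Ex_insert (a : ι → ℝ) {s : Finset ι} {i : ι} (hi : i ∉ s) (f : ℝ → ℝ) :
    Ex (fun ε => f (Sm a (insert i s) ε)) =
      (Ex (fun ε => f (a i + Sm a s ε)) + Ex (fun ε => f (-a i + Sm a s ε))) / 2 := by
  have h1 : Ex (fun ε => f (Sm a (insert i s) ε)) =
      Ex (fun ε => f (-(sg i ε * a i) + Sm a s ε)) := by
    rw [← Ex_flip i]
    refine Ex_congr fun ε => ?_
    rw [Sm_insert a hi, sg_flip, Sm_flip a hi, neg_mul]
  have h2 : Ex (fun ε => f (Sm a (insert i s) ε)) =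
      Ex (fun ε => f (sg i ε * a i + Sm a s ε)) :=
    Ex_congr fun ε => by rw [Sm_insert a hi]
  have h3 : Ex (fun ε => f (sg i ε * a i + Sm a s ε)) +
      Ex (fun ε => f (-(sg i ε * a i) + Sm a s ε))
      = Ex (fun ε => f (a i + Sm a s ε)) + Ex (fun ε => f (-a i + Sm a s ε)) := by
    rw [← Ex_add, ← Ex_add]
    refine Ex_congr fun ε => ?_
    unfold sg
    by_cases h : ε i = true
    · rw [if_pos h, one_mul]
    · rw [if_neg h, neg_one_mul, neg_neg, add_comm]
  linarith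

/-- Splitting off one coordinate, for probabilities. -/
lemma Pr_insert (a : ι → ℝ) {s : Finset ι} {i : ι} (hi : i ∉ s) (q : ℝ → Prop) :
    Pr (fun ε => q (Sm a (insert i s) ε)) =
      (Pr (fun ε => q (a i + Sm a s ε)) + Pr (fun ε => q (-a i + Sm a s ε))) / 2 :=
  Ex_insert a hi (fun x => ind (q x))

end BE
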