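import Mathlib
import Pool.Agent.Lib.BE.Rad
import Pool.Agent.Lib.BE.Beurling

/-!
# Characteristic function, moments and the smoothing inequality for signed sums
-/

set_option autoImplicit false
set_option linter.unusedSectionVars false

open MeasureTheory Set Filter Topology Real Finset

namespace BE

variable {ι : Type*} [Fintype ι] [DecidableEq ι]

/-- The characteristic function of a signed sum. -/
noncomputable def phi (a : ι → ℝ) (s : Finset ι) (t : ℝ) : ℝ := ∏ i ∈ s, cos (a i * t)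

lemma phi_continuous (a : ι → ℝ) (s : Finset ι) : Continuous (phi a s) := by
  unfold phi
  exact continuous_finsetProd _ fun i _ => by fun_prop

lemma Ex_cos (a : ι → ℝ) (s : Finset ι) (t : ℝ) :
    Ex (fun ε => cos (t * Sm a s ε)) = phi a s t := by
  induction s using Finset.induction_on with
  | empty =>
    simp only [Sm_empty, mul_zero, cos_zero, phi]
    exact Ex_const 1
  | insert i s hi ih =>
    rw [Ex_insert a hi (fun x => cos (t * x))]
    rw [← Ex_add]
    have h : ∀ ε, cos (t * (a i + Sm a s ε)) + cos (t * (-a i + Sm a s ε)) =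
        (2 * cos (a i * t)) * cos (t * Sm a s ε) := by
      intro ε
      rw [mul_add, mul_add, cos_add, cos_add, mul_neg, cos_neg, sin_neg, mul_comm (a i) t]
      ring
    rw [Ex_congr h, Ex_const_mul, ih]
    unfold phi
    rw [prod_insert hi]
    ring

lemma Ex_sin (a : ι → ℝ) (s : Finset ι) (t : ℝ) : Ex (fun ε => sin (t * Sm a s ε)) = 0 := by
  have h := Ex_not (fun ε => sin (t * Sm a s ε))
  simp only [Sm_not, mul_neg, sin_neg] at h
  rw [Ex_neg] at h
  linarith

lemma Ex_cos_shift (a : ι → ℝ) (s : Finset ι) (t x : ℝ) :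
    Ex (fun ε => cos (t * (x - Sm a s ε))) = cos (t * x) * phi a s t := by
  have h : ∀ ε, cos (t * (x - Sm a s ε)) =
      cos (t * x) * cos (t * Sm a s ε) + sin (t * x) * sin (t * Sm a s ε) := by
    intro ε; rw [mul_sub, cos_sub]
  rw [Ex_congr h, Ex_add, Ex_const_mul, Ex_const_mul, Ex_sin, Ex_cos]
  ring

lemma Ex_sin_shift (a : ι → ℝ) (s : Finset ι) (t x : ℝ) :
    Ex (fun ε => sin (t * (x - Sm a s ε))) = sin (t * x) * phi a s t := by
  have h : ∀ ε, sin (t * (x - Sm a s ε)) =
      sin (t * x) * cos (t * Sm a s ε) - cos (t * x) * sin (t * Sm a s ε) := by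
    intro ε; rw [mul_sub, sin_sub]
  rw [Ex_congr h, Ex_sub, Ex_const_mul, Ex_const_mul, Ex_sin, Ex_cos]
  ring

lemma Ex_sq (a : ι → ℝ) (s : Finset ι) : Ex (fun ε => Sm a s ε ^ 2) = ∑ i ∈ s, a i ^ 2 := by
  induction s using Finset.induction_on with
  | empty =>
    simp only [Sm_empty, sum_empty]
    norm_num
    exact Ex_const 0
  | insert i s hi ih =>
    rw [Ex_insert a hi (fun x => x ^ 2), ← Ex_add]
    have h : ∀ ε, (a i + Sm a s ε) ^ 2 + (-a i + Sm a s ε) ^ 2 =
        2 * a i ^ 2 + 2 * Sm a s ε ^ 2 := by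
      intro ε; ring
    rw [Ex_congr h, Ex_add, Ex_const, Ex_const_mul, ih, sum_insert hi]
    ring

lemma Ex_four (a : ι → ℝ) (s : Finset ι) :
    Ex (fun ε => Sm a s ε ^ 4) ≤ 3 * (∑ i ∈ s, a i ^ 2) ^ 2 := by
  induction s using Finset.induction_on with
  | empty =>
    simp only [Sm_empty, sum_empty]
    norm_num
    exact (Ex_const 0).le
  | insert i s hi ih =>
    rw [Ex_insert a hi (fun x => x ^ 4), ← Ex_add]
    have h : ∀ ε, (a i + Sm a s ε) ^ 4 + (-a i + Sm a s ε) ^ 4 =
        2 * a i ^ 4 + ((12 * a i ^ 2) * Sm a s ε ^ 2 + 2 * Sm a s ε ^ 4) := by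
      intro ε; ring
    rw [Ex_congr h, Ex_add, Ex_const, Ex_add, Ex_const_mul, Ex_const_mul, Ex_sq, sum_insert hi]
    nlinarith [sq_nonneg (a i ^ 2), sq_nonneg (a i)]

/-- The smoothing kernel in the Fourier variable. -/
noncomputable def P (A x t : ℝ) : ℝ :=
  A * ((1 - A * t / π) * cos (x * t) + (cw (A * t) + 1 / π) * sin (x * t))

lemma Hi_integrable (b : ℝ) : IntervalIntegrable
    (fun θ => (1 - θ / π) * cos (b * θ) + (cw θ + 1 / π) * sin (b * θ)) volume 0 π := by
  have h1 : IntervalIntegrable (fun θ => (1 - θ / π) * cos (b * θ) + 1 / π * sin (b * θ))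
      volume 0 π := by
    apply Continuous.intervalIntegrable; fun_prop
  have h2 := h1.add (Ci_integrable b)
  refine h2.congr fun θ _ => ?_
  ring

lemma ind_le_Hi {A : ℝ} (hA : 0 < A) (w : ℝ) : ind (0 ≤ w) ≤ 1 / 2 + 1 / π * Hi (w / (2 * A)) := by
  have hπ := pi_pos
  by_cases h : 0 ≤ w
  · rw [ind_of h]
    have h1 := Hi_ge (div_nonneg h (by positivity : (0 : ℝ) ≤ 2 * A))
    have h2 : 1 / 2 ≤ 1 / π * Hi (w / (2 * A)) := by
      calc (1 : ℝ) / 2 = 1 / π * (π / 2) := by field_simp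
        _ ≤ _ := mul_le_mul_of_nonneg_left h1 (by positivity)
    linarith
  · rw [ind_not h]
    have h1 := Hi_ge_neg (w / (2 * A))
    have h2 : -(1 / 2) ≤ 1 / π * Hi (w / (2 * A)) := by
      calc -((1 : ℝ) / 2) = 1 / π * (-(π / 2)) := by field_simp
        _ ≤ _ := mul_le_mul_of_nonneg_left h1 (by positivity)
    linarith

/-- The smoothing inequality. -/
theorem bs_bound (a : ι → ℝ) (s : Finset ι) {A : ℝ} (hA : 0 < A) (x : ℝ) :
    π * (Pr (fun ε => Sm a s ε ≤ x) - 1 / 2) ≤ ∫ t in (0 : ℝ)..π / A, P A x t * phi a s t := by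
  have hπ := pi_pos
  have h1 : Pr (fun ε => Sm a s ε ≤ x) ≤
      Ex (fun ε => 1 / 2 + 1 / π * Hi ((x - Sm a s ε) / (2 * A))) := by
    refine Ex_mono fun ε => ?_
    have : (Sm a s ε ≤ x) = (0 ≤ x - Sm a s ε) := by rw [sub_nonneg]
    simp only [this]
    exact ind_le_Hi hA _
  rw [Ex_add, Ex_const, Ex_const_mul] at h1
  have h2 : Ex (fun ε => Hi ((x - Sm a s ε) / (2 * A))) =
      ∫ θ in (0 : ℝ)..π, ((1 - θ / π) * cos (θ / A * x) + (cw θ + 1 / π) * sin (θ / A * x)) *
        phi a s (θ / A) := by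
    unfold Ex Hi
    rw [← intervalIntegral.integral_finsetSum (fun ε _ => Hi_integrable _),
      ← intervalIntegral.integral_div]
    refine intervalIntegral.integral_congr fun θ _ => ?_
    change (∑ ε, _) / _ = _
    rw [sum_add_distrib, ← mul_sum, ← mul_sum, add_div, mul_div_assoc, mul_div_assoc]
    have e1 := Ex_cos_shift a s (θ / A) x
    have e2 := Ex_sin_shift a s (θ / A) x
    unfold Ex at e1 e2
    have e3 : ∀ ε, 2 * ((x - Sm a s ε) / (2 * A)) * θ = θ / A * (x - Sm a s ε) := by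
      intro ε; field_simp
    simp only [e3]
    rw [e1, e2]
    ring
  have h3 : ∫ θ in (0 : ℝ)..π, ((1 - θ / π) * cos (θ / A * x) + (cw θ + 1 / π) * sin (θ / A * x)) *
        phi a s (θ / A) = ∫ t in (0 : ℝ)..π / A, P A x t * phi a s t := by
    have h4 := intervalIntegral.integral_comp_mul_left (a := 0) (b := π / A) (fun θ =>
      ((1 - θ / π) * cos (θ / A * x) + (cw θ + 1 / π) * sin (θ / A * x)) * phi a s (θ / A)) hA.ne'
    rw [mul_zero, mul_div_cancel₀ _ hA.ne', smul_eq_mul] at h4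
    have h5 : ∫ t in (0 : ℝ)..π / A, P A x t * phi a s t = A * ∫ t in (0 : ℝ)..π / A,
        ((1 - A * t / π) * cos (A * t / A * x) + (cw (A * t) + 1 / π) * sin (A * t / A * x)) *
          phi a s (A * t / A) := by
      rw [← intervalIntegral.integral_const_mul]
      refine intervalIntegral.integral_congr fun t _ => ?_
      have e : A * t / A = t := by field_simp
      simp only [e]
      unfold P
      rw [mul_comm t x]
      ring
    rw [h5, h4, ← mul_assoc, mul_inv_cancel₀ hA.ne', one_mul]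
  rw [h2, h3] at h1
  have h6 : π * (Pr (fun ε => Sm a s ε ≤ x) - 1 / 2) ≤
      π * (1 / π * ∫ t in (0 : ℝ)..π / A, P A x t * phi a s t) :=
    mul_le_mul_of_nonneg_left (by linarith) hπ.le
  calc _ ≤ _ := h6
    _ = _ := by field_simp

end BE
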