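import Mathlib

/-!
# Gaussian moments and trigonometric Gaussian integrals on the half line
-/

set_option autoImplicit false

open MeasureTheory Set Filter Topology Real

namespace BE

/-- The unnormalised Gaussian. -/
noncomputable def ga (t : ℝ) : ℝ := exp (-t ^ 2 / 2)

/-- The half-line Gaussian mass. -/
noncomputable def rho : ℝ := √(π / 2)

/-- The unnormalised error function. -/
noncomputable def G (x : ℝ) : ℝ := ∫ s in (0 : ℝ)..x, ga s

/-- The normalised Gaussian mass of the interval from `0` to `x`. -/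
noncomputable def D (x : ℝ) : ℝ := G x / (2 * rho)

/-- Half-line moments. -/
noncomputable def mo (k : ℕ) : ℝ := ∫ t in Ioi (0 : ℝ), t ^ k * ga t

lemma ga_pos (t : ℝ) : 0 < ga t := exp_pos _

lemma ga_le_one (t : ℝ) : ga t ≤ 1 := by
  unfold ga
  rw [exp_le_one_iff]
  nlinarith [sq_nonneg t]

lemma ga_continuous : Continuous ga := by
  unfold ga; fun_prop

lemma ga_neg (t : ℝ) : ga (-t) = ga t := by
  unfold ga; rw [neg_sq]

lemma ga_anti {s t : ℝ} (h0 : 0 ≤ s) (h : s ≤ t) : ga t ≤ ga s := by
  unfold ga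
  apply exp_le_exp.2
  nlinarith

lemma rho_pos : 0 < rho := by
  unfold rho; positivity

lemma rho_sq : rho ^ 2 = π / 2 := by
  unfold rho; rw [sq_sqrt (by positivity)]

lemma ga_eq (t : ℝ) : ga t = exp (-(1 / 2) * t ^ 2) := by
  unfold ga; ring_nf

lemma int_pow_ga (k : ℕ) : IntegrableOn (fun t : ℝ => t ^ k * ga t) (Ioi 0) := by
  have h := integrableOn_rpow_mul_exp_neg_mul_sq (b := 1 / 2) (by norm_num) (s := (k : ℝ))
    (by have : (0 : ℝ) ≤ k := Nat.cast_nonneg k
        linarith)
  refine h.congr_fun (fun t _ => ?_) measurableSet_Ioi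
  simp only [rpow_natCast, ga_eq]

lemma int_ga : IntegrableOn ga (Ioi 0) := by
  have h := int_pow_ga 0
  simpa using h

lemma mo_zero : mo 0 = rho := by
  unfold mo rho
  simp only [pow_zero, one_mul, ga_eq]
  rw [integral_gaussian_Ioi]
  have : π / (1 / 2) = 4 * (π / 2) := by ring
  rw [this, sqrt_mul (by norm_num), show (4 : ℝ) = 2 ^ 2 by norm_num, sqrt_sq (by norm_num)]
  ring

lemma ga_hasDeriv (t : ℝ) : HasDerivAt ga (-t * ga t) t := by
  unfold ga
  have h : HasDerivAt (fun t : ℝ => -t ^ 2 / 2) (-t) t := by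
    have := ((hasDerivAt_pow 2 t).neg).div_const 2
    refine this.congr_deriv ?_
    norm_num
    ring
  have := h.exp
  refine this.congr_deriv ?_
  ring

lemma tendsto_pow_ga (k : ℕ) : Tendsto (fun t : ℝ => t ^ k * ga t) atTop (𝓝 0) := by
  have h := tendsto_pow_mul_exp_neg_atTop_nhds_zero k
  have h2 : Tendsto (fun t : ℝ => exp 1 * (t ^ k * exp (-t))) atTop (𝓝 0) := by
    simpa using h.const_mul (exp 1)
  refine squeeze_zero' ?_ ?_ h2
  · filter_upwards [eventually_ge_atTop (0 : ℝ)] with t ht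
    exact mul_nonneg (pow_nonneg ht k) (ga_pos t).le
  · filter_upwards [eventually_ge_atTop (0 : ℝ)] with t ht
    have : ga t ≤ exp 1 * exp (-t) := by
      rw [← exp_add]
      unfold ga
      apply exp_le_exp.2
      nlinarith [sq_nonneg (t - 1)]
    calc t ^ k * ga t ≤ t ^ k * (exp 1 * exp (-t)) :=
          mul_le_mul_of_nonneg_left this (pow_nonneg ht k)
      _ = _ := by ring

lemma tail_one (c : ℝ) : ∫ t in Ioi c, t * ga t = ga c := by
  have h : ∀ t ∈ Ici c, HasDerivAt (fun t => -ga t) (t * ga t) t := by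
    intro t _
    have := (ga_hasDeriv t).neg
    refine this.congr_deriv ?_
    ring
  have hl : Tendsto (fun t => -ga t) atTop (𝓝 0) := by
    have := (tendsto_pow_ga 0).neg
    simpa using this
  have hi : IntegrableOn (fun t => t * ga t) (Ioi c) := by
    have h1 : Integrable (fun t : ℝ => t * exp (-(1 / 2) * t ^ 2)) :=
      integrable_mul_exp_neg_mul_sq (by norm_num)
    have h2 : (fun t : ℝ => t * exp (-(1 / 2) * t ^ 2)) = fun t => t * ga t := by
      funext t; rw [ga_eq]
    rw [h2] at h1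
    exact h1.integrableOn
  rw [integral_Ioi_of_hasDerivAt_of_tendsto' h hi hl]
  ring

lemma mo_one : mo 1 = 1 := by
  unfold mo
  simp only [pow_one]
  rw [tail_one]
  unfold ga
  simp

lemma mo_succ (k : ℕ) : mo (k + 2) = (k + 1) * mo k := by
  have h : ∀ t ∈ Ici (0 : ℝ), HasDerivAt (fun t => -(t ^ (k + 1) * ga t))
      (t ^ (k + 2) * ga t - (k + 1) * (t ^ k * ga t)) t := by
    intro t _
    have := ((hasDerivAt_pow (k + 1) t).mul (ga_hasDeriv t)).neg
    refine this.congr_deriv ?_
    simp only [Nat.add_sub_cancel]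
    push_cast
    ring
  have hl : Tendsto (fun t => -(t ^ (k + 1) * ga t)) atTop (𝓝 0) := by
    have := (tendsto_pow_ga (k + 1)).neg
    simpa using this
  have hi : IntegrableOn (fun t => t ^ (k + 2) * ga t - (k + 1) * (t ^ k * ga t)) (Ioi 0) :=
    (int_pow_ga (k + 2)).sub ((int_pow_ga k).const_mul _)
  have h2 := integral_Ioi_of_hasDerivAt_of_tendsto' h hi hl
  rw [integral_sub (int_pow_ga (k + 2)) ((int_pow_ga k).const_mul _), integral_const_mul] at h2
  unfold mo
  simp only [ne_eq, Nat.add_eq_zero_iff, one_ne_zero, and_false, not_false_eq_true, zero_pow,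
    zero_mul, neg_zero, sub_zero] at h2
  linarith

lemma mo2 : mo 2 = rho := by rw [mo_succ 0, mo_zero]; norm_num
lemma mo3 : mo 3 = 2 := by rw [mo_succ 1, mo_one]; norm_num
lemma mo4 : mo 4 = 3 * rho := by rw [mo_succ 2, mo2]; norm_num
lemma mo5 : mo 5 = 8 := by rw [mo_succ 3, mo3]; norm_num
lemma mo6 : mo 6 = 15 * rho := by rw [mo_succ 4, mo4]; ring
lemma mo7 : mo 7 = 48 := by rw [mo_succ 5, mo5]; norm_num
lemma mo8 : mo 8 = 105 * rho := by rw [mo_succ 6, mo6]; ring

lemma int_poly (n : ℕ) (c : ℕ → ℝ) :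
    IntegrableOn (fun t => (∑ k ∈ Finset.range n, c k * t ^ k) * ga t) (Ioi 0) := by
  have h : IntegrableOn (fun t => ∑ k ∈ Finset.range n, c k * (t ^ k * ga t)) (Ioi 0) :=
    integrable_finsetSum _ fun k _ => (int_pow_ga k).const_mul _
  refine h.congr_fun (fun t _ => ?_) measurableSet_Ioi
  simp only
  rw [Finset.sum_mul]
  exact Finset.sum_congr rfl fun k _ => by ring

lemma integral_poly (n : ℕ) (c : ℕ → ℝ) :
    ∫ t in Ioi (0 : ℝ), (∑ k ∈ Finset.range n, c k * t ^ k) * ga t =
      ∑ k ∈ Finset.range n, c k * mo k := by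
  unfold mo
  simp only [← integral_const_mul]
  rw [← integral_finsetSum _ fun k _ => (int_pow_ga k).const_mul _]
  refine setIntegral_congr_fun measurableSet_Ioi (fun t _ => ?_)
  rw [Finset.sum_mul]
  exact Finset.sum_congr rfl fun k _ => by ring

/-- Integrability of bounded measurable times a power times the Gaussian. -/
lemma int_bdd {f : ℝ → ℝ} (hf : Measurable f) {C : ℝ} (k : ℕ)
    (hC : ∀ t, 0 < t → |f t| ≤ C * t ^ k) : IntegrableOn (fun t => f t * ga t) (Ioi 0) := by
  refine Integrable.mono' ((int_pow_ga k).const_mul C)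
    (hf.mul ga_continuous.measurable).aestronglyMeasurable ?_
  refine (ae_restrict_iff' measurableSet_Ioi).2 (Eventually.of_forall fun t ht => ?_)
  rw [Real.norm_eq_abs, abs_mul, abs_of_pos (ga_pos t), ← mul_assoc]
  exact mul_le_mul_of_nonneg_right (hC t ht) (ga_pos t).le

lemma int_cos (x : ℝ) : IntegrableOn (fun t => cos (x * t) * ga t) (Ioi 0) :=
  int_bdd (C := 1) (by fun_prop) 0 (fun t _ => by rw [pow_zero, mul_one]; exact abs_cos_le_one _)

lemma int_tcos (x : ℝ) : IntegrableOn (fun t => (t * cos (x * t)) * ga t) (Ioi 0) :=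
  int_bdd (C := 1) (by fun_prop) 1 (fun t ht => by
    rw [pow_one, one_mul, abs_mul, abs_of_pos ht]
    exact mul_le_of_le_one_right ht.le (abs_cos_le_one _))

lemma int_sin (x : ℝ) : IntegrableOn (fun t => sin (x * t) * ga t) (Ioi 0) :=
  int_bdd (C := 1) (by fun_prop) 0 (fun t _ => by rw [pow_zero, mul_one]; exact abs_sin_le_one _)

lemma int_sinc (x : ℝ) : IntegrableOn (fun t => (sin (x * t) / t) * ga t) (Ioi 0) :=
  int_bdd (C := |x|) (by fun_prop) 0 (fun t ht => by
    rw [pow_zero, mul_one, abs_div, abs_of_pos ht, div_le_iff₀ ht]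
    have := abs_sin_le_abs (x := x * t)
    rwa [abs_mul, abs_of_pos ht] at this)

/-- Cosine transform of the Gaussian. -/
lemma cos_int (x : ℝ) : ∫ t in Ioi (0 : ℝ), cos (x * t) * ga t = rho * ga x := by
  have h := fourierIntegral_gaussian (b := (1 / 2 : ℂ)) (by norm_num) (x : ℂ)
  have h1 : ∀ t : ℝ, Complex.exp (Complex.I * x * t) * Complex.exp (-(1 / 2) * t ^ 2) =
      Complex.exp ((x * t : ℝ) * Complex.I) * ((ga t : ℝ) : ℂ) := by
    intro t
    rw [ga_eq]
    push_cast
    congr 2
    ring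
  simp only [h1] at h
  have h2 : ((π : ℂ) / (1 / 2)) ^ (1 / 2 : ℂ) * Complex.exp (-x ^ 2 / (4 * (1 / 2))) =
      ((2 * rho * ga x : ℝ) : ℂ) := by
    have e1 : ((π : ℂ) / (1 / 2)) ^ (1 / 2 : ℂ) = ((2 * rho : ℝ) : ℂ) := by
      have : (2 * rho : ℝ) = (π / (1 / 2)) ^ (1 / 2 : ℝ) := by
        rw [← sqrt_eq_rpow]
        unfold rho
        have : π / (1 / 2) = 4 * (π / 2) := by ring
        rw [this, sqrt_mul (by norm_num), show (4 : ℝ) = 2 ^ 2 by norm_num, sqrt_sq (by norm_num)]
      rw [this, Complex.ofReal_cpow (by positivity)]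
      push_cast
      rfl
    rw [e1]
    have e2 : Complex.exp (-x ^ 2 / (4 * (1 / 2))) = ((ga x : ℝ) : ℂ) := by
      unfold ga
      push_cast
      congr 1
      ring
    rw [e2]
    push_cast
    ring
  rw [h2] at h
  have hint : Integrable (fun t : ℝ => Complex.exp ((x * t : ℝ) * Complex.I) * ((ga t : ℝ) : ℂ)) := by
    have hg : Integrable (fun t : ℝ => ga t) := by
      have := integrable_exp_neg_mul_sq (b := 1 / 2) (by norm_num)
      refine this.congr (Eventually.of_forall fun t => ?_)
      simp only [ga_eq]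
    refine Integrable.mono' hg ?_ (Eventually.of_forall fun t => ?_)
    · apply Continuous.aestronglyMeasurable
      have := ga_continuous
      fun_prop
    · rw [norm_mul, Complex.norm_exp_ofReal_mul_I, one_mul, Complex.norm_real, Real.norm_eq_abs,
        abs_of_pos (ga_pos t)]
  have h3 := Complex.reCLM.integral_comp_comm hint
  rw [Complex.reCLM_apply, h, Complex.ofReal_re] at h3
  have h4 : ∫ t : ℝ, Complex.reCLM (Complex.exp ((x * t : ℝ) * Complex.I) * ((ga t : ℝ) : ℂ)) =
      ∫ t : ℝ, cos (x * |t|) * ga |t| := by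
    refine integral_congr_ae (Eventually.of_forall fun t => ?_)
    simp only [Complex.reCLM_apply]
    rw [Complex.mul_re, Complex.ofReal_re, Complex.ofReal_im, mul_zero, sub_zero,
      Complex.exp_ofReal_mul_I_re]
    rcases abs_cases t with ⟨h, _⟩ | ⟨h, _⟩
    · rw [h]
    · rw [h, ga_neg, mul_neg, cos_neg]
  rw [h4, integral_comp_abs (f := fun t => cos (x * t) * ga t)] at h3
  linarith

lemma G_zero : G 0 = 0 := by unfold G; simp

lemma G_hasDeriv (x : ℝ) : HasDerivAt G (ga x) x := by
  unfold G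
  exact intervalIntegral.integral_hasDerivAt_right (ga_continuous.intervalIntegrable _ _)
    ga_continuous.stronglyMeasurable.stronglyMeasurableAtFilter ga_continuous.continuousAt

lemma G_neg (x : ℝ) : G (-x) = -G x := by
  unfold G
  have h := intervalIntegral.integral_comp_neg (a := 0) (b := x) (fun s => ga s)
  simp only [ga_neg, neg_zero] at h
  rw [h, intervalIntegral.integral_symm]

lemma G_mono {x y : ℝ} (h : x ≤ y) : G x ≤ G y := by
  have : Monotone G := monotone_of_deriv_nonneg
    (fun x => (G_hasDeriv x).differentiableAt)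
    (fun x => by rw [(G_hasDeriv x).deriv]; exact (ga_pos x).le)
  exact this h

lemma G_nonneg {x : ℝ} (h : 0 ≤ x) : 0 ≤ G x := by
  have := G_mono h
  rwa [G_zero] at this

/-- Sine transform. -/
lemma sin_int (x : ℝ) : ∫ t in Ioi (0 : ℝ), sin (x * t) / t * ga t = rho * G x := by
  have key : ∀ x : ℝ, HasDerivAt (fun x => ∫ t in Ioi (0 : ℝ), sin (x * t) / t * ga t)
      (∫ t in Ioi (0 : ℝ), cos (x * t) * ga t) x := by
    intro x
    have h := hasDerivAt_integral_of_dominated_loc_of_deriv_le
      (μ := volume.restrict (Ioi (0 : ℝ))) (s := univ) (bound := ga)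
      (F := fun x t => sin (x * t) / t * ga t) (F' := fun x t => cos (x * t) * ga t) (x₀ := x)
      univ_mem (Eventually.of_forall fun y => ?_) (int_sinc x) ?_ ?_ int_ga ?_
    · exact h.2
    · exact (int_sinc y).aestronglyMeasurable
    · exact (int_cos x).aestronglyMeasurable
    · refine Eventually.of_forall fun t y _ => ?_
      rw [Real.norm_eq_abs, abs_mul, abs_of_pos (ga_pos t)]
      exact mul_le_of_le_one_left (ga_pos t).le (abs_cos_le_one _)
    · refine (ae_restrict_iff' measurableSet_Ioi).2 (Eventually.of_forall fun t ht y _ => ?_)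
      have ht0 : t ≠ 0 := (ne_of_gt ht)
      have h1 : HasDerivAt (fun y : ℝ => y * t) t y := by
        simpa using (hasDerivAt_id y).mul_const t
      have h2 := (h1.sin.div_const t).mul_const (ga t)
      refine h2.congr_deriv ?_
      field_simp
  have h2 : ∀ x : ℝ, HasDerivAt (fun x => (∫ t in Ioi (0 : ℝ), sin (x * t) / t * ga t) - rho * G x)
      0 x := by
    intro x
    have := (key x).sub ((G_hasDeriv x).const_mul rho)
    refine this.congr_deriv ?_
    rw [cos_int]; ring
  have h3 := is_const_of_deriv_eq_zero (fun x => (h2 x).differentiableAt) (fun x => (h2 x).deriv)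
    x 0
  simp only [zero_mul, sin_zero, zero_div, integral_zero, G_zero, mul_zero, sub_zero] at h3
  linarith

end BE
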