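import Mathlib
import Pool.Agent.Lib.BE.CharFn
import Pool.Agent.Lib.BE.Gauss

/-!
# Elementary inequalities for the smoothing kernel
-/

set_option autoImplicit false

open MeasureTheory Set Filter Topology Real

namespace BE

lemma nonneg_of_deriv {f f' : ℝ → ℝ} (h0 : 0 ≤ f 0) (hd : ∀ x, HasDerivAt f (f' x) x)
    (h : ∀ x, 0 ≤ x → 0 ≤ f' x) (x : ℝ) (hx : 0 ≤ x) : 0 ≤ f x := by
  have hm : MonotoneOn f (Ici 0) := by
    refine monotoneOn_of_deriv_nonneg (convex_Ici 0)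
      (fun y _ => (hd y).continuousAt.continuousWithinAt)
      (fun y _ => (hd y).differentiableAt.differentiableWithinAt) fun y hy => ?_
    rw [interior_Ici] at hy
    rw [(hd y).deriv]
    exact h y (le_of_lt hy)
  exact h0.trans (hm self_mem_Ici hx hx)

lemma sin_ge3 (x : ℝ) (hx : 0 ≤ x) : x - x ^ 3 / 6 ≤ sin x := by
  have := nonneg_of_deriv (f := fun x => sin x - (x - x ^ 3 / 6))
    (f' := fun x => cos x - (1 - x ^ 2 / 2)) (by simp)
    (fun y => by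
      have := (hasDerivAt_sin y).sub ((hasDerivAt_id y).sub ((hasDerivAt_pow 3 y).div_const 6))
      refine this.congr_deriv ?_
      norm_num; ring)
    (fun y _ => by have := one_sub_sq_div_two_le_cos (x := y); linarith) x hx
  linarith

lemma cos_le4 (x : ℝ) (hx : 0 ≤ x) : cos x ≤ 1 - x ^ 2 / 2 + x ^ 4 / 24 := by
  have := nonneg_of_deriv (f := fun x => 1 - x ^ 2 / 2 + x ^ 4 / 24 - cos x)
    (f' := fun x => sin x - (x - x ^ 3 / 6)) (by simp)
    (fun y => by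
      have := ((((hasDerivAt_pow 2 y).div_const 2).const_sub 1).add
        ((hasDerivAt_pow 4 y).div_const 24)).sub (hasDerivAt_cos y)
      refine this.congr_deriv ?_
      norm_num; ring)
    (fun y hy => by have := sin_ge3 y hy; linarith) x hx
  linarith

lemma sin_le5 (x : ℝ) (hx : 0 ≤ x) : sin x ≤ x - x ^ 3 / 6 + x ^ 5 / 120 := by
  have := nonneg_of_deriv (f := fun x => x - x ^ 3 / 6 + x ^ 5 / 120 - sin x)
    (f' := fun x => 1 - x ^ 2 / 2 + x ^ 4 / 24 - cos x) (by simp)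
    (fun y => by
      have := (((hasDerivAt_id y).sub ((hasDerivAt_pow 3 y).div_const 6)).add
        ((hasDerivAt_pow 5 y).div_const 120)).sub (hasDerivAt_sin y)
      refine this.congr_deriv ?_
      norm_num; ring)
    (fun y hy => by have := cos_le4 y hy; linarith) x hx
  linarith

lemma cos_ge6 (x : ℝ) (hx : 0 ≤ x) : 1 - x ^ 2 / 2 + x ^ 4 / 24 - x ^ 6 / 720 ≤ cos x := by
  have := nonneg_of_deriv (f := fun x => cos x - (1 - x ^ 2 / 2 + x ^ 4 / 24 - x ^ 6 / 720))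
    (f' := fun x => x - x ^ 3 / 6 + x ^ 5 / 120 - sin x) (by simp)
    (fun y => by
      have := (hasDerivAt_cos y).sub (((((hasDerivAt_pow 2 y).div_const 2).const_sub 1).add
        ((hasDerivAt_pow 4 y).div_const 24)).sub ((hasDerivAt_pow 6 y).div_const 720))
      refine this.congr_deriv ?_
      norm_num; ring)
    (fun y hy => by have := sin_le5 y hy; linarith) x hx
  linarith

lemma hasDerivAt_exp_neg (y : ℝ) : HasDerivAt (fun x => exp (-x)) (-exp (-y)) y := by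
  have := (hasDerivAt_neg y).exp
  refine this.congr_deriv ?_
  ring

lemma exp_le2 (x : ℝ) (hx : 0 ≤ x) : exp (-x) ≤ 1 - x + x ^ 2 / 2 := by
  have := nonneg_of_deriv (f := fun x => 1 - x + x ^ 2 / 2 - exp (-x))
    (f' := fun x => exp (-x) - (1 - x)) (by simp)
    (fun y => by
      have := ((((hasDerivAt_id y)).const_sub 1).add
        ((hasDerivAt_pow 2 y).div_const 2)).sub (hasDerivAt_exp_neg y)
      refine this.congr_deriv ?_
      norm_num; ring)
    (fun y _ => by have := one_sub_le_exp_neg y; linarith) x hx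
  linarith

lemma exp_ge3 (x : ℝ) (hx : 0 ≤ x) : 1 - x + x ^ 2 / 2 - x ^ 3 / 6 ≤ exp (-x) := by
  have := nonneg_of_deriv (f := fun x => exp (-x) - (1 - x + x ^ 2 / 2 - x ^ 3 / 6))
    (f' := fun x => 1 - x + x ^ 2 / 2 - exp (-x)) (by simp)
    (fun y => by
      have := (hasDerivAt_exp_neg y).sub (((((hasDerivAt_id y)).const_sub 1).add
        ((hasDerivAt_pow 2 y).div_const 2)).sub ((hasDerivAt_pow 3 y).div_const 6))
      refine this.congr_deriv ?_
      norm_num; ring)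
    (fun y hy => by have := exp_le2 y hy; linarith) x hx
  linarith

lemma exp_le4 (x : ℝ) (hx : 0 ≤ x) : exp (-x) ≤ 1 - x + x ^ 2 / 2 - x ^ 3 / 6 + x ^ 4 / 24 := by
  have := nonneg_of_deriv (f := fun x => 1 - x + x ^ 2 / 2 - x ^ 3 / 6 + x ^ 4 / 24 - exp (-x))
    (f' := fun x => exp (-x) - (1 - x + x ^ 2 / 2 - x ^ 3 / 6)) (by simp)
    (fun y => by
      have := ((((((hasDerivAt_id y)).const_sub 1).add
        ((hasDerivAt_pow 2 y).div_const 2)).sub ((hasDerivAt_pow 3 y).div_const 6)).add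
        ((hasDerivAt_pow 4 y).div_const 24)).sub (hasDerivAt_exp_neg y)
      refine this.congr_deriv ?_
      norm_num; ring)
    (fun y hy => by have := exp_ge3 y hy; linarith) x hx
  linarith

/-! ### Gaussian bounds -/

lemma ga_ge (x : ℝ) : 1 - x ^ 2 / 2 + x ^ 4 / 8 - x ^ 6 / 48 ≤ ga x := by
  have := exp_ge3 (x ^ 2 / 2) (by positivity)
  unfold ga
  have e : -x ^ 2 / 2 = -(x ^ 2 / 2) := by ring
  rw [e]
  calc _ = 1 - x ^ 2 / 2 + (x ^ 2 / 2) ^ 2 / 2 - (x ^ 2 / 2) ^ 3 / 6 := by ring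
    _ ≤ _ := this

lemma ga_le (x : ℝ) : ga x ≤ 1 - x ^ 2 / 2 + x ^ 4 / 8 := by
  have := exp_le2 (x ^ 2 / 2) (by positivity)
  unfold ga
  have e : -x ^ 2 / 2 = -(x ^ 2 / 2) := by ring
  rw [e]
  calc _ ≤ _ := this
    _ = _ := by ring

lemma ga_le' (x : ℝ) : ga x ≤ 1 - x ^ 2 / 2 + x ^ 4 / 8 - x ^ 6 / 48 + x ^ 8 / 384 := by
  have := exp_le4 (x ^ 2 / 2) (by positivity)
  unfold ga
  have e : -x ^ 2 / 2 = -(x ^ 2 / 2) := by ring
  rw [e]
  calc _ ≤ _ := this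
    _ = _ := by ring

lemma G_ge (x : ℝ) (hx : 0 ≤ x) : x - x ^ 3 / 6 + x ^ 5 / 40 - x ^ 7 / 336 ≤ G x := by
  have := nonneg_of_deriv (f := fun x => G x - (x - x ^ 3 / 6 + x ^ 5 / 40 - x ^ 7 / 336))
    (f' := fun x => ga x - (1 - x ^ 2 / 2 + x ^ 4 / 8 - x ^ 6 / 48)) (by simp [G_zero])
    (fun y => by
      have := (G_hasDeriv y).sub ((((hasDerivAt_id y).sub ((hasDerivAt_pow 3 y).div_const 6)).add
        ((hasDerivAt_pow 5 y).div_const 40)).sub ((hasDerivAt_pow 7 y).div_const 336))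
      refine this.congr_deriv ?_
      norm_num; ring)
    (fun y _ => by have := ga_ge y; linarith) x hx
  linarith

lemma G_le (x : ℝ) (hx : 0 ≤ x) : G x ≤ x - x ^ 3 / 6 + x ^ 5 / 40 := by
  have := nonneg_of_deriv (f := fun x => x - x ^ 3 / 6 + x ^ 5 / 40 - G x)
    (f' := fun x => 1 - x ^ 2 / 2 + x ^ 4 / 8 - ga x) (by simp [G_zero])
    (fun y => by
      have := (((hasDerivAt_id y).sub ((hasDerivAt_pow 3 y).div_const 6)).add
        ((hasDerivAt_pow 5 y).div_const 40)).sub (G_hasDeriv y)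
      refine this.congr_deriv ?_
      norm_num; ring)
    (fun y _ => by have := ga_le y; linarith) x hx
  linarith

lemma G_le' (x : ℝ) (hx : 0 ≤ x) :
    G x ≤ x - x ^ 3 / 6 + x ^ 5 / 40 - x ^ 7 / 336 + x ^ 9 / 3456 := by
  have := nonneg_of_deriv
    (f := fun x => x - x ^ 3 / 6 + x ^ 5 / 40 - x ^ 7 / 336 + x ^ 9 / 3456 - G x)
    (f' := fun x => 1 - x ^ 2 / 2 + x ^ 4 / 8 - x ^ 6 / 48 + x ^ 8 / 384 - ga x) (by simp [G_zero])
    (fun y => by
      have := (((((hasDerivAt_id y).sub ((hasDerivAt_pow 3 y).div_const 6)).add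
        ((hasDerivAt_pow 5 y).div_const 40)).sub ((hasDerivAt_pow 7 y).div_const 336)).add
        ((hasDerivAt_pow 9 y).div_const 3456)).sub (G_hasDeriv y)
      refine this.congr_deriv ?_
      norm_num; ring)
    (fun y _ => by have := ga_le' y; linarith) x hx
  linarith

/-! ### Cosine against the Gaussian -/

lemma cos_le_ga {x : ℝ} (h0 : 0 ≤ x) (h1 : x ≤ 2) : cos x ≤ ga x := by
  have h2 := cos_le4 x h0
  have h3 := ga_ge x
  have h4 : 0 ≤ x ^ 4 * (4 - x ^ 2) := by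
    have : 0 ≤ 4 - x ^ 2 := by nlinarith
    positivity
  nlinarith

lemma negcos_le {s : ℝ} (h0 : 0 ≤ s) : -cos s ≤ 0.0273 * s ^ 4 := by
  rcases le_total s (π / 2) with h | h
  · have := cos_nonneg_of_neg_pi_div_two_le_of_le (by linarith [pi_pos]) h
    have : 0 ≤ 0.0273 * s ^ 4 := by positivity
    linarith
  · have h1 : -cos s = sin (s - π / 2) := by rw [sin_sub_pi_div_two]
    have h2 : sin (s - π / 2) ≤ s - π / 2 := sin_le (by linarith)
    have h3 := pi_gt_d4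
    have h4 : 0 ≤ (s ^ 2 - 4.377) ^ 2 := sq_nonneg _
    have h5 : 0 ≤ (s - 2.092) ^ 2 := sq_nonneg _
    rw [h1]
    nlinarith

lemma negsin_le {s : ℝ} (h0 : 0 ≤ s) : -sin s ≤ 0.0009 * s ^ 5 := by
  rcases le_total s π with h | h
  · have := sin_nonneg_of_nonneg_of_le_pi h0 h
    have : 0 ≤ 0.0009 * s ^ 5 := by positivity
    linarith
  · have h1 : -sin s = sin (s - π) := by rw [sin_sub_pi]
    have h2 : sin (s - π) ≤ s - π := sin_le (by linarith)
    have h3 := pi_gt_d4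
    have h4 : 3 ≤ s := by linarith
    rw [h1]
    have h5 : s - 3.1415 ≤ 0.0009 * s ^ 5 := by
      have h6 : 0 ≤ (s ^ 2 - 15) ^ 2 := sq_nonneg _
      have h7 : 0 ≤ (s - 3.86) ^ 2 := sq_nonneg _
      have h8 : s ^ 5 ≥ 30 * s ^ 3 - 225 * s := by nlinarith [mul_nonneg h0 h6]
      nlinarith [mul_nonneg h0 h7, mul_nonneg (mul_nonneg h0 h0) (sub_nonneg.2 h4)]
    linarith

/-- Truncated sine polynomial divided by the argument. -/
noncomputable def p5 (s : ℝ) : ℝ := 1 - s ^ 2 / 6 + s ^ 4 / 120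

lemma p5_pos (s : ℝ) : 0 < p5 s := by
  unfold p5
  nlinarith [sq_nonneg (s ^ 2 - 10)]

/-! ### The cotangent remainder -/

/-- The cotangent remainder. -/
noncomputable def rr (θ : ℝ) : ℝ := 1 / θ - cos θ / sin θ

/-- The weighted cotangent remainder. -/
noncomputable def kk (θ : ℝ) : ℝ := (1 - θ / π) * rr θ

lemma rr_ge {θ : ℝ} (h0 : 0 < θ) (h1 : θ ≤ π / 2) : θ / 3 ≤ rr θ := by
  have hs : 0 < sin θ := sin_pos_of_pos_of_lt_pi h0 (by linarith [pi_pos])
  have hπ := pi_lt_d4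
  have h2 := sin_ge3 θ h0.le
  have h3 := cos_le4 θ h0.le
  have hθ : θ ^ 2 ≤ 2.5 := by nlinarith
  have key : θ * cos θ ≤ sin θ * (1 - θ ^ 2 / 3) := by
    have h4 : 0 ≤ 1 - θ ^ 2 / 3 := by linarith
    have h5 := mul_le_mul_of_nonneg_right h2 h4
    have h6 := mul_le_mul_of_nonneg_left h3 h0.le
    have h7 : 0 ≤ θ ^ 5 := by positivity
    nlinarith
  unfold rr
  rw [div_sub_div _ _ h0.ne' hs.ne', le_div_iff₀ (by positivity)]
  nlinarith

lemma rr_le {θ : ℝ} (h0 : 0 < θ) (h1 : θ ≤ π / 2) : rr θ ≤ θ / 3 + 0.03 * θ ^ 3 := by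
  have hs : 0 < sin θ := sin_pos_of_pos_of_lt_pi h0 (by linarith [pi_pos])
  have hc : 0 ≤ cos θ := cos_nonneg_of_neg_pi_div_two_le_of_le (by linarith) h1
  have hπ := pi_lt_d4
  have h2 := sin_le5 θ h0.le
  have h3 := cos_ge6 θ h0.le
  have hθ : θ ^ 2 ≤ 2.4676 := by nlinarith
  have key : sin θ * (1 - θ ^ 2 / 3 - 0.03 * θ ^ 4) ≤ θ * cos θ := by
    rcases le_total (1 - θ ^ 2 / 3 - 0.03 * θ ^ 4) 0 with h | h
    · have := mul_nonpos_of_nonneg_of_nonpos hs.le h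
      have := mul_nonneg h0.le hc
      linarith
    · have h5 := mul_le_mul_of_nonneg_right h2 h
      have h6 := mul_le_mul_of_nonneg_left h3 h0.le
      have h7 : 0 ≤ θ ^ 5 * (7 / 900 - 13 / 3600 * θ ^ 2 + 1 / 4000 * θ ^ 4) := by
        have : 0 ≤ 7 / 900 - 13 / 3600 * θ ^ 2 + 1 / 4000 * θ ^ 4 := by nlinarith
        positivity
      nlinarith
  unfold rr
  rw [div_sub_div _ _ h0.ne' hs.ne', div_le_iff₀ (by positivity)]
  nlinarith

lemma rr_le' {θ : ℝ} (h0 : 0 < θ) (h1 : θ ≤ π / 2) : rr θ ≤ 0.4075 * θ := by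
  have h2 := rr_le h0 h1
  have hπ := pi_lt_d4
  have hθ : θ ^ 2 ≤ 2.4676 := by nlinarith
  nlinarith

/-- Polynomial bound for the weighted cotangent remainder. -/
noncomputable def kb (θ : ℝ) : ℝ := θ / 3 - 0.088 * θ ^ 2 + 0.0059 * θ ^ 3

lemma kb_nonneg {θ : ℝ} (h0 : 0 ≤ θ) : 0 ≤ kb θ := by
  unfold kb
  have : 0 ≤ 1 / 3 - 0.088 * θ + 0.0059 * θ ^ 2 := by nlinarith [sq_nonneg (θ - 7.4576)]
  nlinarith [mul_nonneg h0 this]

lemma one_sub_nonneg {θ : ℝ} (h1 : θ ≤ π / 2) : 1 / 2 ≤ 1 - θ / π := by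
  have hπ := pi_pos
  have : θ / π ≤ 1 / 2 := by rw [div_le_iff₀ hπ]; linarith
  linarith

lemma kk_ge {θ : ℝ} (h0 : 0 < θ) (h1 : θ ≤ π / 2) : (1 - θ / π) * (θ / 3) ≤ kk θ := by
  unfold kk
  have := one_sub_nonneg h1
  exact mul_le_mul_of_nonneg_left (rr_ge h0 h1) (by linarith)

lemma kk_nonneg {θ : ℝ} (h0 : 0 < θ) (h1 : θ ≤ π / 2) : 0 ≤ kk θ := by
  have := kk_ge h0 h1
  have := one_sub_nonneg h1
  have : 0 ≤ (1 - θ / π) * (θ / 3) := mul_nonneg (by linarith) (by positivity)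
  linarith

lemma kk_le {θ : ℝ} (h0 : 0 < θ) (h1 : θ ≤ π / 2) : kk θ ≤ kb θ := by
  have h2 := one_sub_nonneg h1
  have h3 := mul_le_mul_of_nonneg_left (rr_le h0 h1) (by linarith : 0 ≤ 1 - θ / π)
  unfold kk kb
  refine h3.trans ?_
  have hπ := pi_pos
  have hi1 : 0.3183 ≤ 1 / π := by
    rw [le_div_iff₀ hπ]
    have := pi_lt_d4
    linarith
  have hq : 0 ≤ θ ^ 2 * ((1 / π / 3 - 0.088) - 0.0241 * θ + 0.03 * (1 / π) * θ ^ 2) := by
    have : 0 ≤ (1 / π / 3 - 0.088) - 0.0241 * θ + 0.03 * (1 / π) * θ ^ 2 := by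
      have h4 : 0 ≤ (1 / π - 0.3183) * θ ^ 2 := mul_nonneg (by linarith) (sq_nonneg _)
      nlinarith [sq_nonneg (θ - 1.267)]
    positivity
  have e : θ / 3 - 0.088 * θ ^ 2 + 0.0059 * θ ^ 3 - (1 - θ / π) * (θ / 3 + 0.03 * θ ^ 3) =
      θ ^ 2 * ((1 / π / 3 - 0.088) - 0.0241 * θ + 0.03 * (1 / π) * θ ^ 2) := by
    field_simp
    ring
  linarith

/-- Kernel in terms of the remainder. -/
lemma P_eq {A x t : ℝ} (hA : A ≠ 0) (ht : t ≠ 0) :
    P A x t = sin (x * t) / t + A * (1 - A * t / π) * cos (x * t) - A * kk (A * t) * sin (x * t) := by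
  unfold P kk rr cw
  have hπ := pi_ne_zero
  field_simp
  ring

end BE
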