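import Pool.Agent.Lib.BE.Rad

/-!
# The Sperner small ball bound for signed sums
-/

set_option autoImplicit false
set_option linter.unusedSectionVars false

open Finset

namespace BE

variable {ι : Type*} [Fintype ι] [DecidableEq ι]

/-- Glue signs on `B` and signs off `B`. -/
def glue (B : Finset ι) (β : {i // i ∈ B} → Bool) (δ : {i // i ∉ B} → Bool) : ι → Bool :=
  fun i => if h : i ∈ B then β ⟨i, h⟩ else δ ⟨i, h⟩

/-- Glueing is an equivalence. -/
def glueEquiv (B : Finset ι) :
    (ι → Bool) ≃ ({i // i ∈ B} → Bool) × ({i // i ∉ B} → Bool) where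
  toFun ε := (fun i => ε i, fun i => ε i)
  invFun p := glue B p.1 p.2
  left_inv ε := by
    funext i
    unfold glue
    by_cases h : i ∈ B
    · simp [h]
    · simp [h]
  right_inv p := by
    refine Prod.ext ?_ ?_
    · funext i
      unfold glue
      simp [i.2]
    · funext i
      unfold glue
      simp [i.2]

lemma Sm_lt_of_lt (a : ι → ℝ) (s B : Finset ι) (hB : B ⊆ s) (x : ℝ) (hx : 0 ≤ x)
    (hb : ∀ i ∈ B, x < a i) (δ : {i // i ∉ B} → Bool) (β β' : {i // i ∈ B} → Bool)
    (hle : ∀ i, β i = true → β' i = true) (hne : β ≠ β') :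
    Sm a s (glue B β δ) + 2 * x < Sm a s (glue B β' δ) := by
  obtain ⟨j, hj⟩ : ∃ j, β j ≠ β' j := by
    by_contra h
    push Not at h
    exact hne (funext h)
  have hj1 : β j = false := by
    by_contra h
    have h1 : β j = true := by simpa using h
    exact hj (by rw [h1, hle j h1])
  have hj2 : β' j = true := by
    by_contra h
    have h1 : β' j = false := by simpa using h
    exact hj (by rw [h1, hj1])
  have h0 : ∀ i ∈ s, 0 ≤ (if glue B β' δ i then a i else -a i)
      - (if glue B β δ i then a i else -a i) := by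
    intro i _
    unfold glue
    by_cases h : i ∈ B
    · simp only [h, dif_pos]
      have hai := hb i h
      by_cases h1 : β ⟨i, h⟩ = true
      · rw [if_pos (hle _ h1), if_pos h1]; linarith
      · rw [if_neg h1]
        split_ifs <;> linarith
    · simp only [h, dif_neg, not_false_iff]
      linarith
  have h1 : (if glue B β' δ j then a j else -a j)
      - (if glue B β δ j then a j else -a j) = 2 * a j := by
    have e1 : glue B β' δ j = true := by
      unfold glue
      rw [dif_pos j.2]; exact hj2
    have e2 : glue B β δ j = false := by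
      unfold glue
      rw [dif_pos j.2]; exact hj1
    rw [e1, e2, if_pos rfl, if_neg (by simp)]
    ring
  have h2 := single_le_sum h0 (hB j.2)
  rw [h1, sum_sub_distrib] at h2
  have h3 := hb j j.2
  unfold Sm
  linarith

/-- Sperner small ball bound, after fixing the signs off `B`. -/
lemma card_fiber (a : ι → ℝ) (s B : Finset ι) (hB : B ⊆ s) (x : ℝ) (hx : 0 ≤ x)
    (hb : ∀ i ∈ B, x < a i) (δ : {i // i ∉ B} → Bool)
    [DecidablePred fun β : {i // i ∈ B} → Bool => |Sm a s (glue B β δ)| ≤ x] :
    (univ.filter fun β : {i // i ∈ B} → Bool => |Sm a s (glue B β δ)| ≤ x).card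
      ≤ B.card.choose (B.card / 2) := by
  set F : ({i // i ∈ B} → Bool) → Finset {i // i ∈ B} := fun β => univ.filter fun i => β i = true
    with hF
  have hinj : Function.Injective F := by
    intro β β' h
    funext i
    have h1 : i ∈ F β ↔ i ∈ F β' := by rw [h]
    simp only [hF, mem_filter, mem_univ, true_and] at h1
    exact Bool.eq_iff_iff.2 h1
  rw [← card_image_of_injective _ hinj]
  have hanti : IsAntichain (· ⊆ ·)
      (((univ.filter fun β : {i // i ∈ B} → Bool => |Sm a s (glue B β δ)| ≤ x).image F :
        Finset (Finset {i // i ∈ B})) : Set (Finset {i // i ∈ B})) := by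
    intro U hU V hV hUV hsub
    simp only [coe_image, coe_filter, Set.mem_image, Set.mem_ofPred_eq, mem_univ,
      true_and] at hU hV
    obtain ⟨β, hβ, rfl⟩ := hU
    obtain ⟨β', hβ', rfl⟩ := hV
    have hne : β ≠ β' := fun h => hUV (by rw [h])
    have hle : ∀ i, β i = true → β' i = true := by
      intro i hi
      have h1 : i ∈ F β := by simp only [hF, mem_filter, mem_univ, true_and]; exact hi
      have h2 := hsub h1
      simpa only [hF, mem_filter, mem_univ, true_and] using h2
    have h1 := Sm_lt_of_lt a s B hB x hx hb δ β β' hle hne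
    have h2 := (abs_le.1 hβ).1
    have h3 := (abs_le.1 hβ').2
    linarith
  have h := hanti.sperner
  simpa [Fintype.card_coe] using h

/-- **Sperner's small ball bound.**  If all the weights in `B` exceed `x ≥ 0`, then the signed sum
lies in `[-x, x]` with probability at most the largest binomial probability. -/
theorem smallball (a : ι → ℝ) (s B : Finset ι) (hB : B ⊆ s) (x : ℝ) (hx : 0 ≤ x)
    (hb : ∀ i ∈ B, x < a i) :
    Pr (fun ε => |Sm a s ε| ≤ x) ≤ (B.card.choose (B.card / 2) : ℝ) / 2 ^ B.card := by
  classical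
  rw [Pr_eq_card]
  have h1 : ((univ.filter fun ε : ι → Bool => |Sm a s ε| ≤ x).card : ℝ)
      = ∑ δ : {i // i ∉ B} → Bool,
        ((univ.filter fun β : {i // i ∈ B} → Bool => |Sm a s (glue B β δ)| ≤ x).card : ℝ) := by
    rw [← sum_boole]
    have h2 : ∑ ε : ι → Bool, (if |Sm a s ε| ≤ x then (1 : ℝ) else 0)
        = ∑ p : ({i // i ∈ B} → Bool) × ({i // i ∉ B} → Bool),
          (if |Sm a s (glue B p.1 p.2)| ≤ x then (1 : ℝ) else 0) := by
      rw [← Equiv.sum_comp (glueEquiv B).symm]
      rfl
    rw [h2, Fintype.sum_prod_type_right]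
    refine sum_congr rfl fun δ _ => ?_
    rw [← sum_boole]
  rw [h1]
  have h2 : ∑ δ : {i // i ∉ B} → Bool,
        ((univ.filter fun β : {i // i ∈ B} → Bool => |Sm a s (glue B β δ)| ≤ x).card : ℝ)
      ≤ ∑ _δ : {i // i ∉ B} → Bool, (B.card.choose (B.card / 2) : ℝ) :=
    sum_le_sum fun δ _ => by exact_mod_cast card_fiber a s B hB x hx hb δ
  have h3 : (Fintype.card {i // i ∉ B}) + B.card = Fintype.card ι := by
    have h4 := Fintype.card_subtype_compl (fun i => i ∈ B)
    have h5 : Fintype.card {i // i ∈ B} = B.card := Fintype.card_coe B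
    have h6 : B.card ≤ Fintype.card ι := card_le_univ B
    omega
  rw [sum_const, card_univ, card_signs, nsmul_eq_mul] at h2
  rw [div_le_div_iff₀ (by positivity) (by positivity)]
  calc _ ≤ ((2 ^ Fintype.card {i // i ∉ B} : ℕ) : ℝ) * (B.card.choose (B.card / 2) : ℝ)
        * 2 ^ B.card := mul_le_mul_of_nonneg_right h2 (by positivity)
    _ = (B.card.choose (B.card / 2) : ℝ) * 2 ^ Fintype.card ι := by
        rw [← h3, pow_add]
        push_cast
        ring

end BE
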