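import Mathlib
import Pool.Agent.Lib.BE.Kernel
import Pool.Agent.Lib.BE.Sperner

/-!
# Moment bounds for signed sums, Gaussian constants
-/

set_option autoImplicit false
set_option linter.unusedSectionVars false

open MeasureTheory Set Filter Topology Real

namespace BE

/-! ### Gaussian constants -/

lemma rho_gt : 1.25331 < rho := by
  unfold rho
  rw [Real.lt_sqrt (by norm_num)]
  have := Real.pi_gt_d6
  norm_num at this ⊢
  linarith

lemma rho_lt : rho < 1.25332 := by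
  unfold rho
  rw [Real.sqrt_lt' (by norm_num)]
  have := Real.pi_lt_d6
  norm_num at this ⊢
  linarith

lemma D_neg (x : ℝ) : D (-x) = -D x := by
  unfold D
  rw [G_neg]
  ring

lemma G_le_rho (x : ℝ) : G x ≤ rho := by
  rcases le_total x 0 with hx | hx
  · have h1 := G_mono hx
    rw [G_zero] at h1
    exact h1.trans rho_pos.le
  · have h1 : G x = ∫ t in Set.Ioc 0 x, ga t := by
      unfold G
      rw [intervalIntegral.integral_of_le hx]
    have h2 : ∫ t in Set.Ioc 0 x, ga t ≤ ∫ t in Set.Ioi 0, ga t :=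
      setIntegral_mono_set int_ga (Eventually.of_forall fun t => (ga_pos t).le)
        (Set.Ioc_subset_Ioi_self).eventuallyLE
    have h3 := mo_zero
    unfold mo at h3
    simp only [pow_zero, one_mul] at h3
    rw [h1]
    exact h2.trans h3.le

/-- Increments of `G` decrease along the positive half line. -/
lemma G_incr_anti {x y u : ℝ} (hx : 0 ≤ x) (hxy : x ≤ y) (hu : 0 ≤ u) :
    G (y + u) - G y ≤ G (x + u) - G x := by
  have h := nonneg_of_deriv (f := fun u => (G (x + u) - G x) - (G (y + u) - G y))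
    (f' := fun u => ga (x + u) - ga (y + u)) (by simp)
    (fun v => by
      have h1 : HasDerivAt (fun u => G (x + u)) (ga (x + v)) v := by
        have := (G_hasDeriv (x + v)).comp_const_add x v
        exact this
      have h2 : HasDerivAt (fun u => G (y + u)) (ga (y + v)) v := by
        have := (G_hasDeriv (y + v)).comp_const_add y v
        exact this
      exact (h1.sub_const _).sub (h2.sub_const _))
    (fun v hv => by
      have := ga_anti (s := x + v) (t := y + v) (by positivity) (by linarith)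
      linarith) u hu
  linarith

/-- Mean value lower bound for `G`. -/
lemma G_incr_ge {x u : ℝ} (hx : 0 ≤ x) (hu : 0 ≤ u) {U : ℝ} (hU : u ≤ U) :
    u * ga (x + U) ≤ G (x + u) - G x := by
  have h : u * ga (x + U) ≤ ∫ t in (x)..(x + u), ga t := by
    have h1 : ∫ _t in (x)..(x + u), ga (x + U) = u * ga (x + U) := by
      rw [intervalIntegral.integral_const]
      simp
    rw [← h1]
    apply intervalIntegral.integral_mono_on (by linarith) (by simp)
      (ga_continuous.intervalIntegrable _ _)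
    intro t ht
    exact ga_anti (by linarith [ht.1]) (by linarith [ht.2])
  have h2 : G (x + u) - G x = ∫ t in (x)..(x + u), ga t := by
    unfold G
    rw [intervalIntegral.integral_interval_sub_left (ga_continuous.intervalIntegrable _ _)
      (ga_continuous.intervalIntegrable _ _)]
  rw [h2]
  exact h

/-! ### Moments -/

variable {ι : Type*} [Fintype ι] [DecidableEq ι]

/-- Splitting off one sign. -/
lemma Pr_split (a : ι → ℝ) {s : Finset ι} {i : ι} (hi : i ∈ s) (q : ℝ → Prop) :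
    Pr (fun ε => q (Sm a s ε)) =
      (Pr (fun ε => q (a i + Sm a (s.erase i) ε)) + Pr (fun ε => q (-a i + Sm a (s.erase i) ε))) / 2 := by
  have h := Pr_insert a (s := s.erase i) (Finset.notMem_erase i s) q
  rw [Finset.insert_erase hi] at h
  exact h

lemma Pr_sum_le_one {p q : (ι → Bool) → Prop} (h : ∀ ε, p ε → ¬q ε) : Pr p + Pr q ≤ 1 := by
  rw [← Pr_or_disj h]
  exact Pr_le_one _

lemma Pr_symm (a : ι → ℝ) (s : Finset ι) (x : ℝ) :
    Pr (fun ε => x ≤ Sm a s ε) = Pr (fun ε => Sm a s ε ≤ -x) := by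
  rw [← Pr_neg_sum a s (fun y => y ≤ -x)]
  exact Pr_congr fun ε => by constructor <;> intro h <;> linarith

lemma Pr_symm' (a : ι → ℝ) (s : Finset ι) (x : ℝ) :
    Pr (fun ε => x < Sm a s ε) = Pr (fun ε => Sm a s ε < -x) := by
  rw [← Pr_neg_sum a s (fun y => y < -x)]
  exact Pr_congr fun ε => by constructor <;> intro h <;> linarith

/-- E0 -/
lemma Pr_neg_half (a : ι → ℝ) (s : Finset ι) {x : ℝ} (hx : x < 0) :
    Pr (fun ε => Sm a s ε ≤ x) ≤ 1 / 2 := by
  have h1 := Pr_symm a s (-x)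
  rw [neg_neg] at h1
  have h2 : Pr (fun ε => Sm a s ε ≤ x) + Pr (fun ε => -x ≤ Sm a s ε) ≤ 1 :=
    Pr_sum_le_one fun ε h => by
      intro h'
      linarith
  linarith

lemma Pr_pos_half (a : ι → ℝ) (s : Finset ι) : 1 / 2 ≤ Pr (fun ε => 0 ≤ Sm a s ε) := by
  have h1 := Pr_symm' a s 0
  rw [neg_zero] at h1
  have h2 : Pr (fun ε => 0 < Sm a s ε) + Pr (fun ε => Sm a s ε < 0) ≤ 1 :=
    Pr_sum_le_one fun ε h => by
      intro h'
      linarith
  have h3 : Pr (fun ε => ¬ (Sm a s ε < 0)) = 1 - Pr (fun ε => Sm a s ε < 0) := Pr_compl _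
  have h4 : Pr (fun ε => ¬ (Sm a s ε < 0)) = Pr (fun ε => 0 ≤ Sm a s ε) :=
    Pr_congr fun ε => not_lt
  linarith

/-- Chebyshev, one sided by symmetry. -/
lemma cheb2 (a : ι → ℝ) (s : Finset ι) {u : ℝ} (hu : 0 < u) :
    Pr (fun ε => Sm a s ε ≤ -u) ≤ (∑ i ∈ s, a i ^ 2) / (2 * u ^ 2) := by
  have h1 : Pr (fun ε => Sm a s ε ≤ -u) + Pr (fun ε => u ≤ Sm a s ε) ≤ (∑ i ∈ s, a i ^ 2) / u ^ 2 := by
    rw [← Ex_sq a s]
    unfold Pr
    rw [← Ex_add]
    have h2 : Ex (fun ε => Sm a s ε ^ 2) / u ^ 2 = Ex (fun ε => Sm a s ε ^ 2 * (1 / u ^ 2)) := by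
      rw [Ex_mul_const]; ring
    rw [h2]
    refine Ex_mono fun ε => ?_
    have hge : 0 ≤ Sm a s ε ^ 2 * (1 / u ^ 2) := by positivity
    have hbig : u ^ 2 ≤ Sm a s ε ^ 2 → 1 ≤ Sm a s ε ^ 2 * (1 / u ^ 2) := by
      intro h
      rw [mul_one_div, le_div_iff₀ (by positivity)]
      linarith
    by_cases h3 : Sm a s ε ≤ -u
    · have h4 : ¬ (u ≤ Sm a s ε) := by linarith
      rw [ind_of h3, ind_not h4]
      have := hbig (by nlinarith)
      linarith
    · rw [ind_not h3]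
      by_cases h4 : u ≤ Sm a s ε
      · rw [ind_of h4]
        have := hbig (by nlinarith)
        linarith
      · rw [ind_not h4]
        linarith
  rw [Pr_symm a s u] at h1
  have h2 : (∑ i ∈ s, a i ^ 2) / (2 * u ^ 2) = ((∑ i ∈ s, a i ^ 2) / u ^ 2) / 2 := by
    field_simp
  rw [h2]
  linarith

/-- Fourth moment Chebyshev. -/
lemma cheb4 (a : ι → ℝ) (s : Finset ι) {u : ℝ} (hu : 0 < u) :
    Pr (fun ε => Sm a s ε ≤ -u) ≤ 3 * (∑ i ∈ s, a i ^ 2) ^ 2 / (2 * u ^ 4) := by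
  have h1 : Pr (fun ε => Sm a s ε ≤ -u) + Pr (fun ε => u ≤ Sm a s ε) ≤
      3 * (∑ i ∈ s, a i ^ 2) ^ 2 / u ^ 4 := by
    refine le_trans ?_ (div_le_div_of_nonneg_right (Ex_four a s) (by positivity))
    unfold Pr
    rw [← Ex_add]
    have h2 : Ex (fun ε => Sm a s ε ^ 4) / u ^ 4 = Ex (fun ε => Sm a s ε ^ 4 * (1 / u ^ 4)) := by
      rw [Ex_mul_const]; ring
    rw [h2]
    refine Ex_mono fun ε => ?_
    have hge : 0 ≤ Sm a s ε ^ 4 * (1 / u ^ 4) := by positivity
    have hbig : u ^ 2 ≤ Sm a s ε ^ 2 → 1 ≤ Sm a s ε ^ 4 * (1 / u ^ 4) := by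
      intro h
      rw [mul_one_div, le_div_iff₀ (by positivity)]
      have := pow_le_pow_left₀ (by positivity) h 2
      calc 1 * u ^ 4 = (u ^ 2) ^ 2 := by ring
        _ ≤ _ := this
        _ = _ := by ring
    by_cases h3 : Sm a s ε ≤ -u
    · have h4 : ¬ (u ≤ Sm a s ε) := by linarith
      rw [ind_of h3, ind_not h4]
      have := hbig (by nlinarith)
      linarith
    · rw [ind_not h3]
      by_cases h4 : u ≤ Sm a s ε
      · rw [ind_of h4]
        have := hbig (by nlinarith)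
        linarith
      · rw [ind_not h4]
        linarith
  rw [Pr_symm a s u] at h1
  have h2 : 3 * (∑ i ∈ s, a i ^ 2) ^ 2 / (2 * u ^ 4) = (3 * (∑ i ∈ s, a i ^ 2) ^ 2 / u ^ 4) / 2 := by
    field_simp
  rw [h2]
  linarith

/-- Paley-Zygmund, one sided by symmetry, with a free parameter. -/
lemma pz (a : ι → ℝ) (s : Finset ι) {u c : ℝ} (hu : 0 ≤ u) (hc : 0 ≤ c) :
    c * (∑ i ∈ s, a i ^ 2 - u ^ 2) - 3 / 2 * c ^ 2 * (∑ i ∈ s, a i ^ 2) ^ 2 ≤
      Pr (fun ε => u < Sm a s ε) := by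
  have h1 : 2 * c * (∑ i ∈ s, a i ^ 2 - u ^ 2) - 3 * c ^ 2 * (∑ i ∈ s, a i ^ 2) ^ 2 ≤
      Pr (fun ε => u < Sm a s ε) + Pr (fun ε => Sm a s ε < -u) := by
    have h2 : Ex (fun ε => 2 * c * Sm a s ε ^ 2 - c ^ 2 * Sm a s ε ^ 4 - 2 * c * u ^ 2) ≤
        Pr (fun ε => u < Sm a s ε) + Pr (fun ε => Sm a s ε < -u) := by
      unfold Pr
      rw [← Ex_add]
      refine Ex_mono fun ε => ?_
      have h3 : 2 * c * Sm a s ε ^ 2 - c ^ 2 * Sm a s ε ^ 4 - 2 * c * u ^ 2 ≤ 1 := by
        have e1 : 0 ≤ (1 - c * Sm a s ε ^ 2) ^ 2 := sq_nonneg _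
        have e2 : 0 ≤ 2 * c * u ^ 2 := by positivity
        have e3 : (1 - c * Sm a s ε ^ 2) ^ 2 =
          1 - 2 * c * Sm a s ε ^ 2 + c ^ 2 * Sm a s ε ^ 4 := by ring
        linarith
      have h4 : Sm a s ε ^ 2 ≤ u ^ 2 →
          2 * c * Sm a s ε ^ 2 - c ^ 2 * Sm a s ε ^ 4 - 2 * c * u ^ 2 ≤ 0 := by
        intro h
        have e1 : 0 ≤ c ^ 2 * Sm a s ε ^ 4 := by positivity
        have e2 := mul_le_mul_of_nonneg_left h (by positivity : 0 ≤ 2 * c)
        linarith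
      by_cases h5 : u < Sm a s ε
      · have h6 : ¬ (Sm a s ε < -u) := by linarith
        rw [ind_of h5, ind_not h6]
        linarith
      · rw [ind_not h5]
        by_cases h6 : Sm a s ε < -u
        · rw [ind_of h6]
          linarith
        · rw [ind_not h6]
          have := h4 (sq_le_sq' (by linarith) (by linarith))
          linarith
    rw [Ex_sub, Ex_sub, Ex_const, Ex_const_mul, Ex_const_mul, Ex_sq] at h2
    have h3 := mul_le_mul_of_nonneg_left (Ex_four a s) (sq_nonneg c)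
    linarith
  rw [← Pr_symm' a s u] at h1
  linarith

/-- Two-sided form of the distribution function at a nonnegative point. -/
lemma Pr_le_eq (a : ι → ℝ) (s : Finset ι) {x : ℝ} (hx : 0 ≤ x) :
    Pr (fun ε => Sm a s ε ≤ x) = 1 / 2 + Pr (fun ε => |Sm a s ε| ≤ x) / 2 := by
  have h1 : Pr (fun ε => Sm a s ε < -x ∨ |Sm a s ε| ≤ x) =
      Pr (fun ε => Sm a s ε < -x) + Pr (fun ε => |Sm a s ε| ≤ x) :=
    Pr_or_disj fun ε h h' => by
      have := (abs_le.1 h').1
      linarith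
  have h2 : Pr (fun ε => Sm a s ε < -x ∨ |Sm a s ε| ≤ x) = Pr (fun ε => Sm a s ε ≤ x) := by
    refine Pr_congr fun ε => ?_
    rw [abs_le]
    constructor
    · rintro (h | h)
      · linarith
      · exact h.2
    · intro h
      by_cases h3 : Sm a s ε < -x
      · exact Or.inl h3
      · exact Or.inr ⟨not_lt.1 h3, h⟩
  have h3 := Pr_symm' a s x
  have h4 : Pr (fun ε => ¬ (Sm a s ε ≤ x)) = 1 - Pr (fun ε => Sm a s ε ≤ x) := Pr_compl _
  have h5 : Pr (fun ε => ¬ (Sm a s ε ≤ x)) = Pr (fun ε => x < Sm a s ε) :=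
    Pr_congr fun ε => not_le
  linarith

/-- The variance of the rest. -/
lemma sum_erase_sq (a : ι → ℝ) {s : Finset ι} {i : ι} (hi : i ∈ s) :
    ∑ j ∈ s.erase i, a j ^ 2 = ∑ j ∈ s, a j ^ 2 - a i ^ 2 := by
  rw [← Finset.sum_erase_add _ _ hi]
  ring

/-- E3 -/
lemma pos_half {A : ℝ} (a : ι → ℝ) (s : Finset ι) {i0 : ι} (hi0 : i0 ∈ s) (hi : a i0 = A)
    {x : ℝ} (hxA : x < A) : Pr (fun ε => Sm a s ε ≤ x) ≤ 3 / 4 := by
  have h1 := Pr_split a hi0 (fun y => y ≤ x)
  rw [h1]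
  have h2 : Pr (fun ε => -a i0 + Sm a (s.erase i0) ε ≤ x) ≤ 1 := Pr_le_one _
  have h3 : Pr (fun ε => a i0 + Sm a (s.erase i0) ε ≤ x) ≤
      Pr (fun ε => Sm a (s.erase i0) ε ≤ x - A) := Pr_mono fun ε h => by
    rw [hi] at h
    linarith
  have h4 := Pr_neg_half a (s.erase i0) (x := x - A) (by linarith)
  linarith

end BE
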