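import Mathlib
import Pool.Agent.Lib.BE.Moments

/-!
# Passage from the one-sided bound to the frozen statement
-/

set_option autoImplicit false
set_option linter.unusedSectionVars false
set_option linter.unusedVariables false

open Set Real MeasureTheory ProbabilityTheory

namespace BE

lemma pdf_eq (t : ℝ) : gaussianPDFReal 0 1 t = ga t / (2 * rho) := by
  unfold gaussianPDFReal ga
  have h1 : (√(2 * π * ((1 : NNReal) : ℝ)))⁻¹ = 1 / (2 * rho) := by
    rw [NNReal.coe_one, mul_one, inv_eq_one_div]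
    congr 1
    have h2 : 2 * rho = √(2 ^ 2 * (π / 2)) := by
      rw [Real.sqrt_mul (by norm_num), Real.sqrt_sq (by norm_num)]
      rfl
    rw [h2]
    congr 1
    ring
  rw [h1, NNReal.coe_one, mul_one, sub_zero]
  ring

lemma int_ga_univ : Integrable ga := by
  have h := integrable_exp_neg_mul_sq (b := 1 / 2) (by norm_num)
  refine h.congr (Filter.Eventually.of_forall fun t => ?_)
  rw [ga_eq]
  
lemma int_ga_Iic_zero : ∫ t in Iic (0 : ℝ), ga t = rho := by
  have h1 := integral_comp_neg_Iic (0 : ℝ) ga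
  simp only [ga_neg, neg_zero] at h1
  have h3 := mo_zero
  unfold mo at h3
  simp only [pow_zero, one_mul] at h3
  rw [h1, h3]

lemma gauss_Iic (x : ℝ) : ((gaussianReal 0 1) (Iic x)).toReal = 1 / 2 + D x := by
  rw [gaussianReal_apply_eq_integral 0 one_ne_zero]
  rw [ENNReal.toReal_ofReal (by
    apply integral_nonneg
    intro t
    exact gaussianPDFReal_nonneg 0 1 t)]
  simp only [pdf_eq]
  rw [integral_div]
  have h1 := intervalIntegral.integral_Iic_sub_Iic (μ := volume) (f := ga) (a := 0) (b := x)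
    int_ga_univ.integrableOn int_ga_univ.integrableOn
  rw [int_ga_Iic_zero] at h1
  have h2 : ∫ t in Iic x, ga t = rho + G x := by
    unfold G
    linarith
  rw [h2]
  unfold D
  have := rho_pos
  field_simp

lemma gauss_Ioo {A : ℝ} (hA : 0 < A) : ((gaussianReal 0 1) (Ioo 0 A)).toReal = D A := by
  rw [gaussianReal_apply_eq_integral 0 one_ne_zero]
  rw [ENNReal.toReal_ofReal (by
    apply integral_nonneg
    intro t
    exact gaussianPDFReal_nonneg 0 1 t)]
  simp only [pdf_eq]
  rw [integral_div]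
  unfold D G
  rw [intervalIntegral.integral_of_le hA.le, integral_Ioc_eq_integral_Ioo]

/-- Z: the frozen statement from the one-sided bound. -/
theorem final_of_bound (n : ℕ) (a : Fin (n + 1) → ℝ) (ha : 0 < a 0)
    (hU : ∀ x : ℝ, Pr (fun ε => Sm a Finset.univ ε ≤ x) ≤ 1 / 2 + D x + D (a 0)) (x : ℝ) :
    |((Finset.univ.filter
              (fun ε : Fin (n + 1) → Bool =>
                ∑ i, (if ε i then a i else -a i) ≤ x)).card : ℝ) / 2 ^ (n + 1)
          - ((ProbabilityTheory.gaussianReal 0 1) (Set.Iic x)).toReal|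
        ≤ ((ProbabilityTheory.gaussianReal 0 1) (Set.Ioo 0 (a 0))).toReal := by
  have h1 : ((Finset.univ.filter
              (fun ε : Fin (n + 1) → Bool =>
                ∑ i, (if ε i then a i else -a i) ≤ x)).card : ℝ) / 2 ^ (n + 1) =
      Pr (fun ε => Sm a Finset.univ ε ≤ x) := by
    have h2 := Pr_eq_card (fun ε : Fin (n + 1) → Bool => ∑ i, (if ε i then a i else -a i) ≤ x)
    rw [Fintype.card_fin] at h2
    rw [← h2]
    rfl
  rw [h1, gauss_Iic, gauss_Ioo ha, abs_le]
  constructor
  · have h2 := hU (-x)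
    rw [D_neg] at h2
    have h3 := Pr_symm' a Finset.univ x
    have h4 : Pr (fun ε => ¬ (Sm a Finset.univ ε ≤ x)) = 1 - Pr (fun ε => Sm a Finset.univ ε ≤ x) :=
      Pr_compl _
    have h5 : Pr (fun ε => ¬ (Sm a Finset.univ ε ≤ x)) = Pr (fun ε => x < Sm a Finset.univ ε) :=
      Pr_congr fun ε => not_le
    have h6 : Pr (fun ε => Sm a Finset.univ ε < -x) ≤ Pr (fun ε => Sm a Finset.univ ε ≤ -x) :=
      Pr_mono fun ε h => le_of_lt h
    linarith
  · have h2 := hU x
    linarith

end BE
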