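import Mathlib

/-!
# A sharp bound for the largest binomial coefficient
-/

set_option autoImplicit false

open Filter Topology

namespace BE

/-- The central binomial probability. -/
noncomputable def qk (k : ℕ) : ℝ := ((2 * k).choose k : ℝ) / 4 ^ k

lemma qk_zero : qk 0 = 1 := by
  unfold qk; simp

lemma qk_pos (k : ℕ) : 0 < qk k := by
  unfold qk
  have : 0 < (2 * k).choose k := Nat.choose_pos (by omega)
  positivity

lemma qk_succ (k : ℕ) : qk (k + 1) * (2 * k + 2) = qk k * (2 * k + 1) := by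
  unfold qk
  have h := Nat.succ_mul_centralBinom_succ k
  unfold Nat.centralBinom at h
  have h' : ((k : ℝ) + 1) * ((2 * (k + 1)).choose (k + 1) : ℝ)
      = 2 * (2 * k + 1) * ((2 * k).choose k : ℝ) := by exact_mod_cast h
  rw [div_mul_eq_mul_div, div_mul_eq_mul_div, div_eq_div_iff (by positivity) (by positivity),
    pow_succ]
  linear_combination 2 * 4 ^ k * h'

lemma qk_sq_W (k : ℕ) : qk k ^ 2 * (2 * k + 1) * Real.Wallis.W k = 1 := by
  induction k with
  | zero => simp [qk_zero, Real.Wallis.W]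
  | succ k ih =>
    rw [Real.Wallis.W_succ]
    have h := qk_succ k
    have h1 : qk (k + 1) = qk k * (2 * k + 1) / (2 * k + 2) := by
      rw [eq_div_iff (by positivity)]; exact h
    rw [h1]
    push_cast
    have hk : (0 : ℝ) ≤ k := Nat.cast_nonneg k
    have e : (qk k * (2 * k + 1) / (2 * k + 2)) ^ 2 * (2 * (k + 1) + 1) *
        (Real.Wallis.W k * ((2 * k + 2) / (2 * k + 1) * ((2 * k + 2) / (2 * k + 3))))
        = qk k ^ 2 * (2 * k + 1) * Real.Wallis.W k := by
      field_simp
      ring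
    rw [e, ih]

/-- The normalised square. -/
noncomputable def bk (k : ℕ) : ℝ := qk k ^ 2 * (k + 1 / 4)

lemma bk_mono : Monotone bk := by
  refine monotone_nat_of_le_succ fun k => ?_
  unfold bk
  have h1 : qk (k + 1) = qk k * (2 * k + 1) / (2 * k + 2) := by
    rw [eq_div_iff (by positivity)]; exact qk_succ k
  rw [h1]
  have hk : (0 : ℝ) ≤ k := Nat.cast_nonneg k
  have e : (qk k * (2 * k + 1) / (2 * k + 2)) ^ 2 * (((k + 1 : ℕ) : ℝ) + 1 / 4)
      = qk k ^ 2 * ((2 * k + 1) ^ 2 * (k + 5 / 4) / (2 * k + 2) ^ 2) := by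
    push_cast
    field_simp
    ring
  rw [e]
  refine mul_le_mul_of_nonneg_left ?_ (sq_nonneg _)
  rw [le_div_iff₀ (by positivity)]
  nlinarith

lemma bk_tendsto : Tendsto bk atTop (𝓝 (1 / Real.pi)) := by
  have h1 : ∀ k, bk k = ((k : ℝ) + 1 / 4) / (2 * k + 1) / Real.Wallis.W k := by
    intro k
    have h := qk_sq_W k
    have hW := Real.Wallis.W_pos k
    unfold bk
    have hk : (0 : ℝ) ≤ k := Nat.cast_nonneg k
    have h2 : qk k ^ 2 = 1 / ((2 * k + 1) * Real.Wallis.W k) := by
      rw [eq_div_iff (by positivity)]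
      linarith
    rw [h2]
    field_simp
  have h2 : Tendsto (fun k : ℕ => ((k : ℝ) + 1 / 4) / (2 * k + 1)) atTop (𝓝 (1 / 2)) := by
    have e : ∀ k : ℕ, ((k : ℝ) + 1 / 4) / (2 * k + 1) = 1 / 2 - 1 / 8 * (1 / ((k : ℝ) + 1 / 2)) := by
      intro k
      have hk : (0 : ℝ) ≤ k := Nat.cast_nonneg k
      field_simp
      ring
    simp only [e]
    have h3 : Tendsto (fun k : ℕ => 1 / ((k : ℝ) + 1 / 2)) atTop (𝓝 0) := by
      simp only [one_div]
      exact tendsto_inv_atTop_zero.comp
        (tendsto_atTop_add_const_right _ _ tendsto_natCast_atTop_atTop)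
    have h5 := (tendsto_const_nhds (x := (1 : ℝ) / 2)).sub (h3.const_mul (1 / 8))
    rw [mul_zero, sub_zero] at h5
    exact h5
  have h3 : Tendsto Real.Wallis.W atTop (𝓝 (Real.pi / 2)) := Real.Wallis.tendsto_W_nhds_pi_div_two
  have h4 := h2.div h3 (by positivity)
  have e : (1 : ℝ) / 2 / (Real.pi / 2) = 1 / Real.pi := by
    field_simp
  rw [e] at h4
  exact h4.congr fun k => (h1 k).symm

lemma qk_le (k : ℕ) : qk k ≤ Real.sqrt (1 / Real.pi) / Real.sqrt (k + 1 / 4) := by
  have h : bk k ≤ 1 / Real.pi := bk_mono.ge_of_tendsto bk_tendsto k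
  unfold bk at h
  have hk : (0 : ℝ) < k + 1 / 4 := by positivity
  rw [← Real.sqrt_div (by positivity)]
  apply Real.le_sqrt_of_sq_le
  rw [le_div_iff₀ hk]
  exact h

/-- The largest binomial probability. -/
theorem choose_bound (m : ℕ) :
    (m.choose (m / 2) : ℝ) / 2 ^ m ≤ Real.sqrt (2 / Real.pi) / Real.sqrt (m + 1 / 2) := by
  have key : ∀ k : ℕ, Real.sqrt (1 / Real.pi) / Real.sqrt (k + 1 / 4)
      = Real.sqrt (2 / Real.pi) / Real.sqrt (((2 * k : ℕ) : ℝ) + 1 / 2) := by
    intro k
    rw [← Real.sqrt_div (by positivity), ← Real.sqrt_div (by positivity)]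
    congr 1
    push_cast
    field_simp
    ring
  rcases Nat.even_or_odd' m with ⟨k, rfl | rfl⟩
  · have h := qk_le k
    rw [key k] at h
    have e : (((2 * k).choose (2 * k / 2) : ℕ) : ℝ) / 2 ^ (2 * k) = qk k := by
      unfold qk
      rw [pow_mul]
      norm_num
    rw [e]
    exact h
  · have h := qk_le (k + 1)
    rw [key (k + 1)] at h
    have e : (((2 * k + 1).choose ((2 * k + 1) / 2) : ℕ) : ℝ) / 2 ^ (2 * k + 1) = qk (k + 1) := by
      unfold qk
      have h1 : (2 * k + 1) / 2 = k := by omega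
      rw [h1]
      have h2 : (2 * (k + 1)).choose (k + 1) = 2 * (2 * k + 1).choose k := by
        have h3 : 2 * (k + 1) = (2 * k + 1) + 1 := by ring
        rw [h3, Nat.choose_succ_succ]
        have h4 : (2 * k + 1).choose (k + 1) = (2 * k + 1).choose k :=
          Nat.choose_symm_of_eq_add (by omega)
        rw [h4]; ring
      rw [h2]
      push_cast
      rw [pow_succ, pow_mul, pow_succ]
      field_simp
      ring
    rw [e]
    refine h.trans ?_
    refine div_le_div_of_nonneg_left (by positivity) (by positivity) ?_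
    apply Real.sqrt_le_sqrt
    push_cast
    linarith

end BE
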