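import Mathlib

set_option autoImplicit false

namespace BE

lemma pc1 {u : ℝ} (h1 : 0 ≤ u) (h2 : u ≤ 19/40) : 0 ≤ 0.626655 * ((u + 2 * 0.46) ^ 2 - (1 - 0.46 ^ 2)) - (u + 2 * 0.46) ^ 2 *
      ((0.46 + u) - (0.46 + u) ^ 3 / 6 + (0.46 + u) ^ 5 / 40 - (0.46 + u) ^ 7 / 336 + (0.46 + u) ^ 9 / 3456 - (0.46 - 0.46 ^ 3 / 6 + 0.46 ^ 5 / 40 - 0.46 ^ 7 / 336)) := by
  obtain ⟨p, hp⟩ : ∃ p, p = u - 0 := ⟨_, rfl⟩
  obtain ⟨q, hq⟩ : ∃ q, q = 19/40 - u := ⟨_, rfl⟩
  have hp0 : 0 ≤ p := by rw [hp]; linarith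
  have hq0 : 0 ≤ q := by rw [hq]; linarith
  have key : 0.626655 * ((u + 2 * 0.46) ^ 2 - (1 - 0.46 ^ 2)) - (u + 2 * 0.46) ^ 2 *
      ((0.46 + u) - (0.46 + u) ^ 3 / 6 + (0.46 + u) ^ 5 / 40 - (0.46 + u) ^ 7 / 336 + (0.46 + u) ^ 9 / 3456 - (0.46 - 0.46 ^ 3 / 6 + 0.46 ^ 5 / 40 - 0.46 ^ 7 / 336)) =
      (20097753743719410705760256/153576024914644189453125)*q^11
      + (35992939628333934985805824/17064002768293798828125)*p^1*q^10
      + (15018557078503023380584448/1137600184552919921875)*p^2*q^9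
      + (464114261248415198298400256/10238401660976279296875)*p^3*q^8
      + (110773631136603328408652288/1137600184552919921875)*p^4*q^7
      + (789714086968221807998628736/5688000922764599609375)*p^5*q^6
      + (6875720919236297503854164624/51192008304881396484375)*p^6*q^5
      + (697837866286369078252679916/7963201291870439453125)*p^7*q^4
      + (295741062178697457865247588/7963201291870439453125)*p^8*q^3
      + (4009660790296207242962278369/430012869761003730468750)*p^9*q^2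
      + (4175296727964042338964159451/3822336620097810937500000)*p^10*q^1
      + (75888555531283171382224713/5096448826797081250000000)*p^11 := by
    rw [hp, hq]; ring
  rw [key]
  positivity

lemma pc2 {u : ℝ} (h1 : 0 ≤ u) (h2 : u ≤ 51/100) : 0 ≤ 0.626655 * ((u + 2 * 0.475) ^ 2 - (1 - 0.475 ^ 2)) - (u + 2 * 0.475) ^ 2 *
      ((0.475 + u) - (0.475 + u) ^ 3 / 6 + (0.475 + u) ^ 5 / 40 - (0.475 - 0.475 ^ 3 / 6 + 0.475 ^ 5 / 40 - 0.475 ^ 7 / 336)) := by
  obtain ⟨p, hp⟩ : ∃ p, p = u - 0 := ⟨_, rfl⟩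
  obtain ⟨q, hq⟩ : ∃ q, q = 51/100 - u := ⟨_, rfl⟩
  have hp0 : 0 ≤ p := by rw [hp]; linarith
  have hq0 : 0 ≤ q := by rw [hq]; linarith
  have key : 0.626655 * ((u + 2 * 0.475) ^ 2 - (1 - 0.475 ^ 2)) - (u + 2 * 0.475) ^ 2 *
      ((0.475 + u) - (0.475 + u) ^ 3 / 6 + (0.475 + u) ^ 5 / 40 - (0.475 - 0.475 ^ 3 / 6 + 0.475 ^ 5 / 40 - 0.475 ^ 7 / 336)) =
      (5523983140144440625/617533414928252928)*q^7
      + (52150638997559220625/617533414928252928)*p^1*q^6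
      + (30188809183442021375/102922235821375488)*p^2*q^5
      + (156575198011788116875/308766707464126464)*p^3*q^4
      + (292653118949762499125/617533414928252928)*p^4*q^3
      + (6860474536405065745/29406353091821568)*p^5*q^2
      + (1951526543699458267/38595838433015808)*p^6*q^1
      + (1434929085919198661/771916768660316160)*p^7 := by
    rw [hp, hq]; ring
  rw [key]
  positivity

lemma pc3 {u : ℝ} (h1 : 0 ≤ u) (h2 : u ≤ 57/100) : 0 ≤ 0.626655 * ((u + 2 * 0.51) ^ 2 - (1 - 0.51 ^ 2)) - (u + 2 * 0.51) ^ 2 *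
      ((0.51 + u) - (0.51 + u) ^ 3 / 6 + (0.51 + u) ^ 5 / 40 - (0.51 - 0.51 ^ 3 / 6 + 0.51 ^ 5 / 40 - 0.51 ^ 7 / 336)) := by
  obtain ⟨p, hp⟩ : ∃ p, p = u - 0 := ⟨_, rfl⟩
  obtain ⟨q, hq⟩ : ∃ q, q = 57/100 - u := ⟨_, rfl⟩
  have hp0 : 0 ≤ p := by rw [hp]; linarith
  have hq0 : 0 ≤ q := by rw [hq]; linarith
  have key : 0.626655 * ((u + 2 * 0.51) ^ 2 - (1 - 0.51 ^ 2)) - (u + 2 * 0.51) ^ 2 *
      ((0.51 + u) - (0.51 + u) ^ 3 / 6 + (0.51 + u) ^ 5 / 40 - (0.51 - 0.51 ^ 3 / 6 + 0.51 ^ 5 / 40 - 0.51 ^ 7 / 336)) =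
      (1757299038314101061/182457099364680000)*q^7
      + (7119924024699550777/91228549682340000)*p^1*q^6
      + (8705136286936181141/34753733212320000)*p^2*q^5
      + (60691417871710259021/145965679491744000)*p^3*q^4
      + (28034571624977579659/72982839745872000)*p^4*q^3
      + (23578871380180194439/121638066243120000)*p^5*q^2
      + (34103409251509995701/729828397458720000)*p^6*q^1
      + (2378228133036664541/729828397458720000)*p^7 := by
    rw [hp, hq]; ring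
  rw [key]
  positivity

end BE
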