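import Mathlib
import Pool.Agent.Lib.BE.Moments
import Pool.Agent.Lib.BE.PolyA

/-!
# The regime of a large maximal weight
-/

set_option autoImplicit false
set_option linter.unusedSectionVars false
set_option linter.unusedVariables false

open Set Real

namespace BE

variable {ι : Type*} [Fintype ι] [DecidableEq ι]

/-- Chebyshev with relaxed constants. -/
lemma cheb2' (a : ι → ℝ) (s : Finset ι) {u w v : ℝ} (hw : 0 < w) (hwu : w ≤ u)
    (hv : ∑ i ∈ s, a i ^ 2 ≤ v) :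
    Pr (fun ε => Sm a s ε ≤ -u) ≤ v / (2 * w ^ 2) := by
  have h0 : 0 ≤ ∑ i ∈ s, a i ^ 2 := Finset.sum_nonneg fun i _ => sq_nonneg _
  refine (cheb2 a s (lt_of_lt_of_le hw hwu)).trans ?_
  apply div_le_div₀ (h0.trans hv) hv (by positivity)
  nlinarith [pow_le_pow_left₀ hw.le hwu 2]

lemma cheb4' (a : ι → ℝ) (s : Finset ι) {u w v : ℝ} (hw : 0 < w) (hwu : w ≤ u)
    (hv : ∑ i ∈ s, a i ^ 2 ≤ v) :
    Pr (fun ε => Sm a s ε ≤ -u) ≤ 3 * v ^ 2 / (2 * w ^ 4) := by
  have h0 : 0 ≤ ∑ i ∈ s, a i ^ 2 := Finset.sum_nonneg fun i _ => sq_nonneg _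
  refine (cheb4 a s (lt_of_lt_of_le hw hwu)).trans ?_
  have h1 := pow_le_pow_left₀ h0 hv 2
  have h2 := pow_le_pow_left₀ hw.le hwu 4
  apply div_le_div₀ (by positivity) (by linarith) (by positivity) (by linarith)

/-- Final step of the estimates on the negative side. -/
lemma fin_step {X A g p q : ℝ} (hg : G X - G A ≤ g) (hq : q ≤ p) (hp : p ≤ 1 / 2)
    (h : g ≤ (1 / 2 - p) * 2.50662) : q ≤ 1 / 2 - D X + D A := by
  have hr := rho_gt
  have h1 : (G X - G A) / (2 * rho) ≤ 1 / 2 - p := by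
    rw [div_le_iff₀ (by linarith)]
    have : (1 / 2 - p) * 2.50662 ≤ (1 / 2 - p) * (2 * rho) :=
      mul_le_mul_of_nonneg_left (by linarith) (by linarith)
    linarith
  have h2 : D X - D A = (G X - G A) / (2 * rho) := by unfold D; ring
  linarith

lemma G056_ge : 0.53205 ≤ G 0.56 := by
  have := G_ge 0.56 (by norm_num)
  norm_num at this ⊢
  linarith

section

variable {A : ℝ} (a : ι → ℝ) (s : Finset ι) {i0 : ι}

lemma neg_split (hi0 : i0 ∈ s) (hi : a i0 = A) (X : ℝ) :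
    Pr (fun ε => Sm a s ε ≤ -X) = (Pr (fun ε => Sm a (s.erase i0) ε ≤ -(X + A)) +
      Pr (fun ε => Sm a (s.erase i0) ε ≤ -(X - A))) / 2 := by
  have h1 := Pr_split a hi0 (fun y => y ≤ -X)
  rw [h1, hi]
  congr 2
  · exact Pr_congr fun ε => by constructor <;> intro h <;> linarith
  · exact Pr_congr fun ε => by constructor <;> intro h <;> linarith

/-- E1 -/
lemma neg_large (hi0 : i0 ∈ s) (hi : a i0 = A) (hs : ∑ i ∈ s, a i ^ 2 = 1) (hA : 0.56 ≤ A)
    {X : ℝ} (hX : A < X) : Pr (fun ε => Sm a s ε ≤ -X) ≤ 1 / 2 - D X + D A := by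
  have hV : ∑ i ∈ s.erase i0, a i ^ 2 ≤ 0.6864 := by
    rw [sum_erase_sq a hi0, hs, hi]
    nlinarith
  have hsplit := neg_split a s hi0 hi X
  obtain ⟨u, hu⟩ : ∃ u, u = X - A := ⟨_, rfl⟩
  have hu0 : 0 < u := by linarith
  have hXu : X = A + u := by linarith
  have hincr : ∀ {U : ℝ}, u ≤ U → G X - G A ≤ G (0.56 + U) - G 0.56 := by
    intro U hU
    rw [hXu]
    refine (G_incr_anti (by norm_num) hA hu0.le).trans ?_
    have := G_mono (x := 0.56 + u) (y := 0.56 + U) (by linarith)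
    linarith
  have hhalf : Pr (fun ε => Sm a (s.erase i0) ε ≤ -(X - A)) ≤ 1 / 2 :=
    Pr_neg_half a _ (by linarith)
  have hG := G056_ge
  rcases le_total u 0.35 with h | h
  · have h1 := hincr h
    have h2 := (cheb2' a (s.erase i0) (u := X + A) (w := 1.12) (by norm_num) (by linarith) hV).trans
      (show (0.6864 : ℝ) / (2 * 1.12 ^ 2) ≤ 0.2736 by norm_num)
    have h3 := G_le' (0.56 + 0.35) (by norm_num)
    refine fin_step (g := 0.271) (p := 1 / 4 + 0.137) ?_ ?_ (by norm_num) (by norm_num)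
    · norm_num at h1 h3 hG ⊢
      linarith
    · linarith
  rcases le_total u 0.6 with h' | h'
  · have h1 := hincr h'
    have h2 := (cheb2' a (s.erase i0) (u := X + A) (w := 1.47) (by norm_num) (by linarith) hV).trans
      (show (0.6864 : ℝ) / (2 * 1.47 ^ 2) ≤ 0.159 by norm_num)
    have h3 := G_le' (0.56 + 0.6) (by norm_num)
    refine fin_step (g := 0.4131) (p := 1 / 4 + 0.0795) ?_ ?_ (by norm_num) (by norm_num)
    · norm_num at h1 h3 hG ⊢
      linarith
    · linarith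
  rcases le_total u 0.83 with h'' | h''
  · have h1 := hincr h''
    have h2 := (cheb4' a (s.erase i0) (u := X + A) (w := 1.72) (by norm_num) (by linarith) hV).trans
      (show 3 * (0.6864 : ℝ) ^ 2 / (2 * 1.72 ^ 4) ≤ 0.0808 by norm_num)
    have h3 := G_le' (0.56 + 0.83) (by norm_num)
    refine fin_step (g := 0.5167) (p := 1 / 4 + 0.0404) ?_ ?_ (by norm_num) (by norm_num)
    · norm_num at h1 h3 hG ⊢
      linarith
    · linarith
  rcases le_total u 0.95 with h3 | h3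
  · have h1 := hincr h3
    have h2 := (cheb4' a (s.erase i0) (u := X + A) (w := 1.95) (by norm_num) (by linarith) hV).trans
      (show 3 * (0.6864 : ℝ) ^ 2 / (2 * 1.95 ^ 4) ≤ 0.0489 by norm_num)
    have h4 := (cheb2' a (s.erase i0) (u := X - A) (w := 0.83) (by norm_num) (by linarith) hV).trans
      (show (0.6864 : ℝ) / (2 * 0.83 ^ 2) ≤ 0.4983 by norm_num)
    have h5 := G_le' (0.56 + 0.95) (by norm_num)
    refine fin_step (g := 0.5596) (p := 0.2736) ?_ ?_ (by norm_num) (by norm_num)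
    · norm_num at h1 h5 hG ⊢
      linarith
    · linarith
  · have h2 := (cheb4' a (s.erase i0) (u := X + A) (w := 2.07) (by norm_num) (by linarith) hV).trans
      (show 3 * (0.6864 : ℝ) ^ 2 / (2 * 2.07 ^ 4) ≤ 0.0385 by norm_num)
    have h4 := (cheb2' a (s.erase i0) (u := X - A) (w := 0.95) (by norm_num) (by linarith) hV).trans
      (show (0.6864 : ℝ) / (2 * 0.95 ^ 2) ≤ 0.3803 by norm_num)
    have h5 := G_le_rho X
    have h6 := G_mono hA
    have h7 := rho_lt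
    have h8 : G X - G A ≤ rho - 0.53205 := by linarith
    refine fin_step (g := rho - 0.53205) (p := 0.2095) h8 ?_ (by norm_num) ?_
    · linarith
    · norm_num at h7 ⊢
      linarith

/-- Reduction of E1' to polynomial inequalities. -/
lemma cheb_red (hi0 : i0 ∈ s) (hi : a i0 = A) (hs : ∑ i ∈ s, a i ^ 2 = 1) {A1 X : ℝ}
    (hA1 : 0.46 ≤ A1) (hA : A1 ≤ A) (hX : A < X)
    (hE : (G (A1 + (X - A)) - G A1) * ((X - A) + 2 * A1) ^ 2 ≤
      0.626655 * (((X - A) + 2 * A1) ^ 2 - (1 - A1 ^ 2))) :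
    Pr (fun ε => Sm a s ε ≤ -X) ≤ 1 / 2 - D X + D A := by
  obtain ⟨u, hu⟩ : ∃ u, u = X - A := ⟨_, rfl⟩
  rw [← hu] at hE
  have hu0 : 0 < u := by linarith
  have hXu : X = A + u := by linarith
  have hw : 0 < u + 2 * A1 := by linarith
  have hV : ∑ i ∈ s.erase i0, a i ^ 2 ≤ 1 - A1 ^ 2 := by
    rw [sum_erase_sq a hi0, hs, hi]
    nlinarith
  have hsplit := neg_split a s hi0 hi X
  have hhalf : Pr (fun ε => Sm a (s.erase i0) ε ≤ -(X - A)) ≤ 1 / 2 :=
    Pr_neg_half a _ (by linarith)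
  have h2 := cheb2' a (s.erase i0) (u := X + A) (w := u + 2 * A1) hw (by linarith) hV
  have hg : G X - G A ≤ G (A1 + u) - G A1 := by
    rw [hXu]
    exact G_incr_anti (by linarith) hA hu0.le
  refine fin_step (g := G (A1 + u) - G A1)
    (p := 1 / 4 + (1 - A1 ^ 2) / (4 * (u + 2 * A1) ^ 2)) hg ?_ ?_ ?_
  · have e : (1 - A1 ^ 2) / (4 * (u + 2 * A1) ^ 2) = (1 - A1 ^ 2) / (2 * (u + 2 * A1) ^ 2) / 2 := by
      field_simp
      ring
    rw [e]
    linarith
  · have : (1 - A1 ^ 2) / (4 * (u + 2 * A1) ^ 2) ≤ 1 / 4 := by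
      rw [div_le_iff₀ (by positivity)]
      nlinarith
    linarith
  · have e : (1 / 2 - (1 / 4 + (1 - A1 ^ 2) / (4 * (u + 2 * A1) ^ 2))) * 2.50662 =
        0.626655 * ((u + 2 * A1) ^ 2 - (1 - A1 ^ 2)) / (u + 2 * A1) ^ 2 := by
      field_simp
      ring
    rw [e, le_div_iff₀ (by positivity)]
    exact hE

/-- E1' -/
lemma neg_cheb (hi0 : i0 ∈ s) (hi : a i0 = A) (hs : ∑ i ∈ s, a i ^ 2 = 1) (hA : 0.46 ≤ A)
    (hA' : A ≤ 0.57) {X : ℝ} (hX : A < X) (hX2 : X ≤ 2 * A) :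
    Pr (fun ε => Sm a s ε ≤ -X) ≤ 1 / 2 - D X + D A := by
  obtain ⟨u, hu⟩ : ∃ u, u = X - A := ⟨_, rfl⟩
  have hu0 : 0 ≤ u := by linarith
  rcases le_total A 0.475 with h | h
  · apply cheb_red a s hi0 hi hs (A1 := 0.46) (by norm_num) hA hX
    rw [← hu]
    have h1 := G_le' (0.46 + u) (by linarith)
    have h2 := G_ge 0.46 (by norm_num)
    have h3 := pc1 (u := u) hu0 (by linarith)
    have h4 : G (0.46 + u) - G 0.46 ≤ ((0.46 + u) - (0.46 + u) ^ 3 / 6 + (0.46 + u) ^ 5 / 40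
      - (0.46 + u) ^ 7 / 336 + (0.46 + u) ^ 9 / 3456 -
        (0.46 - 0.46 ^ 3 / 6 + 0.46 ^ 5 / 40 - 0.46 ^ 7 / 336)) := by linarith
    have h5 := mul_le_mul_of_nonneg_left h4 (sq_nonneg (u + 2 * 0.46))
    linarith
  rcases le_total A 0.51 with h' | h'
  · apply cheb_red a s hi0 hi hs (A1 := 0.475) (by norm_num) h hX
    rw [← hu]
    have h1 := G_le (0.475 + u) (by linarith)
    have h2 := G_ge 0.475 (by norm_num)
    have h3 := pc2 (u := u) hu0 (by linarith)
    have h4 : G (0.475 + u) - G 0.475 ≤ ((0.475 + u) - (0.475 + u) ^ 3 / 6 + (0.475 + u) ^ 5 / 40 -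
        (0.475 - 0.475 ^ 3 / 6 + 0.475 ^ 5 / 40 - 0.475 ^ 7 / 336)) := by linarith
    have h5 := mul_le_mul_of_nonneg_left h4 (sq_nonneg (u + 2 * 0.475))
    linarith
  · apply cheb_red a s hi0 hi hs (A1 := 0.51) (by norm_num) h' hX
    rw [← hu]
    have h1 := G_le (0.51 + u) (by linarith)
    have h2 := G_ge 0.51 (by norm_num)
    have h3 := pc3 (u := u) hu0 (by linarith)
    have h4 : G (0.51 + u) - G 0.51 ≤ ((0.51 + u) - (0.51 + u) ^ 3 / 6 + (0.51 + u) ^ 5 / 40 -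
        (0.51 - 0.51 ^ 3 / 6 + 0.51 ^ 5 / 40 - 0.51 ^ 7 / 336)) := by linarith
    have h5 := mul_le_mul_of_nonneg_left h4 (sq_nonneg (u + 2 * 0.51))
    linarith

/-- E2 -/
lemma pos_large (hi0 : i0 ∈ s) (hi : a i0 = A) (hs : ∑ i ∈ s, a i ^ 2 = 1) (hA : 0.56 ≤ A)
    {x : ℝ} (hx : A ≤ x) : Pr (fun ε => Sm a s ε ≤ x) ≤ 1 / 2 + D x + D A := by
  have hr := rho_gt
  have hr' := rho_lt
  have hDD : D x + D A = (G x + G A) / (2 * rho) := by unfold D; ring
  by_cases hbig : rho ≤ G x + G A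
  · have h1 : 1 / 2 ≤ (G x + G A) / (2 * rho) := by
      rw [le_div_iff₀ (by linarith)]
      linarith
    have h2 := Pr_le_one (fun ε => Sm a s ε ≤ x)
    linarith
  push Not at hbig
  have hA68 : A < 0.68 := by
    by_contra hcon
    push Not at hcon
    have h1 := G_ge 0.68 (by norm_num)
    have h2 := G_mono hcon
    have h3 := G_mono hx
    norm_num at h1 hr'
    norm_num at h2
    linarith
  obtain ⟨u, hu⟩ : ∃ u, u = x - A := ⟨_, rfl⟩
  have hu0 : 0 ≤ u := by linarith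
  have hG := G056_ge
  have hGA := G_mono hA
  have hu25 : u < 0.25 := by
    by_contra hcon
    push Not at hcon
    have h1 := G_ge 0.81 (by norm_num)
    have h2 := G_mono (x := 0.81) (y := x) (by linarith)
    norm_num at h1 hG hr'
    norm_num at h2 hGA
    linarith
  have hxu : x = A + u := by linarith
  -- lower bound for G
  have hga : 0.7 ≤ ga (0.56 + 0.25) := by
    have := ga_ge (0.56 + 0.25)
    norm_num at this ⊢
    linarith
  have hinc := G_incr_ge (x := 0.56) (u := u) (U := 0.25) (by norm_num) hu0 hu25.le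
  have hm : G (0.56 + u) ≤ G x := G_mono (by linarith)
  have hsum : 1.0641 + 0.7 * u ≤ G x + G A := by
    have := mul_le_mul_of_nonneg_left hga hu0
    norm_num at this hinc hm hG hGA ⊢
    linarith
  have hlow : (1.0641 + 0.7 * u) / 2.50664 ≤ (G x + G A) / (2 * rho) := by
    apply div_le_div₀ (by linarith) hsum (by linarith) (by linarith)
  -- probability
  obtain ⟨V, hVdef⟩ : ∃ V, V = ∑ i ∈ s.erase i0, a i ^ 2 := ⟨_, rfl⟩
  have hV : V = 1 - A ^ 2 := by rw [hVdef, sum_erase_sq a hi0, hs, hi]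
  have hV1 : 0.5376 ≤ V := by rw [hV]; nlinarith
  have hpz := pz a (s.erase i0) (u := u) (c := 1 / (3 * V)) hu0 (by positivity)
  rw [← hVdef] at hpz
  have hpz' : 1 / 6 - u ^ 2 / (3 * V) ≤ Pr (fun ε => u < Sm a (s.erase i0) ε) := by
    refine le_trans (le_of_eq ?_) hpz
    field_simp
    ring
  have h1 := Pr_split a hi0 (fun y => y ≤ x)
  rw [hi] at h1
  have h2 : Pr (fun ε => -A + Sm a (s.erase i0) ε ≤ x) ≤ 1 := Pr_le_one _
  have h3 : Pr (fun ε => A + Sm a (s.erase i0) ε ≤ x) = 1 - Pr (fun ε => u < Sm a (s.erase i0) ε) := by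
    rw [← Pr_compl]
    exact Pr_congr fun ε => by
      rw [not_lt]
      constructor <;> intro h <;> linarith
  have h4 : u ^ 2 / (3 * V) ≤ 0.1551 * u := by
    rw [div_le_iff₀ (by positivity)]
    nlinarith
  have h5 : 11 / 12 + 0.07755 * u ≤ 1 / 2 + (1.0641 + 0.7 * u) / 2.50664 := by
    rw [← sub_nonneg]
    have e : 1 / 2 + (1.0641 + 0.7 * u) / 2.50664 - (11 / 12 + 0.07755 * u) =
        (1.0641 / 2.50664 - 5 / 12) + (0.7 / 2.50664 - 0.07755) * u := by ring
    rw [e]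
    have : (0:ℝ) ≤ (0.7 / 2.50664 - 0.07755) * u := mul_nonneg (by norm_num) hu0
    have h6 : (0:ℝ) ≤ 1.0641 / 2.50664 - 5 / 12 := by norm_num
    linarith
  rw [h1, h3]
  linarith

end

end BE
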