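import Mathlib

set_option autoImplicit false

namespace BE

lemma pcond {y : ℝ} (h1 : 0 ≤ y) (h2 : y ≤ 537/2000) : 0 ≤ ((1.7 - (2.7 ^ 3 - 1) / 6 * y + (2.7 ^ 5 - 1) / 40 * y ^ 2 - (2.7 ^ 7 - 1) / 336 * y ^ 3) -
      2 * (0.7 * (1 - y / 2 + 3 * y ^ 2 / 8) - (1.7 ^ 3 - 1) / 6 * y * (1 - y / 2 + 3 * y ^ 2 / 8) ^ 3 +
        (1.7 ^ 5 - 1) / 40 * y ^ 2 * (1 - y / 2 + 3 * y ^ 2 / 8) ^ 5)) := by
  obtain ⟨p, hp⟩ : ∃ p, p = y - 0 := ⟨_, rfl⟩
  obtain ⟨q, hq⟩ : ∃ q, q = 537/2000 - y := ⟨_, rfl⟩
  have hp0 : 0 ≤ p := by rw [hp]; linarith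
  have hq0 : 0 ≤ q := by rw [hq]; linarith
  have key : ((1.7 - (2.7 ^ 3 - 1) / 6 * y + (2.7 ^ 5 - 1) / 40 * y ^ 2 - (2.7 ^ 7 - 1) / 336 * y ^ 3) -
      2 * (0.7 * (1 - y / 2 + 3 * y ^ 2 / 8) - (1.7 ^ 3 - 1) / 6 * y * (1 - y / 2 + 3 * y ^ 2 / 8) ^ 3 +
        (1.7 ^ 5 - 1) / 40 * y ^ 2 * (1 - y / 2 + 3 * y ^ 2 / 8) ^ 5)) =
      (409600000000000000000000000000000000000/191677075117738970041044037004427)*q^12
      + (4508466176000000000000000000000000000000/191677075117738970041044037004427)*p^1*q^11
      + (22600947087549184000000000000000000000000/191677075117738970041044037004427)*p^2*q^10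
      + (53030342617983952835200000000000000000000/149082169536019198920812028781221)*p^3*q^9
      + (321316484393088994462640000000000000000000/447246508608057596762436086343663)*p^4*q^8
      + (456960647670861713097642640000000000000000/447246508608057596762436086343663)*p^5*q^7
      + (66867182489637865964560923235000000000000/63892358372579656680348012334809)*p^6*q^6
      + (49524786104144423233620806900555750000000/63892358372579656680348012334809)*p^7*q^5
      + (26174058416908944155611890872712832656250/63892358372579656680348012334809)*p^8*q^4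
      + (57227421892986311946828554538353822166875/383354150235477940082088074008854)*p^9*q^3
      + (96240090726781731726697504940891277046162435/2747882548887905874508407314495465472)*p^10*q^2
      + (10100681166674288486249454756362382395806227349/2198306039110324699606725851596372377600)*p^11*q^1
      + (6863094087083234755970124043325164017361403385587/29310747188137662661423011354618298368000000)*p^12 := by
    rw [hp, hq]; ring
  rw [key]
  positivity

end BE
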