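import Mathlib
import Pool.Agent.Lib.BE.Large
import Pool.Agent.Lib.BE.PolyB

/-!
# Conditioning on the largest sign
-/

set_option autoImplicit false
set_option linter.unusedSectionVars false
set_option linter.unusedVariables false

open Set Real

namespace BE

/-- Increments of `G` against the Taylor polynomial, lower bound. -/
lemma G_incr_poly_ge {x y : ℝ} (hx : 0 ≤ x) (hxy : x ≤ y) :
    (y - y ^ 3 / 6 + y ^ 5 / 40 - y ^ 7 / 336) - (x - x ^ 3 / 6 + x ^ 5 / 40 - x ^ 7 / 336) ≤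
      G y - G x := by
  have hm : Monotone (fun x => G x - (x - x ^ 3 / 6 + x ^ 5 / 40 - x ^ 7 / 336)) := by
    have hd : ∀ y, HasDerivAt (fun x => G x - (x - x ^ 3 / 6 + x ^ 5 / 40 - x ^ 7 / 336))
        (ga y - (1 - y ^ 2 / 2 + y ^ 4 / 8 - y ^ 6 / 48)) y := by
      intro y
      have := (G_hasDeriv y).sub ((((hasDerivAt_id y).sub ((hasDerivAt_pow 3 y).div_const 6)).add
        ((hasDerivAt_pow 5 y).div_const 40)).sub ((hasDerivAt_pow 7 y).div_const 336))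
      refine this.congr_deriv ?_
      norm_num; ring
    refine monotone_of_deriv_nonneg (fun y => (hd y).differentiableAt) fun y => ?_
    rw [(hd y).deriv]
    linarith [ga_ge y]
  have := hm hxy
  simp only at this
  linarith

/-- Increments of `G` against the Taylor polynomial, upper bound. -/
lemma G_incr_poly_le {x y : ℝ} (hx : 0 ≤ x) (hxy : x ≤ y) :
    G y - G x ≤ (y - y ^ 3 / 6 + y ^ 5 / 40) - (x - x ^ 3 / 6 + x ^ 5 / 40) := by
  have hm : Monotone (fun x => (x - x ^ 3 / 6 + x ^ 5 / 40) - G x) := by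
    have hd : ∀ y, HasDerivAt (fun x => (x - x ^ 3 / 6 + x ^ 5 / 40) - G x)
        ((1 - y ^ 2 / 2 + y ^ 4 / 8) - ga y) y := by
      intro y
      have := (((hasDerivAt_id y).sub ((hasDerivAt_pow 3 y).div_const 6)).add
        ((hasDerivAt_pow 5 y).div_const 40)).sub (G_hasDeriv y)
      refine this.congr_deriv ?_
      norm_num; ring
    refine monotone_of_deriv_nonneg (fun y => (hd y).differentiableAt) fun y => ?_
    rw [(hd y).deriv]
    linarith [ga_le y]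
  have := hm hxy
  simp only at this
  linarith

lemma G_incr_le {x u : ℝ} (hx : 0 ≤ x) (hu : 0 ≤ u) : G (x + u) - G x ≤ u * ga x := by
  have h : ∫ t in (x)..(x + u), ga t ≤ u * ga x := by
    have h1 : ∫ _t in (x)..(x + u), ga x = u * ga x := by
      rw [intervalIntegral.integral_const]
      simp
    rw [← h1]
    apply intervalIntegral.integral_mono_on (by linarith) (ga_continuous.intervalIntegrable _ _)
      (by simp)
    intro t ht
    exact ga_anti hx ht.1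
  have h2 : G (x + u) - G x = ∫ t in (x)..(x + u), ga t := by
    unfold G
    rw [intervalIntegral.integral_interval_sub_left (ga_continuous.intervalIntegrable _ _)
      (ga_continuous.intervalIntegrable _ _)]
  rw [h2]
  exact h

/-- The one variable inequality behind the conditioning step. -/
lemma cond_one {A c : ℝ} (hA0 : 0 < A) (hA : A ≤ 0.46) (hc : 1 ≤ c) (hcA : c ^ 2 * (1 - A ^ 2) = 1) :
    2 * (G (1.7 * A) - G A) ≤ G (2.7 * (c * A)) - G (c * A) := by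
  obtain ⟨b, hb⟩ : ∃ b, b = c * A := ⟨_, rfl⟩
  obtain ⟨y, hy⟩ : ∃ y, y = b ^ 2 := ⟨_, rfl⟩
  have hb0 : 0 < b := by rw [hb]; positivity
  have hy0 : 0 < y := by rw [hy]; positivity
  have hA2 : A ^ 2 ≤ 0.2116 := by nlinarith
  have hA2' : 0 < A ^ 2 := by positivity
  have hyA : y * (1 - A ^ 2) = A ^ 2 := by
    rw [hy, hb, mul_pow]
    calc c ^ 2 * A ^ 2 * (1 - A ^ 2) = c ^ 2 * (1 - A ^ 2) * A ^ 2 := by ring
      _ = A ^ 2 := by rw [hcA, one_mul]
  have hy1 : y ≤ 0.2685 := by nlinarith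
  rw [← hb]
  have h1 := G_incr_poly_ge (x := b) (y := 2.7 * b) hb0.le (by linarith)
  have h2 := G_incr_poly_le (x := A) (y := 1.7 * A) hA0.le (by linarith)
  obtain ⟨w, hw⟩ : ∃ w, w = 1 - y / 2 + 3 * y ^ 2 / 8 := ⟨_, rfl⟩
  have hw0 : 0 < w := by rw [hw]; nlinarith [sq_nonneg y]
  have hw1 : w ≤ 1 := by rw [hw]; nlinarith
  have hww : 1 ≤ w ^ 2 * (1 + y) := by
    have : w ^ 2 * (1 + y) = 1 + y ^ 3 * (5 / 8 - 15 / 64 * y + 9 / 64 * y ^ 2) := by
      rw [hw]; ring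
    rw [this]
    have : 0 ≤ y ^ 3 * (5 / 8 - 15 / 64 * y + 9 / 64 * y ^ 2) := by
      apply mul_nonneg (by positivity)
      nlinarith [sq_nonneg y]
    linarith
  obtain ⟨B, hB⟩ : ∃ B, B = b * w := ⟨_, rfl⟩
  have hB0 : 0 < B := by rw [hB]; positivity
  have hAB : A ≤ B := by
    have h3 : A ^ 2 ≤ B ^ 2 := by
      rw [hB, mul_pow, ← hy]
      have e1 : A ^ 2 * (1 + y) = y := by linarith
      have e2 : A ^ 2 * (1 + y) ≤ y * w ^ 2 * (1 + y) := by
        rw [e1]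
        nlinarith
      exact le_of_mul_le_mul_right e2 (by linarith)
    exact abs_le_of_sq_le_sq' h3 hB0.le |>.2
  -- monotonicity of the upper polynomial
  have hmono : ((1.7 * A) - (1.7 * A) ^ 3 / 6 + (1.7 * A) ^ 5 / 40) - (A - A ^ 3 / 6 + A ^ 5 / 40) ≤
      0.7 * B - (1.7 ^ 3 - 1) / 6 * B ^ 3 + (1.7 ^ 5 - 1) / 40 * B ^ 5 := by
    have e1 : ((1.7 * A) - (1.7 * A) ^ 3 / 6 + (1.7 * A) ^ 5 / 40) - (A - A ^ 3 / 6 + A ^ 5 / 40) =
      0.7 * A - (1.7 ^ 3 - 1) / 6 * A ^ 3 + (1.7 ^ 5 - 1) / 40 * A ^ 5 := by ring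
    rw [e1]
    have hB2 : B ^ 2 ≤ 0.2685 := by
      rw [hB, mul_pow, ← hy]
      have : w ^ 2 ≤ 1 := by nlinarith
      nlinarith
    have hAB2 : A * B ≤ 0.2685 := by nlinarith
    have e2 : A ^ 5 ≤ B ^ 5 := pow_le_pow_left₀ hA0.le hAB 5
    have e3 : B ^ 3 - A ^ 3 ≤ (B - A) * 0.8 := by
      have : B ^ 3 - A ^ 3 = (B - A) * (B ^ 2 + A * B + A ^ 2) := by ring
      rw [this]
      apply mul_le_mul_of_nonneg_left _ (by linarith)
      linarith
    norm_num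
    nlinarith
  have hp := pcond hy0.le (show y ≤ 537 / 2000 by norm_num at hy1 ⊢; linarith)
  rw [← hw] at hp
  have hp2 := mul_nonneg hb0.le hp
  have e1 : b * ((1.7 - (2.7 ^ 3 - 1) / 6 * y + (2.7 ^ 5 - 1) / 40 * y ^ 2 - (2.7 ^ 7 - 1) / 336 * y ^ 3) -
      2 * (0.7 * w - (1.7 ^ 3 - 1) / 6 * y * w ^ 3 + (1.7 ^ 5 - 1) / 40 * y ^ 2 * w ^ 5)) =
      ((2.7 * b - (2.7 * b) ^ 3 / 6 + (2.7 * b) ^ 5 / 40 - (2.7 * b) ^ 7 / 336) -
        (b - b ^ 3 / 6 + b ^ 5 / 40 - b ^ 7 / 336)) -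
      2 * (0.7 * B - (1.7 ^ 3 - 1) / 6 * B ^ 3 + (1.7 ^ 5 - 1) / 40 * B ^ 5) := by
    rw [hB, hy]
    ring
  rw [e1] at hp2
  linarith

/-- Monotonicity in `X`. -/
lemma cond_mono {A c X : ℝ} (hA0 : 0 < A) (hc : 1 ≤ c) (hc2 : c ≤ 2) (hX : A ≤ X)
    (hX2 : X ≤ 1.7 * A) (h : 2 * (G (1.7 * A) - G A) ≤ G (2.7 * (c * A)) - G (c * A)) :
    2 * (G X - G A) ≤ G (c * (X + A)) - G (c * A) := by
  have h1 := G_incr_le (x := c * (X + A)) (u := c * (1.7 * A - X))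
    (mul_nonneg (by linarith) (by linarith))
    (mul_nonneg (by linarith) (by linarith))
  have e1 : c * (X + A) + c * (1.7 * A - X) = 2.7 * (c * A) := by ring
  rw [e1] at h1
  have h2 := G_incr_ge (x := X) (u := 1.7 * A - X) (U := 1.7 * A - X) (by linarith) (by linarith)
    le_rfl
  have e2 : X + (1.7 * A - X) = 1.7 * A := by ring
  rw [e2] at h2
  have h3 : ga (c * (X + A)) ≤ ga (1.7 * A) := by
    apply ga_anti (by positivity)
    have : 2 * A ≤ c * (X + A) := by nlinarith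
    linarith
  have h4 : c * (1.7 * A - X) * ga (c * (X + A)) ≤ 2 * ((1.7 * A - X) * ga (1.7 * A)) := by
    have e3 : 0 ≤ 1.7 * A - X := by linarith
    calc c * (1.7 * A - X) * ga (c * (X + A)) ≤ c * (1.7 * A - X) * ga (1.7 * A) :=
          mul_le_mul_of_nonneg_left h3 (mul_nonneg (by linarith) e3)
      _ = c * ((1.7 * A - X) * ga (1.7 * A)) := by ring
      _ ≤ 2 * ((1.7 * A - X) * ga (1.7 * A)) :=
          mul_le_mul_of_nonneg_right hc2 (mul_nonneg e3 (ga_pos _).le)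
  linarith

variable {ι : Type*} [Fintype ι] [DecidableEq ι]

/-- B -/
lemma cond_step {A : ℝ} (a : ι → ℝ) (s : Finset ι) {i0 : ι} (ha : ∀ i ∈ s, 0 ≤ a i ∧ a i ≤ A)
    (hi0 : i0 ∈ s) (hi : a i0 = A) (hs : ∑ i ∈ s, a i ^ 2 = 1) (hA0 : 0 < A) (hA : A ≤ 0.46)
    {X : ℝ} (hX : A < X) (hX2 : X ≤ 1.7 * A)
    (hC : ∀ (a' : ι → ℝ) (s' : Finset ι) (A' X' : ℝ), (∀ i ∈ s', 0 ≤ a' i ∧ a' i ≤ A') →
      ∑ i ∈ s', a' i ^ 2 = 1 → 0 < A' → A' ≤ 0.56 → 2 * A' ≤ X' →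
      Pr (fun ε => Sm a' s' ε ≤ -X') ≤ 1 / 2 - D X' + D A') :
    Pr (fun ε => Sm a s ε ≤ -X) ≤ 1 / 2 - D X + D A := by
  have hA2 : A ^ 2 ≤ 0.2116 := by nlinarith
  obtain ⟨σ, hσ⟩ : ∃ σ, σ = Real.sqrt (1 - A ^ 2) := ⟨_, rfl⟩
  have hσ2 : σ ^ 2 = 1 - A ^ 2 := by rw [hσ, Real.sq_sqrt (by linarith)]
  have hσ0 : 0 < σ := by rw [hσ]; exact Real.sqrt_pos.2 (by linarith)
  have hσ1 : σ ≤ 1 := by nlinarith [sq_nonneg A]
  have hσ3 : 0.88 ≤ σ := by nlinarith
  have hsplit := neg_split a s hi0 hi X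
  have hhalf : Pr (fun ε => Sm a (s.erase i0) ε ≤ -(X - A)) ≤ 1 / 2 :=
    Pr_neg_half a _ (by linarith)
  have hV : ∑ i ∈ s.erase i0, a i ^ 2 = σ ^ 2 := by
    rw [sum_erase_sq a hi0, hs, hi, hσ2]
  have h1 := hC (fun i => a i / σ) (s.erase i0) (A / σ) ((X + A) / σ)
    (fun i hi' => by
      have := ha i (Finset.mem_of_mem_erase hi')
      exact ⟨div_nonneg this.1 hσ0.le, div_le_div_of_nonneg_right this.2 hσ0.le⟩)
    (by
      simp only [div_pow]
      rw [← Finset.sum_div, hV, div_self (by positivity)])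
    (by positivity)
    (by
      rw [div_le_iff₀ hσ0]
      linarith)
    (by
      rw [← mul_div_assoc]
      apply div_le_div_of_nonneg_right _ hσ0.le
      linarith)
  have h2 : Pr (fun ε => Sm (fun i => a i / σ) (s.erase i0) ε ≤ -((X + A) / σ)) =
      Pr (fun ε => Sm a (s.erase i0) ε ≤ -(X + A)) := by
    refine Pr_congr fun ε => ?_
    rw [Sm_smul, ← neg_div, div_le_div_iff_of_pos_right hσ0]
  rw [h2] at h1
  obtain ⟨c, hc⟩ : ∃ c, c = 1 / σ := ⟨_, rfl⟩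
  have hc1 : 1 ≤ c := by rw [hc, le_div_iff₀ hσ0]; linarith
  have hc2 : c ≤ 2 := by rw [hc, div_le_iff₀ hσ0]; linarith
  have hcA : c ^ 2 * (1 - A ^ 2) = 1 := by
    rw [hc, ← hσ2]
    field_simp
  have h3 := cond_mono hA0 hc1 hc2 hX.le hX2 (cond_one hA0 hA hc1 hcA)
  have e1 : c * (X + A) = (X + A) / σ := by rw [hc]; ring
  have e2 : c * A = A / σ := by rw [hc]; ring
  rw [e1, e2] at h3
  have hr := rho_pos
  have h4 : D X - D A ≤ (D ((X + A) / σ) - D (A / σ)) / 2 := by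
    have e3 : D X - D A = 2 * (G X - G A) / (4 * rho) := by unfold D; field_simp; ring
    have e4 : (D ((X + A) / σ) - D (A / σ)) / 2 = (G ((X + A) / σ) - G (A / σ)) / (4 * rho) := by
      unfold D; field_simp; ring
    rw [e3, e4]
    exact div_le_div_of_nonneg_right h3 (by positivity)
  linarith

end BE
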