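import Mathlib
import Pool.Agent.Lib.BE.Large
import Pool.Agent.Lib.BE.CBinom

/-!
# Small nonnegative arguments: two large weights, three large weights, many large weights
-/

set_option autoImplicit false
set_option linter.unusedSectionVars false
set_option linter.unusedVariables false

open Set Real

namespace BE

variable {ι : Type*} [Fintype ι] [DecidableEq ι]

section

variable {A : ℝ} (a : ι → ℝ) (s : Finset ι) {i0 : ι}

lemma Pr_abs_split (hi0 : i0 ∈ s) (hi : a i0 = A) (x : ℝ) :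
    Pr (fun ε => |Sm a s ε| ≤ x) = Pr (fun ε => |A + Sm a (s.erase i0) ε| ≤ x) := by
  have h1 := Pr_split a hi0 (fun y => |y| ≤ x)
  rw [hi] at h1
  have h2 : Pr (fun ε => |(-A) + Sm a (s.erase i0) ε| ≤ x) =
      Pr (fun ε => |A + Sm a (s.erase i0) ε| ≤ x) := by
    rw [← Pr_neg_sum a (s.erase i0) (fun y => |(-A) + y| ≤ x)]
    exact Pr_congr fun ε => by
      rw [← neg_add, abs_neg]
  rw [h1, h2]
  ring

/-- From a two-sided bound to the conclusion. -/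
lemma of_abs_bound {x : ℝ} (hx : 0 ≤ x) (h : Pr (fun ε => |Sm a s ε| ≤ x) ≤ 2 * D x + 2 * D A) :
    Pr (fun ε => Sm a s ε ≤ x) ≤ 1 / 2 + D x + D A := by
  rw [Pr_le_eq a s hx]
  linarith

/-- E4 -/
lemma zero_large (ha : ∀ i ∈ s, 0 ≤ a i ∧ a i ≤ A) (hi0 : i0 ∈ s) (hi : a i0 = A)
    (hs : ∑ i ∈ s, a i ^ 2 = 1) (hA : 0.56 ≤ A) (hA' : A ≤ 0.675) {x : ℝ} (hx : 0 ≤ x)
    (hx1 : x ≤ 0.1) (hcard : 2 ≤ (s.filter (fun i => A / 2 < a i)).card) :
    Pr (fun ε => Sm a s ε ≤ x) ≤ 1 / 2 + D x + D A := by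
  obtain ⟨i1, hi1, hne⟩ : ∃ i1 ∈ s.filter (fun i => A / 2 < a i), i1 ≠ i0 :=
    Finset.exists_mem_ne (by omega) i0
  rw [Finset.mem_filter] at hi1
  obtain ⟨hi1s, hb1⟩ := hi1
  obtain ⟨b, hb⟩ : ∃ b, b = a i1 := ⟨_, rfl⟩
  have hbA : b ≤ A := by rw [hb]; exact (ha i1 hi1s).2
  rw [← hb] at hb1
  have hi1' : i1 ∈ s.erase i0 := Finset.mem_erase.2 ⟨hne, hi1s⟩
  have h1 := Pr_split a hi1' (fun y => |A + y| ≤ x)
  rw [← hb] at h1
  set W := (s.erase i0).erase i1 with hW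
  have h2 : Pr (fun ε => |A + (b + Sm a W ε)| ≤ x) + Pr (fun ε => |A + (-b + Sm a W ε)| ≤ x) ≤
      1 - Pr (fun ε => x < Sm a W ε) := by
    rw [← Pr_compl, ← Pr_or_disj]
    · refine Pr_mono fun ε h => ?_
      rw [not_lt]
      rcases h with h | h
      · have := (abs_le.1 h).2
        linarith
      · have := (abs_le.1 h).2
        linarith
    · intro ε h h'
      have e1 := (abs_le.1 h).2
      have e2 := (abs_le.1 h').1
      linarith
  obtain ⟨v, hvdef⟩ : ∃ v, v = ∑ i ∈ W, a i ^ 2 := ⟨_, rfl⟩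
  have hv : v = 1 - A ^ 2 - b ^ 2 := by
    rw [hvdef, hW, sum_erase_sq a hi1', sum_erase_sq a hi0, hs, hi, hb]
  have hv1 : 0.08875 ≤ v := by
    rw [hv]
    nlinarith
  have hpz := pz a W (u := x) (c := 1 / (3 * v)) hx (by positivity)
  rw [← hvdef] at hpz
  have hpz' : 1 / 6 - x ^ 2 / (3 * v) ≤ Pr (fun ε => x < Sm a W ε) := by
    refine le_trans (le_of_eq ?_) hpz
    field_simp
    ring
  have h4 : x ^ 2 / (3 * v) ≤ 0.38 * x := by
    rw [div_le_iff₀ (by positivity)]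
    nlinarith
  have h3 := Pr_abs_split a s hi0 hi x
  apply of_abs_bound a s hx
  rw [h3, h1]
  -- Gaussian side
  have hr := rho_gt
  have hr' := rho_lt
  have hG := G056_ge
  have hGA := G_mono hA
  have hga : 0.9 ≤ ga (0 + 0.1) := by
    have := ga_ge (0 + 0.1)
    norm_num at this ⊢
    linarith
  have hinc := G_incr_ge (x := 0) (u := x) (U := 0.1) le_rfl hx hx1
  rw [G_zero, sub_zero] at hinc
  have hinc' : 0.9 * x ≤ G x := by
    have := mul_le_mul_of_nonneg_left hga hx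
    rw [zero_add x] at hinc
    linarith
  have hDD : 2 * D x + 2 * D A = (G x + G A) / rho := by unfold D; field_simp
  have hlow : (0.53205 + 0.9 * x) / 1.25332 ≤ (G x + G A) / rho :=
    div_le_div₀ (by linarith) (by linarith) (by linarith) hr'.le
  have h5 : 5 / 12 + 0.19 * x ≤ (0.53205 + 0.9 * x) / 1.25332 := by
    rw [le_div_iff₀ (by norm_num)]
    linarith
  rw [hDD]
  linarith

/-- Three large weights. -/
lemma abs_three (ha : ∀ i ∈ s, 0 ≤ a i ∧ a i ≤ A) {x : ℝ} (hx : 0 ≤ x) (hx2 : x ≤ A / 2)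
    (hcard : 3 ≤ (s.filter (fun i => A / 2 < a i)).card) :
    Pr (fun ε => |Sm a s ε| ≤ x) ≤ 3 / 8 := by
  obtain ⟨B, hB, hBc⟩ := Finset.exists_subset_card_eq hcard
  have h := smallball a s B (hB.trans (Finset.filter_subset _ _)) x hx (fun i hi => by
    have := (Finset.mem_filter.1 (hB hi)).2
    linarith)
  rw [hBc] at h
  refine h.trans (le_of_eq ?_)
  norm_num [Nat.choose]

/-- S2 -/
lemma sperner_three (ha : ∀ i ∈ s, 0 ≤ a i ∧ a i ≤ A) (hA : 0.49 ≤ A) {x : ℝ} (hx : 0 ≤ x)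
    (hx2 : x ≤ A / 2) (hcard : 3 ≤ (s.filter (fun i => A / 2 < a i)).card) :
    Pr (fun ε => Sm a s ε ≤ x) ≤ 1 / 2 + D x + D A := by
  apply of_abs_bound a s hx
  refine (abs_three a s ha hx hx2 hcard).trans ?_
  have hr := rho_gt
  have hr' := rho_lt
  have hG := G_ge 0.49 (by norm_num)
  have hGA := G_mono hA
  have hGx := G_nonneg hx
  have hDD : 2 * D x + 2 * D A = (G x + G A) / rho := by unfold D; field_simp
  rw [hDD, le_div_iff₀ (by linarith)]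
  norm_num at hG hr' hGA ⊢
  linarith

/-- Polynomial inequality for S1. -/
lemma poly_sp {y : ℝ} (h0 : 0 ≤ y) (h1 : y ≤ 0.2401) :
    1 ≤ (1 - y / 6 + y ^ 2 / 40 - y ^ 3 / 336) ^ 2 * (1 + 0.345 * y) := by
  have key : (1 - y / 6 + y ^ 2 / 40 - y ^ 3 / 336) ^ 2 * (1 + 0.345 * y) - 1 =
      y * ((0.345 - 1 / 3) + (1 / 36 + 1 / 20 - 0.345 / 3) * y +
        (0.345 * (1 / 36 + 1 / 20) - 1 / 168 - 1 / 120) * y ^ 2 +
        (1 / 1600 + 1 / 1008 - 0.345 * (1 / 168 + 1 / 120)) * y ^ 3 +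
        (0.345 * (1 / 1600 + 1 / 1008) - 1 / 6720) * y ^ 4 +
        (1 / 336 ^ 2 - 0.345 / 6720) * y ^ 5 + 0.345 / 336 ^ 2 * y ^ 6) := by
    ring
  have h2 : 0 ≤ (0.345 - 1 / 3) + (1 / 36 + 1 / 20 - 0.345 / 3) * y +
        (0.345 * (1 / 36 + 1 / 20) - 1 / 168 - 1 / 120) * y ^ 2 +
        (1 / 1600 + 1 / 1008 - 0.345 * (1 / 168 + 1 / 120)) * y ^ 3 +
        (0.345 * (1 / 1600 + 1 / 1008) - 1 / 6720) * y ^ 4 +
        (1 / 336 ^ 2 - 0.345 / 6720) * y ^ 5 + 0.345 / 336 ^ 2 * y ^ 6 := by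
    have e1 : 0 ≤ y ^ 2 := by positivity
    have e2 : 0 ≤ y ^ 4 := by positivity
    have e3 : y ^ 3 ≤ 0.2401 * y ^ 2 := by nlinarith
    have e4 : y ^ 5 ≤ 0.2401 * y ^ 4 := by nlinarith
    have e5 : 0 ≤ y ^ 6 := by positivity
    have e6 : 0 ≤ (0.2401 - y) ^ 2 := sq_nonneg _
    norm_num
    nlinarith
  nlinarith [mul_nonneg h0 h2]

/-- S1 -/
lemma sperner_small (ha : ∀ i ∈ s, 0 ≤ a i ∧ a i ≤ A) (hs : ∑ i ∈ s, a i ^ 2 = 1) (hA0 : 0 < A)
    (hA : A ≤ 0.49) {x : ℝ} (hx : 0 ≤ x) (hx2 : x ≤ A / 2)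
    (hsmall : ∑ i ∈ s.filter (fun i => a i ≤ A / 2), a i ^ 2 ≤ 0.155 * A ^ 2) :
    Pr (fun ε => Sm a s ε ≤ x) ≤ 1 / 2 + D x + D A := by
  apply of_abs_bound a s hx
  obtain ⟨B, hB⟩ : ∃ B, B = s.filter (fun i => A / 2 < a i) := ⟨_, rfl⟩
  have hsub : B ⊆ s := by rw [hB]; exact Finset.filter_subset _ _
  have h := smallball a s B hsub x hx (fun i hi => by
    rw [hB] at hi
    have := (Finset.mem_filter.1 hi).2
    linarith)
  refine h.trans ((choose_bound B.card).trans ?_)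
  -- number of large weights
  have hm : 1 - 0.155 * A ^ 2 ≤ B.card * A ^ 2 := by
    have h1 : ∑ i ∈ B, a i ^ 2 + ∑ i ∈ s.filter (fun i => a i ≤ A / 2), a i ^ 2 = 1 := by
      rw [hB, ← hs, ← Finset.sum_filter_add_sum_filter_not s (fun i => A / 2 < a i)]
      congr 1
      apply Finset.sum_congr _ fun _ _ => rfl
      ext i
      simp only [Finset.mem_filter, not_lt]
    have h2 : ∑ i ∈ B, a i ^ 2 ≤ B.card * A ^ 2 := by
      rw [← nsmul_eq_mul]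
      apply Finset.sum_le_card_nsmul
      intro i hi
      have := ha i (hsub hi)
      exact pow_le_pow_left₀ this.1 this.2 2
    linarith
  have hr := rho_pos
  have hsq : Real.sqrt (2 / π) = 1 / rho := by
    have h1 : (2 : ℝ) / π = 1 / (π / 2) := by rw [one_div_div]
    unfold rho
    rw [h1, Real.sqrt_div zero_le_one, Real.sqrt_one]
  rw [hsq]
  have hGx := G_nonneg hx
  have hDD : 2 * D x + 2 * D A = (G x + G A) / rho := by unfold D; field_simp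
  have hα : 0 < A ^ 2 := by positivity
  have hG := G_ge A hA0.le
  have hg : A * (1 - A ^ 2 / 6 + (A ^ 2) ^ 2 / 40 - (A ^ 2) ^ 3 / 336) ≤ G A := by
    refine le_trans (le_of_eq ?_) hG
    ring
  have hA2 : A ^ 2 ≤ 0.2401 := by nlinarith
  have hgpos : 0 < 1 - A ^ 2 / 6 + (A ^ 2) ^ 2 / 40 - (A ^ 2) ^ 3 / 336 := by
    have : (A ^ 2) ^ 3 ≤ 1 := by
      calc (A ^ 2) ^ 3 ≤ (0.2401) ^ 3 := pow_le_pow_left₀ hα.le hA2 3
        _ ≤ 1 := by norm_num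
    nlinarith [sq_nonneg (A ^ 2)]
  have hp := poly_sp hα.le hA2
  have hm2 : 1 + 0.345 * A ^ 2 ≤ A ^ 2 * ((B.card : ℝ) + 1 / 2) := by nlinarith
  have hroot : 0 < (B.card : ℝ) + 1 / 2 := by positivity
  have hkey : 1 ≤ (G x + G A) * Real.sqrt ((B.card : ℝ) + 1 / 2) := by
    have h1 : 1 ≤ ((A * (1 - A ^ 2 / 6 + (A ^ 2) ^ 2 / 40 - (A ^ 2) ^ 3 / 336)) *
        Real.sqrt ((B.card : ℝ) + 1 / 2)) ^ 2 := by
      rw [mul_pow, Real.sq_sqrt hroot.le, mul_pow]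
      calc (1 : ℝ) ≤ (1 - A ^ 2 / 6 + (A ^ 2) ^ 2 / 40 - (A ^ 2) ^ 3 / 336) ^ 2 *
            (1 + 0.345 * A ^ 2) := hp
        _ ≤ (1 - A ^ 2 / 6 + (A ^ 2) ^ 2 / 40 - (A ^ 2) ^ 3 / 336) ^ 2 *
            (A ^ 2 * ((B.card : ℝ) + 1 / 2)) := mul_le_mul_of_nonneg_left hm2 (sq_nonneg _)
        _ = _ := by ring
    have h2 : 0 ≤ (A * (1 - A ^ 2 / 6 + (A ^ 2) ^ 2 / 40 - (A ^ 2) ^ 3 / 336)) *
        Real.sqrt ((B.card : ℝ) + 1 / 2) := by positivity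
    have h3 : 1 ≤ (A * (1 - A ^ 2 / 6 + (A ^ 2) ^ 2 / 40 - (A ^ 2) ^ 3 / 336)) *
        Real.sqrt ((B.card : ℝ) + 1 / 2) := by
      nlinarith
    refine h3.trans (mul_le_mul_of_nonneg_right ?_ (Real.sqrt_nonneg _))
    linarith
  have hsp : 0 < Real.sqrt ((B.card : ℝ) + 1 / 2) := Real.sqrt_pos.2 hroot
  rw [hDD, div_div, div_le_div_iff₀ (by positivity) hr]
  have h1 := mul_le_mul_of_nonneg_left hkey hr.le
  linarith

end

end BE
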