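import Mathlib
import Pool.Agent.Lib.BE.Kernel

/-!
# Bounds for products of cosines
-/

set_option autoImplicit false
set_option linter.unusedSectionVars false

open MeasureTheory Set Filter Topology Real Finset

namespace BE

lemma cubic_poly {u : ℝ} (h0 : 0 ≤ u) (h2 : u ≤ 2) :
    1 - 0.3 * u ^ 2 ≤ (1 - u / 2 + u ^ 2 / 24 - u ^ 3 / 720) ^ 3 *
      (1 + 3 / 2 * u + (3 / 2 * u) ^ 2 / 2 + (3 / 2 * u) ^ 3 / 6 + (3 / 2 * u) ^ 4 / 24 +
        (3 / 2 * u) ^ 5 / 120) := by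
  have key : 0 ≤ (1/20) * u^0 + (-1/15) * u^1 + (7/640) * u^2 + (29/2880) * u^3 + (-3077/230400) * u^4 + (14159/691200) * u^5 + (-157469/16588800) * u^6 + (693899/373248000) * u^7 + (-408113/1990656000) * u^8 + (9241/663552000) * u^9 + (-157/265420800) * u^10 + (13/884736000) * u^11 + (-1/5898240000) * u^12 := by
    rcases le_total u 1 with h | h
    · have h3 : 0 ≤ 1 - u := by linarith
      have e : (1/20) * u^0 + (-1/15) * u^1 + (7/640) * u^2 + (29/2880) * u^3 + (-3077/230400) * u^4 + (14159/691200) * u^5 + (-157469/16588800) * u^6 + (693899/373248000) * u^7 + (-408113/1990656000) * u^8 + (9241/663552000) * u^9 + (-157/265420800) * u^10 + (13/884736000) * u^11 + (-1/5898240000) * u^12 =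
      (1/20) * (1 - u)^12 +
      (8/15) * u * (1 - u)^11 +
      (4949/1920) * u^2 * (1 - u)^10 +
      (2683/360) * u^3 * (1 - u)^9 +
      (3299203/230400) * u^4 * (1 - u)^8 +
      (13263191/691200) * u^5 * (1 - u)^7 +
      (303619291/16588800) * u^6 * (1 - u)^6 +
      (1161939701/93312000) * u^7 * (1 - u)^5 +
      (35619438181/5971968000) * u^8 * (1 - u)^4 +
      (11677285013/5971968000) * u^9 * (1 - u)^3 +
      (5007762841/11943936000) * u^10 * (1 - u)^2 +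
      (261715883/4777574400) * u^11 * (1 - u) +
      (1741347859/477757440000) * u^12 := by ring
      rw [e]
      positivity
    · have h3 : 0 ≤ u - 1 := by linarith
      have h4 : 0 ≤ 2 - u := by linarith
      have e : (1/20) * u^0 + (-1/15) * u^1 + (7/640) * u^2 + (29/2880) * u^3 + (-3077/230400) * u^4 + (14159/691200) * u^5 + (-157469/16588800) * u^6 + (693899/373248000) * u^7 + (-408113/1990656000) * u^8 + (9241/663552000) * u^9 + (-157/265420800) * u^10 + (13/884736000) * u^11 + (-1/5898240000) * u^12 =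
      (1741347859/477757440000) * (2 - u)^12 +
      (3905190079/119439360000) * (u - 1) * (2 - u)^11 +
      (10531425727/59719680000) * (u - 1)^2 * (2 - u)^10 +
      (473812847/597196800) * (u - 1)^3 * (2 - u)^9 +
      (2086149341/746496000) * (u - 1)^4 * (2 - u)^8 +
      (26298853607/3732480000) * (u - 1)^5 * (2 - u)^7 +
      (15454773461/1244160000) * (u - 1)^6 * (2 - u)^6 +
      (14292499897/933120000) * (u - 1)^7 * (2 - u)^5 +
      (982664389/74649600) * (u - 1)^8 * (2 - u)^4 +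
      (721800379/93312000) * (u - 1)^9 * (2 - u)^3 +
      (345917311/116640000) * (u - 1)^10 * (2 - u)^2 +
      (19503701/29160000) * (u - 1)^11 * (2 - u) +
      (122681/1822500) * (u - 1)^12 := by ring
      rw [e]
      positivity
  have h5 := mul_nonneg (sq_nonneg u) key
  have e : u ^ 2 * ((1/20) * u^0 + (-1/15) * u^1 + (7/640) * u^2 + (29/2880) * u^3 + (-3077/230400) * u^4 + (14159/691200) * u^5 + (-157469/16588800) * u^6 + (693899/373248000) * u^7 + (-408113/1990656000) * u^8 + (9241/663552000) * u^9 + (-157/265420800) * u^10 + (13/884736000) * u^11 + (-1/5898240000) * u^12) = (1 - u / 2 + u ^ 2 / 24 - u ^ 3 / 720) ^ 3 *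
      (1 + 3 / 2 * u + (3 / 2 * u) ^ 2 / 2 + (3 / 2 * u) ^ 3 / 6 + (3 / 2 * u) ^ 4 / 24 +
        (3 / 2 * u) ^ 5 / 120) - (1 - 0.3 * u ^ 2) := by ring
  rw [e] at h5
  linarith

lemma exp_ge5 {x : ℝ} (hx : 0 ≤ x) :
    1 + x + x ^ 2 / 2 + x ^ 3 / 6 + x ^ 4 / 24 + x ^ 5 / 120 ≤ exp x := by
  have h := Real.sum_le_exp_of_nonneg hx 6
  simp only [Finset.sum_range_succ, Finset.range_zero, Finset.sum_empty, Nat.factorial] at h
  push_cast at h
  norm_num at h
  linarith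

/-- The cubic cosine bound. -/
lemma cos_cubic {θ : ℝ} (h0 : 0 ≤ θ) (h1 : θ ≤ π / 2) :
    1 - 0.3 * θ ^ 4 ≤ (cos θ * exp (θ ^ 2 / 2)) ^ 3 := by
  have hc : 0 ≤ cos θ := cos_nonneg_of_neg_pi_div_two_le_of_le (by linarith [pi_pos]) h1
  rcases le_total (1 - 0.3 * θ ^ 4) 0 with h | h
  · exact h.trans (by positivity)
  · have hu2 : θ ^ 2 ≤ 1.83 := by nlinarith [sq_nonneg θ]
    have hc6 := cos_ge6 θ h0
    have hp := cubic_poly (u := θ ^ 2) (sq_nonneg θ) (by linarith)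
    have hu0 : 0 ≤ θ ^ 2 := sq_nonneg θ
    have hpos : 0 ≤ 1 - θ ^ 2 / 2 + (θ ^ 2) ^ 2 / 24 - (θ ^ 2) ^ 3 / 720 := by
      nlinarith [mul_nonneg hu0 (sub_nonneg.2 hu2), mul_nonneg (mul_nonneg hu0 hu0)
        (sub_nonneg.2 hu2)]
    have he := exp_ge5 (x := 3 / 2 * θ ^ 2) (by positivity)
    have h3 : (1 - θ ^ 2 / 2 + (θ ^ 2) ^ 2 / 24 - (θ ^ 2) ^ 3 / 720) ^ 3 ≤ cos θ ^ 3 := by
      refine pow_le_pow_left₀ hpos ?_ 3
      calc _ = 1 - θ ^ 2 / 2 + θ ^ 4 / 24 - θ ^ 6 / 720 := by ring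
        _ ≤ _ := hc6
    have h4 : (cos θ * exp (θ ^ 2 / 2)) ^ 3 = cos θ ^ 3 * exp (3 / 2 * θ ^ 2) := by
      rw [mul_pow, ← exp_nat_mul]
      congr 2
      push_cast
      ring
    rw [h4]
    calc 1 - 0.3 * θ ^ 4 = 1 - 0.3 * (θ ^ 2) ^ 2 := by ring
      _ ≤ _ := hp
      _ ≤ _ := by
        refine mul_le_mul h3 he ?_ (pow_nonneg hc 3)
        positivity

lemma prod_ga {ι : Type*} (a : ι → ℝ) (s : Finset ι) (u : ℝ) :
    ∏ i ∈ s, ga (a i * u) = exp (-(∑ i ∈ s, a i ^ 2) * u ^ 2 / 2) := by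
  unfold ga
  rw [← exp_sum]
  congr 1
  rw [neg_mul, neg_div, Finset.sum_mul, Finset.sum_div, ← Finset.sum_neg_distrib]
  exact Finset.sum_congr rfl fun i _ => by ring

variable {ι : Type*} [Fintype ι] [DecidableEq ι]

section
variable {a : ι → ℝ} {s : Finset ι} {A : ℝ}

lemma arg_le (ha : ∀ i ∈ s, 0 ≤ a i ∧ a i ≤ A) (hA : 0 < A) {t : ℝ} (ht0 : 0 ≤ t)
    (ht : t ≤ π / (2 * A)) {i : ι} (hi : i ∈ s) : 0 ≤ a i * t ∧ a i * t ≤ π / 2 := by
  obtain ⟨h1, h2⟩ := ha i hi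
  refine ⟨mul_nonneg h1 ht0, ?_⟩
  calc a i * t ≤ A * (π / (2 * A)) := mul_le_mul h2 ht ht0 hA.le
    _ = π / 2 := by field_simp

lemma phi_nonneg (ha : ∀ i ∈ s, 0 ≤ a i ∧ a i ≤ A) (hA : 0 < A) {t : ℝ} (ht0 : 0 ≤ t)
    (ht : t ≤ π / (2 * A)) : 0 ≤ phi a s t := by
  unfold phi
  refine prod_nonneg fun i hi => ?_
  have := arg_le ha hA ht0 ht hi
  exact cos_nonneg_of_neg_pi_div_two_le_of_le (by linarith [pi_pos]) this.2

lemma phi_le_ga (ha : ∀ i ∈ s, 0 ≤ a i ∧ a i ≤ A) (hA : 0 < A) (hs : ∑ i ∈ s, a i ^ 2 = 1)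
    {t : ℝ} (ht0 : 0 ≤ t) (ht : t ≤ π / (2 * A)) : phi a s t ≤ ga t := by
  have h : phi a s t ≤ ∏ i ∈ s, ga (a i * t) := by
    unfold phi
    refine prod_le_prod (fun i hi => ?_) fun i hi => ?_
    · have := arg_le ha hA ht0 ht hi
      exact cos_nonneg_of_neg_pi_div_two_le_of_le (by linarith [pi_pos]) this.2
    · have := arg_le ha hA ht0 ht hi
      exact cos_le_ga this.1 (by linarith [this.2, pi_lt_d2])
  rw [prod_ga, hs] at h
  refine h.trans_eq ?_
  unfold ga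
  congr 1
  ring

/-- Lower bound for the characteristic function. -/
lemma phi_ge (ha : ∀ i ∈ s, 0 ≤ a i ∧ a i ≤ A) (hA : 0 < A) (hA3 : A ^ 2 ≤ 1 / 3)
    (hs : ∑ i ∈ s, a i ^ 2 = 1) {t : ℝ} (ht0 : 0 ≤ t) (ht : t ≤ π / (2 * A)) :
    ga t * (1 - A ^ 2 * t ^ 4 / 10) ≤ phi a s t := by
  have hAt : A * t ≤ π / 2 := by
    calc A * t ≤ A * (π / (2 * A)) := mul_le_mul_of_nonneg_left ht hA.le
      _ = π / 2 := by field_simp
  set q : ℝ := 0.3 * (A * t) ^ 4 with hq
  have hq0 : 0 ≤ q := by positivity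
  have hν : 1 ≤ 1 / A ^ 2 / 3 := by
    rw [div_div, le_div_iff₀ (by positivity)]
    linarith
  have hqe : A ^ 2 * t ^ 4 / 10 = 1 / A ^ 2 / 3 * q := by
    rw [hq]
    field_simp
    norm_num
    ring
  rcases le_total 1 q with h1 | h1
  · have h2 : 1 - A ^ 2 * t ^ 4 / 10 ≤ 0 := by
      rw [hqe]
      nlinarith
    exact (mul_nonpos_of_nonneg_of_nonpos (ga_pos t).le h2).trans (phi_nonneg ha hA ht0 ht)
  · -- the main case
    have hphi : phi a s t = ga t * ∏ i ∈ s, (cos (a i * t) * exp ((a i * t) ^ 2 / 2)) := by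
      rw [prod_mul_distrib, ← exp_sum]
      have e : ∑ i ∈ s, (a i * t) ^ 2 / 2 = t ^ 2 / 2 := by
        rw [← Finset.sum_div]
        congr 1
        simp only [mul_pow]
        rw [← Finset.sum_mul, hs, one_mul]
      rw [e]
      unfold phi ga
      rw [mul_comm, mul_assoc, ← exp_add]
      have : t ^ 2 / 2 + -t ^ 2 / 2 = 0 := by ring
      rw [this, exp_zero, mul_one]
    rw [hphi]
    refine mul_le_mul_of_nonneg_left ?_ (ga_pos t).le
    have hb0 : ∀ i ∈ s, 0 ≤ cos (a i * t) * exp ((a i * t) ^ 2 / 2) := fun i hi => by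
      have := arg_le ha hA ht0 ht hi
      exact mul_nonneg (cos_nonneg_of_neg_pi_div_two_le_of_le (by linarith [pi_pos]) this.2)
        (exp_pos _).le
    have hb : ∀ i ∈ s, (1 - q) ^ (a i ^ 2 / A ^ 2) ≤
        (cos (a i * t) * exp ((a i * t) ^ 2 / 2)) ^ 3 := fun i hi => by
      have h3 := arg_le ha hA ht0 ht hi
      have h4 := cos_cubic h3.1 h3.2
      obtain ⟨h5, h6⟩ := ha i hi
      have hr0 : 0 ≤ a i ^ 2 / A ^ 2 := by positivity
      have hr1 : a i ^ 2 / A ^ 2 ≤ 1 := by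
        rw [div_le_one (by positivity)]
        exact pow_le_pow_left₀ h5 h6 2
      have h7 := rpow_one_add_le_one_add_mul_self (s := -q) (by linarith) hr0 hr1
      have h8 : (1 - q) ^ (a i ^ 2 / A ^ 2) ≤ 1 - a i ^ 2 / A ^ 2 * q := by
        have e : 1 + -q = 1 - q := by ring
        rw [e] at h7
        linarith
      refine h8.trans (le_trans ?_ h4)
      have h9 : 0.3 * (a i * t) ^ 4 = (a i ^ 2 / A ^ 2) ^ 2 * q := by
        rw [hq]; field_simp
      rw [h9]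
      have h10 : (a i ^ 2 / A ^ 2) ^ 2 ≤ a i ^ 2 / A ^ 2 := by nlinarith
      have := mul_le_mul_of_nonneg_right h10 hq0
      linarith
    have h3 : (1 - q) ^ (1 / A ^ 2) ≤
        (∏ i ∈ s, (cos (a i * t) * exp ((a i * t) ^ 2 / 2))) ^ 3 := by
      rw [← Finset.prod_pow]
      have e : (1 - q) ^ (1 / A ^ 2) = ∏ i ∈ s, (1 - q) ^ (a i ^ 2 / A ^ 2) := by
        rw [← rpow_sum_of_nonneg (by linarith) (fun i hi => by positivity), ← Finset.sum_div, hs]
      rw [e]
      exact prod_le_prod (fun i _ => rpow_nonneg (by linarith) _) hb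
    have h4 : (1 - q) ^ (1 / A ^ 2) = ((1 - q) ^ (1 / A ^ 2 / 3)) ^ 3 := by
      rw [← rpow_natCast ((1 - q) ^ (1 / A ^ 2 / 3)) 3, ← rpow_mul (by linarith)]
      congr 1
      push_cast
      ring
    rw [h4] at h3
    have h5 : (1 - q) ^ (1 / A ^ 2 / 3) ≤ ∏ i ∈ s, (cos (a i * t) * exp ((a i * t) ^ 2 / 2)) :=
      le_of_pow_le_pow_left₀ (by norm_num) (prod_nonneg hb0) h3
    have h6 := one_add_mul_self_le_rpow_one_add (s := -q) (by linarith) hν
    have e : 1 + -q = 1 - q := by ring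
    rw [e] at h6
    rw [hqe]
    linarith

/-- Single factor bound near the reflected frequency. -/
lemma abs_cos_reflect {b A u : ℝ} (hb0 : 0 ≤ b) (hbA : b ≤ A) (hA : 0 < A) (hu0 : 0 ≤ u)
    (hu : u ≤ π / (2 * A)) : |cos (b * (π / A - u))| ≤ ga (b * u) := by
  have hπ := pi_pos
  have hu2 : u ≤ π / A - u := by
    have : π / A = 2 * (π / (2 * A)) := by field_simp
    linarith
  rcases le_total (b * (π / A - u)) (π / 2) with h | h
  · have h0 : 0 ≤ b * (π / A - u) := mul_nonneg hb0 (by linarith)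
    rw [abs_of_nonneg (cos_nonneg_of_neg_pi_div_two_le_of_le (by linarith) h)]
    refine (cos_le_ga h0 (by linarith [pi_lt_d2])).trans (ga_anti (mul_nonneg hb0 hu0) ?_)
    exact mul_le_mul_of_nonneg_left hu2 hb0
  · have h1 : b * (π / A) ≤ π := by
      calc b * (π / A) ≤ A * (π / A) := mul_le_mul_of_nonneg_right hbA (by positivity)
        _ = π := by field_simp
    have h2 : b * u ≤ π - b * (π / A - u) := by linarith
    have h3 : 0 ≤ b * u := mul_nonneg hb0 hu0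
    have h4 : |cos (b * (π / A - u))| = cos (π - b * (π / A - u)) := by
      rw [cos_pi_sub, abs_of_nonpos]
      refine cos_nonpos_of_pi_div_two_le_of_le h ?_
      linarith
    rw [h4]
    exact (cos_le_ga (by linarith) (by linarith [pi_lt_d2])).trans (ga_anti h3 h2)

lemma phi_end (ha : ∀ i ∈ s, 0 ≤ a i ∧ a i ≤ A) (hA : 0 < A) (hs : ∑ i ∈ s, a i ^ 2 = 1)
    {u : ℝ} (hu0 : 0 ≤ u) (hu : u ≤ π / (2 * A)) : |phi a s (π / A - u)| ≤ ga u := by
  unfold phi
  rw [Finset.abs_prod]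
  calc ∏ i ∈ s, |cos (a i * (π / A - u))| ≤ ∏ i ∈ s, ga (a i * u) :=
        prod_le_prod (fun i _ => abs_nonneg _)
          fun i hi => abs_cos_reflect (ha i hi).1 (ha i hi).2 hA hu0 hu
    _ = ga u := by
      rw [prod_ga, hs]
      unfold ga
      congr 1
      ring

/-- Improved bound near the reflected frequency when small weights are present. -/
lemma phi_end_small (ha : ∀ i ∈ s, 0 ≤ a i ∧ a i ≤ A) (hA : 0 < A) (hs : ∑ i ∈ s, a i ^ 2 = 1)
    {z : ℝ} (hz : A ^ 2 * z ≤ ∑ i ∈ s.filter (fun i => a i ≤ A / 2), a i ^ 2)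
    {u : ℝ} (hu0 : 0 ≤ u) (hu : u ≤ π / (2 * A)) :
    |phi a s (π / A - u)| ≤ ga u * exp (-(π ^ 2 * z / 2) * (1 - 2 * A * u / π)) := by
  have hπ := pi_pos
  have hu2 : u ≤ π / A - u := by
    have : π / A = 2 * (π / (2 * A)) := by field_simp
    linarith
  unfold phi
  rw [Finset.abs_prod, ← prod_filter_mul_prod_filter_not s (fun i => a i ≤ A / 2)]
  have h1 : ∏ i ∈ s.filter (fun i => a i ≤ A / 2), |cos (a i * (π / A - u))| ≤
      ∏ i ∈ s.filter (fun i => a i ≤ A / 2), ga (a i * (π / A - u)) := by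
    refine prod_le_prod (fun i _ => abs_nonneg _) fun i hi => ?_
    rw [Finset.mem_filter] at hi
    obtain ⟨hi1, hi2⟩ := hi
    have hb0 := (ha i hi1).1
    have h3 : 0 ≤ a i * (π / A - u) := mul_nonneg hb0 (by linarith)
    have h4 : a i * (π / A - u) ≤ π / 2 := by
      calc a i * (π / A - u) ≤ A / 2 * (π / A) :=
            mul_le_mul hi2 (by linarith) (by linarith) (by positivity)
        _ = π / 2 := by field_simp
    rw [abs_of_nonneg (cos_nonneg_of_neg_pi_div_two_le_of_le (by linarith) h4)]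
    exact cos_le_ga h3 (by linarith [pi_lt_d2])
  have h2 : ∏ i ∈ s.filter (fun i => ¬a i ≤ A / 2), |cos (a i * (π / A - u))| ≤
      ∏ i ∈ s.filter (fun i => ¬a i ≤ A / 2), ga (a i * u) := by
    refine prod_le_prod (fun i _ => abs_nonneg _) fun i hi => ?_
    rw [Finset.mem_filter] at hi
    exact abs_cos_reflect (ha i hi.1).1 (ha i hi.1).2 hA hu0 hu
  refine (mul_le_mul h1 h2 (prod_nonneg fun _ _ => abs_nonneg _)
    (prod_nonneg fun _ _ => (ga_pos _).le)).trans ?_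
  rw [prod_ga, prod_ga, ← exp_add]
  unfold ga
  rw [← exp_add]
  apply exp_le_exp.2
  have hsum := sum_filter_add_sum_filter_not s (fun i => a i ≤ A / 2) (fun i => a i ^ 2)
  rw [hs] at hsum
  set S1 := ∑ i ∈ s.filter (fun i => a i ≤ A / 2), a i ^ 2
  set S2 := ∑ i ∈ s.filter (fun i => ¬a i ≤ A / 2), a i ^ 2
  have e2 : S2 = 1 - S1 := by linarith
  rw [e2]
  have e3 : (π / A - u) ^ 2 = u ^ 2 + π / A * (π / A - 2 * u) := by ring
  rw [e3]
  have h5 : 0 ≤ π / A * (π / A - 2 * u) := mul_nonneg (by positivity) (by linarith)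
  have h6 := mul_le_mul_of_nonneg_right hz h5
  have e4 : A ^ 2 * z * (π / A * (π / A - 2 * u)) = π ^ 2 * z * (1 - 2 * A * u / π) := by
    field_simp
  rw [e4] at h6
  linarith

end

end BE
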