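import Mathlib
import Pool.Agent.Lib.BE.Prod

/-!
# The master inequality
-/

set_option autoImplicit false
set_option linter.unusedSectionVars false

open MeasureTheory Set Filter Topology Real

namespace BE

/-- First moment cosine transform. -/
noncomputable def C1 (x : ℝ) : ℝ := ∫ t in Ioi (0 : ℝ), (t * cos (x * t)) * ga t

/-- The base part of the kernel. -/
noncomputable def base (A x t : ℝ) : ℝ := sin (x * t) / t + A * (1 - A * t / π) * cos (x * t)

lemma int_base (A x : ℝ) : IntegrableOn (fun t => base A x t * ga t) (Ioi 0) := by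
  have h := ((int_sinc x).add ((int_cos x).const_mul A)).sub ((int_tcos x).const_mul (A ^ 2 / π))
  refine h.congr (Eventually.of_forall fun t => ?_)
  simp only [Pi.add_apply, Pi.sub_apply]
  unfold base
  ring

lemma integral_base (A x : ℝ) : ∫ t in Ioi (0 : ℝ), base A x t * ga t =
    rho * G x + A * (rho * ga x) - A ^ 2 / π * C1 x := by
  have h : ∫ t in Ioi (0 : ℝ), base A x t * ga t = ∫ t in Ioi (0 : ℝ),
      ((sin (x * t) / t * ga t + A * (cos (x * t) * ga t)) -
        A ^ 2 / π * ((t * cos (x * t)) * ga t)) := by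
    refine integral_congr_ae (Eventually.of_forall fun t => ?_)
    simp only
    unfold base
    ring
  have hadd : IntegrableOn (fun t => sin (x * t) / t * ga t + A * (cos (x * t) * ga t)) (Ioi 0) :=
    (int_sinc x).add ((int_cos x).const_mul A)
  rw [h, integral_sub hadd ((int_tcos x).const_mul (A ^ 2 / π)),
    integral_add (int_sinc x) ((int_cos x).const_mul A),
    integral_const_mul, integral_const_mul, sin_int, cos_int]
  rfl

lemma C1_ge_neg_one (x : ℝ) : -1 ≤ C1 x := by
  have h : ∫ t in Ioi (0 : ℝ), -(t * ga t) ≤ C1 x := by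
    unfold C1
    have h1 : IntegrableOn (fun t => -(t * ga t)) (Ioi 0) := by
      have := (int_pow_ga 1).neg
      simpa using this
    refine setIntegral_mono_on h1 (int_tcos x) measurableSet_Ioi fun t ht => ?_
    have h2 := neg_one_le_cos (x * t)
    have h3 : 0 < t * ga t := mul_pos ht (ga_pos t)
    nlinarith
  rw [integral_neg, tail_one] at h
  have : ga 0 = 1 := by unfold ga; simp
  rw [this] at h
  exact h

lemma C1_ge (x : ℝ) (hx : 0 ≤ x) : 1 - x ^ 2 + x ^ 4 / 3 - x ^ 6 / 15 ≤ C1 x := by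
  have h := integral_poly 8 (fun k => match k with
    | 1 => 1 | 3 => -x ^ 2 / 2 | 5 => x ^ 4 / 24 | 7 => -x ^ 6 / 720 | _ => 0)
  have hi := int_poly 8 (fun k => match k with
    | 1 => 1 | 3 => -x ^ 2 / 2 | 5 => x ^ 4 / 24 | 7 => -x ^ 6 / 720 | _ => 0)
  simp only [Finset.sum_range_succ, Finset.range_zero, Finset.sum_empty] at h hi
  rw [mo_one, mo3, mo5, mo7] at h
  have h2 : 1 - x ^ 2 + x ^ 4 / 3 - x ^ 6 / 15 = ∫ t in Ioi (0 : ℝ),
      (0 + 0 * t ^ 0 + 1 * t ^ 1 + 0 * t ^ 2 + -x ^ 2 / 2 * t ^ 3 + 0 * t ^ 4 +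
        x ^ 4 / 24 * t ^ 5 + 0 * t ^ 6 + -x ^ 6 / 720 * t ^ 7) * ga t := by
    rw [h]; ring
  rw [h2]
  unfold C1
  refine setIntegral_mono_on hi (int_tcos x) measurableSet_Ioi fun t ht => ?_
  have ht0 : 0 < t := ht
  refine mul_le_mul_of_nonneg_right ?_ (ga_pos t).le
  have h3 := mul_le_mul_of_nonneg_left (cos_ge6 (x * t) (by positivity)) ht0.le
  calc _ = t * (1 - (x * t) ^ 2 / 2 + (x * t) ^ 4 / 24 - (x * t) ^ 6 / 720) := by ring
    _ ≤ _ := h3

lemma C1_ge2 (x : ℝ) : 1 - x ^ 2 ≤ C1 x := by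
  have h := integral_poly 4 (fun k => match k with | 1 => 1 | 3 => -x ^ 2 / 2 | _ => 0)
  have hi := int_poly 4 (fun k => match k with | 1 => 1 | 3 => -x ^ 2 / 2 | _ => 0)
  simp only [Finset.sum_range_succ, Finset.range_zero, Finset.sum_empty] at h hi
  rw [mo_one, mo3] at h
  have h2 : 1 - x ^ 2 = ∫ t in Ioi (0 : ℝ),
      (0 + 0 * t ^ 0 + 1 * t ^ 1 + 0 * t ^ 2 + -x ^ 2 / 2 * t ^ 3) * ga t := by
    rw [h]; ring
  rw [h2]
  unfold C1
  refine setIntegral_mono_on hi (int_tcos x) measurableSet_Ioi fun t ht => ?_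
  have ht0 : 0 < t := ht
  refine mul_le_mul_of_nonneg_right ?_ (ga_pos t).le
  have h3 := mul_le_mul_of_nonneg_left (one_sub_sq_div_two_le_cos (x := x * t)) ht0.le
  calc _ = t * (1 - (x * t) ^ 2 / 2) := by ring
    _ ≤ _ := h3

/-! ### Tails -/

lemma int_t_ga (c : ℝ) : IntegrableOn (fun t => t * ga t) (Ioi c) := by
  have h1 : Integrable (fun t : ℝ => t * exp (-(1 / 2) * t ^ 2)) :=
    integrable_mul_exp_neg_mul_sq (by norm_num)
  have h2 : (fun t : ℝ => t * exp (-(1 / 2) * t ^ 2)) = fun t => t * ga t := by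
    funext t; rw [ga_eq]
  rw [h2] at h1
  exact h1.integrableOn

lemma tail_general {A : ℝ} (hA : 0 < A) (x : ℝ) :
    -∫ t in Ioi (π / (2 * A)), base A x t * ga t ≤
      (4 / π ^ 2 + 1 / π) * A ^ 2 * ga (π / (2 * A)) := by
  have hπ := pi_pos
  have ht0 : 0 < π / (2 * A) := by positivity
  rw [← integral_neg, ← tail_one, ← integral_const_mul]
  refine setIntegral_mono_on ((int_base A x).mono_set (Ioi_subset_Ioi ht0.le)).neg
    ((int_t_ga _).const_mul _) measurableSet_Ioi fun t ht => ?_
  have ht1 : π / (2 * A) < t := ht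
  have htp : 0 < t := ht0.trans ht1
  rw [← mul_assoc, ← neg_mul]
  refine mul_le_mul_of_nonneg_right ?_ (ga_pos t).le
  unfold base
  have h1 : π < 2 * A * t := by
    rw [div_lt_iff₀ (by positivity)] at ht1
    linarith
  have hs : -(sin (x * t) / t) ≤ 4 / π ^ 2 * A ^ 2 * t := by
    have h2 := neg_one_le_sin (x * t)
    have h3 : -(sin (x * t) / t) ≤ 1 / t := by
      rw [← neg_div]
      exact div_le_div_of_nonneg_right (by linarith) htp.le
    refine h3.trans ?_
    rw [div_le_iff₀ htp, div_mul_eq_mul_div, div_mul_eq_mul_div, div_mul_eq_mul_div,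
      le_div_iff₀ (by positivity)]
    nlinarith
  have hv : A * t / π ≥ 1 / 2 := by
    rw [ge_iff_le, le_div_iff₀ hπ]; linarith
  have hc : -(A * (1 - A * t / π) * cos (x * t)) ≤ 1 / π * A ^ 2 * t := by
    have h2 := neg_one_le_cos (x * t)
    have h3 := cos_le_one (x * t)
    have e : 1 / π * A ^ 2 * t = A * (A * t / π) := by ring
    rw [e]
    have h4 : -((1 - A * t / π) * cos (x * t)) ≤ A * t / π := by
      rcases le_total (A * t / π) 1 with h | h
      · nlinarith
      · nlinarith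
    nlinarith
  linarith

lemma tail_small {A : ℝ} (hA : 0 < A) {x : ℝ} (hx0 : 0 ≤ x) (hx : x ≤ A / 2) :
    -∫ t in Ioi (π / (2 * A)), base A x t * ga t ≤
      (1 / π ^ 2 + 1 / π) * A ^ 2 * ga (π / A) := by
  have hπ := pi_pos
  have ht0 : 0 < π / (2 * A) := by positivity
  have h12 : π / (2 * A) ≤ π / A := by
    apply div_le_div_of_nonneg_left hπ.le hA; linarith
  have hfull := (int_base A x).mono_set (Ioi_subset_Ioi ht0.le)
  rw [← Ioc_union_Ioi_eq_Ioi h12, setIntegral_union Ioc_disjoint_Ioi_same measurableSet_Ioi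
    (hfull.mono_set Ioc_subset_Ioi_self) (hfull.mono_set (Ioi_subset_Ioi h12))]
  have h1 : 0 ≤ ∫ t in Ioc (π / (2 * A)) (π / A), base A x t * ga t := by
    refine setIntegral_nonneg measurableSet_Ioc fun t ht => ?_
    refine mul_nonneg ?_ (ga_pos t).le
    have htp : 0 < t := ht0.trans ht.1
    have hxt : x * t ≤ π / 2 := by
      calc x * t ≤ A / 2 * (π / A) := mul_le_mul hx ht.2 htp.le (by positivity)
        _ = π / 2 := by field_simp
    have hxt0 : 0 ≤ x * t := by positivity
    have hs : 0 ≤ sin (x * t) := sin_nonneg_of_nonneg_of_le_pi hxt0 (by linarith)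
    have hc : 0 ≤ cos (x * t) := cos_nonneg_of_neg_pi_div_two_le_of_le (by linarith) hxt
    have hv : 0 ≤ 1 - A * t / π := by
      rw [sub_nonneg, div_le_one hπ]
      calc A * t ≤ A * (π / A) := mul_le_mul_of_nonneg_left ht.2 hA.le
        _ = π := by field_simp
    unfold base
    positivity
  have h2 : -∫ t in Ioi (π / A), base A x t * ga t ≤
      (1 / π ^ 2 + 1 / π) * A ^ 2 * ga (π / A) := by
    rw [← integral_neg, ← tail_one, ← integral_const_mul]
    have hp : 0 < π / A := by positivity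
    refine setIntegral_mono_on ((int_base A x).mono_set (Ioi_subset_Ioi hp.le)).neg
      ((int_t_ga _).const_mul _) measurableSet_Ioi fun t ht => ?_
    have ht1 : π / A < t := ht
    have htp : 0 < t := hp.trans ht1
    rw [← mul_assoc, ← neg_mul]
    refine mul_le_mul_of_nonneg_right ?_ (ga_pos t).le
    unfold base
    have h1 : π < A * t := by
      rw [div_lt_iff₀ hA] at ht1
      linarith
    have hs : -(sin (x * t) / t) ≤ 1 / π ^ 2 * A ^ 2 * t := by
      have h2 := neg_one_le_sin (x * t)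
      have h3 : -(sin (x * t) / t) ≤ 1 / t := by
        rw [← neg_div]
        exact div_le_div_of_nonneg_right (by linarith) htp.le
      refine h3.trans ?_
      rw [div_le_iff₀ htp, div_mul_eq_mul_div, div_mul_eq_mul_div, div_mul_eq_mul_div,
        le_div_iff₀ (by positivity)]
      nlinarith
    have hv : 1 ≤ A * t / π := by
      rw [le_div_iff₀ hπ]; linarith
    have hc : -(A * (1 - A * t / π) * cos (x * t)) ≤ 1 / π * A ^ 2 * t := by
      have h2 := neg_one_le_cos (x * t)
      have h3 := cos_le_one (x * t)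
      have e : 1 / π * A ^ 2 * t = A * (A * t / π) := by ring
      rw [e]
      have h4 : -((1 - A * t / π) * cos (x * t)) ≤ A * t / π := by nlinarith
      nlinarith
    linarith
  linarith

/-! ### The reflected part -/

lemma P_reflect {A x u : ℝ} (hA : 0 < A) (hu0 : 0 < u) (hu : u ≤ π / (2 * A)) :
    |P A x (π / A - u)| ≤ A ^ 2 * u / π * (1 + 0.0831 * (A * u) ^ 2) := by
  have hπ := pi_pos
  set β := A * u with hβ
  have hβ0 : 0 < β := by positivity
  have hβ1 : β ≤ π / 2 := by
    calc A * u ≤ A * (π / (2 * A)) := mul_le_mul_of_nonneg_left hu hA.le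
      _ = π / 2 := by field_simp
  have hs : 0 < sin β := sin_pos_of_pos_of_lt_pi hβ0 (by linarith)
  have e0 : A * (π / A - u) = π - β := by rw [hβ]; field_simp
  have e1 : P A x (π / A - u) =
      A * β / π * (cos (x * (π / A - u)) + rr β * sin (x * (π / A - u))) := by
    unfold P cw rr
    rw [e0, cos_pi_sub, sin_pi_sub]
    field_simp
    ring
  rw [e1, abs_mul, abs_of_nonneg (by positivity : 0 ≤ A * β / π)]
  have e2 : A ^ 2 * u / π = A * β / π := by rw [hβ]; ring
  rw [e2]
  refine mul_le_mul_of_nonneg_left ?_ (by positivity)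
  have hr0 : 0 ≤ rr β := by
    have := rr_ge hβ0 hβ1
    linarith
  have hr1 := rr_le' hβ0 hβ1
  set y := x * (π / A - u)
  have h1 : (cos y + rr β * sin y) ^ 2 ≤ 1 + rr β ^ 2 := by
    have := sin_sq_add_cos_sq y
    nlinarith [sq_nonneg (rr β * cos y - sin y)]
  have h2 : |cos y + rr β * sin y| ≤ 1 + rr β ^ 2 / 2 := by
    refine abs_le_of_sq_le_sq ?_ (by positivity)
    nlinarith [sq_nonneg (rr β ^ 2)]
  have h3 : rr β ^ 2 / 2 ≤ 0.0831 * β ^ 2 := by nlinarith
  linarith

variable {ι : Type*} [Fintype ι] [DecidableEq ι]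

section
variable {a : ι → ℝ} {s : Finset ι} {A : ℝ}

lemma P_integrable (hA : 0 < A) (x : ℝ) : IntervalIntegrable (P A x) volume 0 (π / A) := by
  have h := (Hi_integrable (x / A)).comp_mul_left (c := A)
  have h2 := (h.const_mul A)
  rw [zero_div] at h2
  refine h2.congr fun t _ => ?_
  unfold P
  have : x / A * (A * t) = x * t := by field_simp
  rw [this]

lemma Pphi_integrable (hA : 0 < A) (x : ℝ) :
    IntervalIntegrable (fun t => P A x t * phi a s t) volume 0 (π / A) :=
  (P_integrable hA x).mul_continuousOn (phi_continuous a s).continuousOn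

/-- Reflection of the second part of the integral. -/
lemma end_reflect (hA : 0 < A) (x : ℝ) :
    ∫ t in (π / (2 * A))..(π / A), P A x t * phi a s t =
      ∫ u in (0 : ℝ)..(π / (2 * A)), P A x (π / A - u) * phi a s (π / A - u) := by
  have h := intervalIntegral.integral_comp_sub_left (a := 0) (b := π / (2 * A))
    (fun t => P A x t * phi a s t) (π / A)
  rw [sub_zero] at h
  rw [h]
  congr 1
  field_simp
  ring

lemma end_integrable (hA : 0 < A) (x : ℝ) :
    IntervalIntegrable (fun u => P A x (π / A - u) * phi a s (π / A - u)) volume 0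
      (π / (2 * A)) := by
  have hπ := pi_pos
  have h := (Pphi_integrable (a := a) (s := s) hA x).comp_sub_left (π / A)
  rw [sub_zero, sub_self] at h
  refine (h.symm).mono_set ?_
  rw [uIcc_of_le (by positivity), uIcc_of_le (by positivity)]
  refine Icc_subset_Icc le_rfl ?_
  apply div_le_div_of_nonneg_left hπ.le hA; linarith

/-- General upper bound for the reflected part, with a weight `w`. -/
lemma end_bound (hA : 0 < A) (x : ℝ) {w : ℝ → ℝ} (hw0 : ∀ u, 0 < u → 0 ≤ w u)
    (hphi : ∀ u, 0 ≤ u → u ≤ π / (2 * A) → |phi a s (π / A - u)| ≤ ga u * w u)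
    (hwi : IntegrableOn (fun u => A ^ 2 * u / π * (1 + 0.0831 * (A * u) ^ 2) * w u * ga u)
      (Ioi 0)) :
    ∫ t in (π / (2 * A))..(π / A), P A x t * phi a s t ≤
      ∫ u in Ioi (0 : ℝ), A ^ 2 * u / π * (1 + 0.0831 * (A * u) ^ 2) * w u * ga u := by
  have hπ := pi_pos
  have ht0 : 0 < π / (2 * A) := by positivity
  rw [end_reflect hA, intervalIntegral.integral_of_le ht0.le]
  have h1 : ∫ u in Ioc 0 (π / (2 * A)), P A x (π / A - u) * phi a s (π / A - u) ≤
      ∫ u in Ioc 0 (π / (2 * A)), A ^ 2 * u / π * (1 + 0.0831 * (A * u) ^ 2) * w u * ga u := by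
    refine setIntegral_mono_on ?_ (hwi.mono_set Ioc_subset_Ioi_self) measurableSet_Ioc
      fun u hu => ?_
    · exact (intervalIntegrable_iff_integrableOn_Ioc_of_le ht0.le).1 (end_integrable hA x)
    · have h2 := P_reflect (x := x) hA hu.1 hu.2
      have h3 := hphi u hu.1.le hu.2
      calc P A x (π / A - u) * phi a s (π / A - u)
          ≤ |P A x (π / A - u) * phi a s (π / A - u)| := le_abs_self _
        _ = |P A x (π / A - u)| * |phi a s (π / A - u)| := abs_mul _ _
        _ ≤ A ^ 2 * u / π * (1 + 0.0831 * (A * u) ^ 2) * (ga u * w u) := by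
            refine mul_le_mul h2 h3 (abs_nonneg _) ?_
            have := hu.1
            positivity
        _ = _ := by ring
  refine h1.trans (setIntegral_mono_set hwi ?_ Ioc_subset_Ioi_self.eventuallyLE)
  refine (ae_restrict_iff' measurableSet_Ioi).2 (Eventually.of_forall fun u hu => ?_)
  have hu0 : 0 < u := hu
  have := hw0 u hu
  have := (ga_pos u).le
  simp only [Pi.zero_apply]
  positivity

/-- Upper bound for the reflected part. -/
lemma end_general (ha : ∀ i ∈ s, 0 ≤ a i ∧ a i ≤ A) (hA : 0 < A) (hs : ∑ i ∈ s, a i ^ 2 = 1)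
    (x : ℝ) : ∫ t in (π / (2 * A))..(π / A), P A x t * phi a s t ≤
      A ^ 2 / π * (1 + 0.1662 * A ^ 2) := by
  have h := integral_poly 4 (fun k => match k with
    | 1 => A ^ 2 / π | 3 => A ^ 2 / π * 0.0831 * A ^ 2 | _ => 0)
  have hi := int_poly 4 (fun k => match k with
    | 1 => A ^ 2 / π | 3 => A ^ 2 / π * 0.0831 * A ^ 2 | _ => 0)
  simp only [Finset.sum_range_succ, Finset.range_zero, Finset.sum_empty] at h hi
  rw [mo_one, mo3] at h
  have e : ∀ u : ℝ, A ^ 2 * u / π * (1 + 0.0831 * (A * u) ^ 2) * 1 * ga u =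
      (0 + 0 * u ^ 0 + A ^ 2 / π * u ^ 1 + 0 * u ^ 2 +
        A ^ 2 / π * 0.0831 * A ^ 2 * u ^ 3) * ga u := by
    intro u; ring
  have h2 := end_bound (a := a) (s := s) hA x (w := fun _ => 1) (fun _ _ => zero_le_one)
    (fun u hu0 hu => by rw [mul_one]; exact phi_end ha hA hs hu0 hu)
    (by simp only [e]; exact hi)
  simp only [e] at h2
  rw [h] at h2
  refine h2.trans (le_of_eq ?_)
  ring

/-! ### The master inequality -/

theorem master (hA : 0 < A) {x : ℝ}
    {W : ℝ → ℝ} (hWi : IntegrableOn (fun t => W t * ga t) (Ioc 0 (π / (2 * A)))) {w τ e : ℝ}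
    (hW : ∀ t, 0 < t → t ≤ π / (2 * A) → P A x t * phi a s t ≤ (base A x t + W t) * ga t)
    (hw : ∫ t in Ioc 0 (π / (2 * A)), W t * ga t ≤ w)
    (hτ : -∫ t in Ioi (π / (2 * A)), base A x t * ga t ≤ τ)
    (he : ∫ t in (π / (2 * A))..(π / A), P A x t * phi a s t ≤ e)
    (hfin : A * (rho * ga x) - A ^ 2 / π * C1 x + w + τ + e ≤ rho * G A) :
    Pr (fun ε => Sm a s ε ≤ x) ≤ 1 / 2 + D x + D A := by
  have hπ := pi_pos
  have ht0 : 0 < π / (2 * A) := by positivity
  have h12 : π / (2 * A) ≤ π / A := by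
    apply div_le_div_of_nonneg_left hπ.le hA; linarith
  have hb := bs_bound a s hA x
  have hsub1 : IntervalIntegrable (fun t => P A x t * phi a s t) volume 0 (π / (2 * A)) := by
    refine (Pphi_integrable hA x).mono_set ?_
    rw [uIcc_of_le ht0.le, uIcc_of_le (by positivity)]
    exact Icc_subset_Icc le_rfl h12
  have hsub2 : IntervalIntegrable (fun t => P A x t * phi a s t) volume (π / (2 * A)) (π / A) := by
    refine (Pphi_integrable hA x).mono_set ?_
    rw [uIcc_of_le h12, uIcc_of_le (by positivity)]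
    exact Icc_subset_Icc ht0.le le_rfl
  rw [← intervalIntegral.integral_add_adjacent_intervals hsub1 hsub2] at hb
  have h1 : ∫ t in (0 : ℝ)..(π / (2 * A)), P A x t * phi a s t ≤
      (∫ t in Ioc 0 (π / (2 * A)), base A x t * ga t) +
        ∫ t in Ioc 0 (π / (2 * A)), W t * ga t := by
    rw [intervalIntegral.integral_of_le ht0.le,
      ← integral_add ((int_base A x).mono_set Ioc_subset_Ioi_self) hWi]
    refine setIntegral_mono_on ?_ (((int_base A x).mono_set Ioc_subset_Ioi_self).add hWi)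
      measurableSet_Ioc fun t ht => ?_
    · exact (intervalIntegrable_iff_integrableOn_Ioc_of_le ht0.le).1 hsub1
    · have := hW t ht.1 ht.2
      rw [add_mul] at this
      exact this
  have h2 : ∫ t in Ioc 0 (π / (2 * A)), base A x t * ga t =
      (rho * G x + A * (rho * ga x) - A ^ 2 / π * C1 x) -
        ∫ t in Ioi (π / (2 * A)), base A x t * ga t := by
    rw [← integral_base, ← Ioc_union_Ioi_eq_Ioi ht0.le,
      setIntegral_union Ioc_disjoint_Ioi_same measurableSet_Ioi
      ((int_base A x).mono_set Ioc_subset_Ioi_self)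
      ((int_base A x).mono_set (Ioi_subset_Ioi ht0.le))]
    ring
  have h3 : π * (Pr (fun ε => Sm a s ε ≤ x) - 1 / 2) ≤ rho * (G x + G A) := by
    rw [h2] at h1
    linarith
  have hr := rho_pos
  have hr2 := rho_sq
  have hpi : π = 2 * rho ^ 2 := by linarith
  unfold D
  have h4 : (Pr (fun ε => Sm a s ε ≤ x) - 1 / 2) ≤ (G x + G A) / (2 * rho) := by
    rw [le_div_iff₀ (by positivity)]
    rw [hpi] at h3
    have h5 : rho * ((Pr (fun ε => Sm a s ε ≤ x) - 1 / 2) * (2 * rho)) ≤ rho * (G x + G A) := by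
      calc _ = 2 * rho ^ 2 * (Pr (fun ε => Sm a s ε ≤ x) - 1 / 2) := by ring
        _ ≤ _ := h3
    exact le_of_mul_le_mul_left h5 hr
  rw [add_div] at h4
  linarith

end

end BE
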