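import Mathlib
import Pool.Agent.Lib.BE.Gauss

/-!
# Polynomial inequalities
-/

set_option autoImplicit false

namespace BE

/-- Upper polynomial of the Gaussian. -/
noncomputable def gaU (X : ℝ) : ℝ := 1 - X ^ 2 / 2 + X ^ 4 / 8 - X ^ 6 / 48 + X ^ 8 / 384

/-- Minus the lower polynomial of `G A / A`. -/
noncomputable def GlA (A : ℝ) : ℝ := -1 + A ^ 2 / 6 - A ^ 4 / 40 + A ^ 6 / 336

/-- Upper polynomial for one minus the first moment transform. -/
noncomputable def XSp (X : ℝ) : ℝ := X ^ 2 - X ^ 4 / 3 + X ^ 6 / 15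

/-- The negative side polynomial. -/
noncomputable def Qneg (A X : ℝ) : ℝ := gaU X + GlA A + 0.25398 * A * (XSp X + 0.1662 * A ^ 2) +
  (A / 3 * (X - X ^ 3 / 2 + X ^ 5 / 8) -
    0.088 * 0.79788 * A ^ 2 * (2 * X - 4 / 3 * X ^ 3 + 2 / 5 * X ^ 5) +
    0.0059 * A ^ 3 * (3 * X - 5 / 2 * X ^ 3 + 7 / 8 * X ^ 5)) +
  (A / 10 * (3 * X - 5 / 2 * X ^ 3 + 7 / 8 * X ^ 5) + 0.28665 * A ^ 2 * X ^ 4) + 0.38 * A ^ 7

/-- The crude polynomial, with a free bound `y` for the first moment transform. -/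
noncomputable def Qcr (A g y : ℝ) : ℝ := g + GlA A + 0.25398 * A * (y + 0.1662 * A ^ 2) +
  (0.79789 / 3 * A - 0.088 * A ^ 2 + 0.0118 * 0.79789 * A ^ 3) +
  (0.79789 / 5 * A + 0.3 * A ^ 2 - 0.8 * 0.25397 * A ^ 3 + 0.038 * A ^ 4) + 0.38 * A ^ 7

/-- The positive side polynomial. -/
noncomputable def Qpos (A X : ℝ) : ℝ := gaU X + GlA A + 0.25398 * A * (XSp X + 0.1662 * A ^ 2) +
  (0.01395 * A * X ^ 5 + 0.28665 * A ^ 2 * X ^ 4) + 0.38 * A ^ 7

lemma qneg_diag {X : ℝ} (h0 : 0 ≤ X) (h1 : X ≤ 0.782) : Qneg (X / 1.7) X ≤ 0 := by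
  have h3 : 0 ≤ 391/500 - X := by linarith
  have e : Qneg (X / 1.7) X = -(X ^ 2 * ((945312500000000000/3097987362680400147) * (391/500 - X)^6 +
      (1504305514375000000/1032662454226800049) * X * (391/500 - X)^5 +
      (9374767454687500000/3097987362680400147) * X^2 * (391/500 - X)^4 +
      (11388916901723813000/3097987362680400147) * X^3 * (391/500 - X)^3 +
      (56702459380255247375/21685911538762801029) * X^4 * (391/500 - X)^2 +
      (22773351113892806196481/27107389423453501286250) * X^5 * (391/500 - X) +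
      (13579600348324677943803/578290974367008027440000) * X^6)) := by
    unfold Qneg gaU GlA XSp; ring
  rw [e]
  have h5 : 0 ≤ X ^ 2 * ((945312500000000000/3097987362680400147) * (391/500 - X)^6 +
      (1504305514375000000/1032662454226800049) * X * (391/500 - X)^5 +
      (9374767454687500000/3097987362680400147) * X^2 * (391/500 - X)^4 +
      (11388916901723813000/3097987362680400147) * X^3 * (391/500 - X)^3 +
      (56702459380255247375/21685911538762801029) * X^4 * (391/500 - X)^2 +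
      (22773351113892806196481/27107389423453501286250) * X^5 * (391/500 - X) +
      (13579600348324677943803/578290974367008027440000) * X^6) := by positivity
  linarith

lemma qneg_top {X : ℝ} (h0 : 0.782 ≤ X) (h1 : X ≤ 0.92) : Qneg 0.46 X ≤ 0 := by
  have h3 : 0 ≤ 23/25 - X := by linarith
  have h4 : 0 ≤ X - 391/500 := by linarith
  have e : Qneg 0.46 X = -(((4526533449441559314601/181302513976080000) * (23/25 - X)^8 +
      (34369431710431685151923/67988442741030000) * (X - 391/500) * (23/25 - X)^7 +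
      (27649641821319038564489/9712634677290000) * (X - 391/500)^2 * (23/25 - X)^6 +
      (2824652127137169111569/359727210270000) * (X - 391/500)^3 * (23/25 - X)^5 +
      (1214478657904988909479/97126346772900) * (X - 391/500)^4 * (23/25 - X)^4 +
      (58930218018480991154/4856317338645) * (X - 391/500)^5 * (23/25 - X)^3 +
      (2304134641455232456/323754489243) * (X - 391/500)^6 * (23/25 - X)^2 +
      (15818990146862926160/6798844274103) * (X - 391/500)^7 * (23/25 - X) +
      (2219335925780164160/6798844274103) * (X - 391/500)^8)) := by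
    unfold Qneg gaU GlA XSp; ring
  rw [e]
  have h5 : 0 ≤ ((4526533449441559314601/181302513976080000) * (23/25 - X)^8 +
      (34369431710431685151923/67988442741030000) * (X - 391/500) * (23/25 - X)^7 +
      (27649641821319038564489/9712634677290000) * (X - 391/500)^2 * (23/25 - X)^6 +
      (2824652127137169111569/359727210270000) * (X - 391/500)^3 * (23/25 - X)^5 +
      (1214478657904988909479/97126346772900) * (X - 391/500)^4 * (23/25 - X)^4 +
      (58930218018480991154/4856317338645) * (X - 391/500)^5 * (23/25 - X)^3 +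
      (2304134641455232456/323754489243) * (X - 391/500)^6 * (23/25 - X)^2 +
      (15818990146862926160/6798844274103) * (X - 391/500)^7 * (23/25 - X) +
      (2219335925780164160/6798844274103) * (X - 391/500)^8) := by positivity
  linarith

lemma qcr_diag {X : ℝ} (h0 : 0.92 ≤ X) (h1 : X ≤ 1.14) : Qcr (X / 2) (gaU X) (XSp X) ≤ 0 := by
  have h3 : 0 ≤ 57/50 - X := by linarith
  have h4 : 0 ≤ X - 23/25 := by linarith
  have e : Qcr (X / 2) (gaU X) (XSp X) = -(((2180290569386221/2046152955000) * (57/50 - X)^8 +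
      (1186483064628779/116923026000) * (X - 23/25) * (57/50 - X)^7 +
      (108032489584355639/2728203940000) * (X - 23/25)^2 * (57/50 - X)^6 +
      (456348273117676869/5456407880000) * (X - 23/25)^3 * (57/50 - X)^5 +
      (42858493142162723/409230591000) * (X - 23/25)^4 * (57/50 - X)^4 +
      (431189020731791017/5456407880000) * (X - 23/25)^5 * (57/50 - X)^3 +
      (149872890029439659/4365126304000) * (X - 23/25)^6 * (57/50 - X)^2 +
      (11039348712843053/1488111240000) * (X - 23/25)^7 * (57/50 - X) +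
      (10869304601851327/21825631520000) * (X - 23/25)^8)) := by
    unfold Qcr gaU GlA XSp; ring
  rw [e]
  have h5 : 0 ≤ ((2180290569386221/2046152955000) * (57/50 - X)^8 +
      (1186483064628779/116923026000) * (X - 23/25) * (57/50 - X)^7 +
      (108032489584355639/2728203940000) * (X - 23/25)^2 * (57/50 - X)^6 +
      (456348273117676869/5456407880000) * (X - 23/25)^3 * (57/50 - X)^5 +
      (42858493142162723/409230591000) * (X - 23/25)^4 * (57/50 - X)^4 +
      (431189020731791017/5456407880000) * (X - 23/25)^5 * (57/50 - X)^3 +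
      (149872890029439659/4365126304000) * (X - 23/25)^6 * (57/50 - X)^2 +
      (11039348712843053/1488111240000) * (X - 23/25)^7 * (57/50 - X) +
      (10869304601851327/21825631520000) * (X - 23/25)^8) := by positivity
  linarith

lemma qcr_top {X : ℝ} (h0 : 1.14 ≤ X) (h1 : X ≤ 1.5) : Qcr 0.57 (gaU X) (XSp X) ≤ 0 := by
  have h3 : 0 ≤ 3/2 - X := by linarith
  have h4 : 0 ≤ X - 57/50 := by linarith
  have e : Qcr 0.57 (gaU X) (XSp X) = -(((119562350620364597/12342355845120000) * (3/2 - X)^8 +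
      (970418142859046393/1542794480640000) * (X - 57/50) * (3/2 - X)^7 +
      (1796985175900880549/440798423040000) * (X - 57/50)^2 * (3/2 - X)^6 +
      (103534003912231313/8815968460800) * (X - 57/50)^3 * (3/2 - X)^5 +
      (26654801604078265/1410554953728) * (X - 57/50)^4 * (3/2 - X)^4 +
      (6419862541161257/352638738432) * (X - 57/50)^5 * (3/2 - X)^3 +
      (7378588912468757/705277476864) * (X - 57/50)^6 * (3/2 - X)^2 +
      (8170170395031257/2468471169024) * (X - 57/50)^7 * (3/2 - X) +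
      (8747187383218757/19747769352192) * (X - 57/50)^8)) := by
    unfold Qcr gaU GlA XSp; ring
  rw [e]
  have h5 : 0 ≤ ((119562350620364597/12342355845120000) * (3/2 - X)^8 +
      (970418142859046393/1542794480640000) * (X - 57/50) * (3/2 - X)^7 +
      (1796985175900880549/440798423040000) * (X - 57/50)^2 * (3/2 - X)^6 +
      (103534003912231313/8815968460800) * (X - 57/50)^3 * (3/2 - X)^5 +
      (26654801604078265/1410554953728) * (X - 57/50)^4 * (3/2 - X)^4 +
      (6419862541161257/352638738432) * (X - 57/50)^5 * (3/2 - X)^3 +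
      (7378588912468757/705277476864) * (X - 57/50)^6 * (3/2 - X)^2 +
      (8170170395031257/2468471169024) * (X - 57/50)^7 * (3/2 - X) +
      (8747187383218757/19747769352192) * (X - 57/50)^8) := by positivity
  linarith

lemma qpos_diag {X : ℝ} (h0 : 0 ≤ X) (h1 : X ≤ 0.57) : Qpos X X ≤ 0 := by
  have h3 : 0 ≤ 57/100 - X := by linarith
  have e : Qpos X X = -(X ^ 2 * ((1000000000000/102889341747) * (57/100 - X)^6 +
      (1831170858680/34296447249) * X * (57/100 - X)^5 +
      (4123364293400/34296447249) * X^2 * (57/100 - X)^4 +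
      (14592281078540/102889341747) * X^3 * (57/100 - X)^3 +
      (21937702962788/240075130743) * X^4 * (57/100 - X)^2 +
      (17313692387744033/600187826857500) * X^5 * (57/100 - X) +
      (157708144850392793/57618031378320000) * X^6)) := by
    unfold Qpos gaU GlA XSp; ring
  rw [e]
  have h5 : 0 ≤ X ^ 2 * ((1000000000000/102889341747) * (57/100 - X)^6 +
      (1831170858680/34296447249) * X * (57/100 - X)^5 +
      (4123364293400/34296447249) * X^2 * (57/100 - X)^4 +
      (14592281078540/102889341747) * X^3 * (57/100 - X)^3 +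
      (21937702962788/240075130743) * X^4 * (57/100 - X)^2 +
      (17313692387744033/600187826857500) * X^5 * (57/100 - X) +
      (157708144850392793/57618031378320000) * X^6) := by positivity
  linarith

lemma qpos_top {X : ℝ} (h0 : 0.57 ≤ X) (h1 : X ≤ 1.14) : Qpos 0.57 X ≤ 0 := by
  have h3 : 0 ≤ 57/50 - X := by linarith
  have h4 : 0 ≤ X - 57/100 := by linarith
  have e : Qpos 0.57 X = -(((157708144850392793/57618031378320000) * (57/50 - X)^8 +
      (130167196666246897/3601126961145000) * (X - 57/100) * (57/50 - X)^7 +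
      (18221693188735963/102889341747000) * (X - 57/100)^2 * (57/50 - X)^6 +
      (28968739325661086/64305838591875) * (X - 57/100)^3 * (57/50 - X)^5 +
      (34362444852419843/51444670873500) * (X - 57/100)^4 * (57/50 - X)^4 +
      (38399397308822906/64305838591875) * (X - 57/100)^5 * (57/50 - X)^3 +
      (20220718617434254/64305838591875) * (X - 57/100)^6 * (57/50 - X)^2 +
      (418452008790136/4738324948875) * (X - 57/100)^7 * (57/50 - X) +
      (4431199254805459/450140870143125) * (X - 57/100)^8)) := by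
    unfold Qpos gaU GlA XSp; ring
  rw [e]
  have h5 : 0 ≤ ((157708144850392793/57618031378320000) * (57/50 - X)^8 +
      (130167196666246897/3601126961145000) * (X - 57/100) * (57/50 - X)^7 +
      (18221693188735963/102889341747000) * (X - 57/100)^2 * (57/50 - X)^6 +
      (28968739325661086/64305838591875) * (X - 57/100)^3 * (57/50 - X)^5 +
      (34362444852419843/51444670873500) * (X - 57/100)^4 * (57/50 - X)^4 +
      (38399397308822906/64305838591875) * (X - 57/100)^5 * (57/50 - X)^3 +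
      (20220718617434254/64305838591875) * (X - 57/100)^6 * (57/50 - X)^2 +
      (418452008790136/4738324948875) * (X - 57/100)^7 * (57/50 - X) +
      (4431199254805459/450140870143125) * (X - 57/100)^8) := by positivity
  linarith

/-- Monotonicity of powers, packaged. -/
lemma pow_diffs {A B : ℝ} (h0 : 0 ≤ A) (h : A ≤ B) :
    0 ≤ B ^ 2 - A ^ 2 ∧ 0 ≤ B ^ 3 - A ^ 3 ∧ 0 ≤ B ^ 6 - A ^ 6 ∧ 0 ≤ B ^ 7 - A ^ 7 := by
  refine ⟨?_, ?_, ?_, ?_⟩ <;> exact sub_nonneg.2 (pow_le_pow_left₀ h0 h _)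

lemma GlA_mono {A B : ℝ} (h0 : 0 ≤ A) (h : A ≤ B) (hB : B ≤ 1) : GlA A ≤ GlA B := by
  obtain ⟨h2, -, h6, -⟩ := pow_diffs h0 h
  unfold GlA
  have h4 : B ^ 4 - A ^ 4 = (B ^ 2 - A ^ 2) * (B ^ 2 + A ^ 2) := by ring
  have h5 : B ^ 2 + A ^ 2 ≤ 2 := by nlinarith
  nlinarith [mul_nonneg h2 (sub_nonneg.2 h5)]

lemma qneg_mono {A B X : ℝ} (h0 : 0 ≤ A) (h : A ≤ B) (hB : B ≤ 0.5) (hX0 : 0 ≤ X)
    (hX : X ≤ 0.92) : Qneg A X ≤ Qneg B X := by
  obtain ⟨h2, h3, h6, h7⟩ := pow_diffs h0 h
  have h1 : 0 ≤ B - A := sub_nonneg.2 h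
  have hX2 : X ^ 2 ≤ 0.8464 := by nlinarith
  have hX20 : 0 ≤ X ^ 2 := sq_nonneg X
  have e1 : 0 ≤ XSp X := by
    have : XSp X = X ^ 2 * (1 - X ^ 2 / 3 + X ^ 4 / 15) := by unfold XSp; ring
    rw [this]
    have : 0 ≤ 1 - X ^ 2 / 3 + X ^ 4 / 15 := by nlinarith [sq_nonneg (X ^ 2)]
    positivity
  have e2 : 0 ≤ X - X ^ 3 / 2 + X ^ 5 / 8 := by
    have : X - X ^ 3 / 2 + X ^ 5 / 8 = X * (1 - X ^ 2 / 2 + X ^ 4 / 8) := by ring
    rw [this]
    have : 0 ≤ 1 - X ^ 2 / 2 + X ^ 4 / 8 := by nlinarith [sq_nonneg (X ^ 2)]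
    positivity
  have e3 : 0 ≤ 3 * X - 5 / 2 * X ^ 3 + 7 / 8 * X ^ 5 := by
    have : 3 * X - 5 / 2 * X ^ 3 + 7 / 8 * X ^ 5 = X * (3 - 5 / 2 * X ^ 2 + 7 / 8 * X ^ 4) := by ring
    rw [this]
    have : 0 ≤ 3 - 5 / 2 * X ^ 2 + 7 / 8 * X ^ 4 := by nlinarith [sq_nonneg (X ^ 2)]
    positivity
  have e4 : 2 * X - 4 / 3 * X ^ 3 + 2 / 5 * X ^ 5 ≤ 1.4 := by
    have : 0 ≤ X ^ 3 * (4 / 3 - 2 / 5 * X ^ 2) := by
      have : 0 ≤ 4 / 3 - 2 / 5 * X ^ 2 := by linarith
      positivity
    nlinarith [sq_nonneg (X - 0.75), mul_nonneg hX0 (sq_nonneg (X - 0.75)),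
      mul_nonneg hX0 hX20, mul_nonneg (mul_nonneg hX0 hX20) (sub_nonneg.2 hX2)]
  have hAB : B ^ 2 + A ^ 2 ≤ 0.5 := by nlinarith
  have f1 := mul_nonneg h1 e1
  have f2 := mul_nonneg h1 e2
  have f3 := mul_nonneg h1 e3
  have f4 := mul_nonneg h3 e3
  have f5 := mul_nonneg h2 (sub_nonneg.2 e4)
  have f6 : 0 ≤ (B ^ 2 - A ^ 2) * X ^ 4 := mul_nonneg h2 (by positivity)
  have f7 := mul_nonneg h2 (sub_nonneg.2 hAB)
  unfold Qneg GlA
  nlinarith

lemma qcr_mono {A B g y : ℝ} (h0 : 0 ≤ A) (h : A ≤ B) (hB : B ≤ 0.6) (hy : 0 ≤ y) :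
    Qcr A g y ≤ Qcr B g y := by
  obtain ⟨h2, h3, h6, h7⟩ := pow_diffs h0 h
  have h1 : 0 ≤ B - A := sub_nonneg.2 h
  have hG := GlA_mono h0 h (by linarith)
  have f1 := mul_nonneg h1 hy
  have f4 : 0 ≤ B ^ 4 - A ^ 4 := sub_nonneg.2 (pow_le_pow_left₀ h0 h _)
  have f5 : B ^ 3 - A ^ 3 ≤ 1.2 * (B - A) := by
    have e : B ^ 3 - A ^ 3 = (B - A) * (B ^ 2 + A * B + A ^ 2) := by ring
    rw [e]
    have : B ^ 2 + A * B + A ^ 2 ≤ 1.2 := by nlinarith
    nlinarith
  unfold Qcr
  nlinarith

lemma qpos_mono {A B X : ℝ} (h0 : 0 ≤ A) (h : A ≤ B) (hB : B ≤ 0.6) (hX0 : 0 ≤ X)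
    (hX : X ≤ 1.2) : Qpos A X ≤ Qpos B X := by
  obtain ⟨h2, h3, h6, h7⟩ := pow_diffs h0 h
  have h1 : 0 ≤ B - A := sub_nonneg.2 h
  have hG := GlA_mono h0 h (by linarith)
  have hX2 : X ^ 2 ≤ 1.44 := by nlinarith
  have e1 : 0 ≤ XSp X := by
    have : XSp X = X ^ 2 * (1 - X ^ 2 / 3 + X ^ 4 / 15) := by unfold XSp; ring
    rw [this]
    have : 0 ≤ 1 - X ^ 2 / 3 + X ^ 4 / 15 := by nlinarith [sq_nonneg (X ^ 2)]
    positivity
  have f1 := mul_nonneg h1 e1
  have f2 : 0 ≤ (B - A) * X ^ 5 := mul_nonneg h1 (by positivity)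
  have f3 : 0 ≤ (B ^ 2 - A ^ 2) * X ^ 4 := mul_nonneg h2 (by positivity)
  unfold Qpos
  nlinarith

end BE
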