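import Mathlib
import Pool.Agent.Lib.BE.Master
import Pool.Agent.Lib.BE.Poly
import Pool.Agent.Lib.BE.Moments

/-!
# The Fourier regions
-/

set_option autoImplicit false
set_option linter.unusedSectionVars false

open MeasureTheory Set Filter Topology Real

namespace BE

lemma inv_rho_le : 1 / rho ≤ 0.79789 := by
  rw [div_le_iff₀ rho_pos]
  have := rho_gt
  linarith

lemma inv_rho_ge : 0.79788 ≤ 1 / rho := by
  rw [le_div_iff₀ rho_pos]
  have := rho_lt
  linarith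

lemma pirho_pos : 0 < π * rho := mul_pos pi_pos rho_pos

lemma c1_le : 1 / (π * rho) ≤ 0.25398 := by
  rw [div_le_iff₀ pirho_pos]
  have h1 := rho_gt
  have h2 := pi_gt_d6
  nlinarith

lemma c1_ge : 0.25397 ≤ 1 / (π * rho) := by
  rw [le_div_iff₀ pirho_pos]
  have h1 := rho_lt
  have h2 := pi_lt_d6
  have h3 := pi_pos
  nlinarith [rho_pos]

lemma exp_one_cube : 20.085 ≤ exp 3 := by
  have h := exp_one_gt_d9
  have e : exp 3 = exp 1 ^ 3 := by rw [← exp_nat_mul]; norm_num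
  rw [e]
  calc (20.085 : ℝ) ≤ 2.7182818283 ^ 3 := by norm_num
    _ ≤ exp 1 ^ 3 := pow_le_pow_left₀ (by norm_num) h.le 3

lemma cube_exp {p : ℝ} (hp : 3.797 ≤ p) : p ^ 3 ≤ 1.2358 * exp p := by
  have h1 : exp p = exp 3 * exp 0.797 * exp (p - 3.797) := by
    rw [← exp_add, ← exp_add]; ring_nf
  have h2 : 2.218 ≤ exp 0.797 := by
    have := exp_ge5 (x := 0.797) (by norm_num)
    refine le_trans ?_ this
    norm_num
  have hd : 0 ≤ p - 3.797 := by linarith
  have h3 := exp_ge5 hd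
  set d := p - 3.797 with hd'
  have h4 : 1 + d + d ^ 2 / 2 + d ^ 3 / 6 ≤ exp d := by
    have : 0 ≤ d ^ 4 / 24 + d ^ 5 / 120 := by positivity
    linarith
  have h5 : 44.4 ≤ exp 3 * exp 0.797 := by
    calc (44.4 : ℝ) ≤ 20.085 * 2.218 := by norm_num
      _ ≤ _ := mul_le_mul exp_one_cube h2 (by norm_num) (exp_pos _).le
  have h6 : 44.4 * (1 + d + d ^ 2 / 2 + d ^ 3 / 6) ≤ exp p := by
    rw [h1]
    exact mul_le_mul h5 h4 (by positivity) (by positivity)
  have e : p = 3.797 + d := by rw [hd']; ring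
  have h7 : p ^ 3 ≤ 1.2358 * (44.4 * (1 + d + d ^ 2 / 2 + d ^ 3 / 6)) := by
    rw [e]
    nlinarith [mul_nonneg hd hd, mul_nonneg (mul_nonneg hd hd) hd]
  linarith

/-- The tail term. -/
lemma tail_num {A : ℝ} (hA : 0 < A) (hA1 : A ≤ 0.57) :
    (4 / π ^ 2 + 1 / π) * A ^ 2 * ga (π / (2 * A)) ≤ A * rho * (0.38 * A ^ 7) := by
  have hπ := pi_pos
  have hπ1 := pi_gt_d6
  have hπ2 := pi_lt_d6
  set p := π ^ 2 / (8 * A ^ 2) with hp
  have hp0 : 3.797 ≤ p := by
    rw [hp, le_div_iff₀ (by positivity)]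
    nlinarith
  have hg : ga (π / (2 * A)) = exp (-p) := by
    unfold ga
    congr 1
    rw [hp]
    field_simp
    ring
  have h1 := cube_exp hp0
  have h2 : exp (-p) ≤ 1.2358 / p ^ 3 := by
    rw [le_div_iff₀ (by positivity), exp_neg, inv_mul_le_iff₀ (exp_pos p)]
    linarith
  have h3 : 1.2358 / p ^ 3 = 1.2358 * 512 * A ^ 6 / π ^ 6 := by
    rw [hp]; field_simp; norm_num
  have h4 : (4 / π ^ 2 + 1 / π) = (4 + π) / π ^ 2 := by field_simp
  rw [hg, h4]
  have h5 : (4 + π) / π ^ 2 * A ^ 2 * exp (-p) ≤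
      (4 + π) / π ^ 2 * A ^ 2 * (1.2358 * 512 * A ^ 6 / π ^ 6) := by
    rw [← h3]
    exact mul_le_mul_of_nonneg_left h2 (by positivity)
  refine h5.trans ?_
  have h6 : (4 + π) / π ^ 2 * A ^ 2 * (1.2358 * 512 * A ^ 6 / π ^ 6) =
      A ^ 8 * ((4 + π) * (1.2358 * 512) / π ^ 8) := by
    field_simp
  have h7 : A * rho * (0.38 * A ^ 7) = A ^ 8 * (0.38 * rho) := by ring
  rw [h6, h7]
  refine mul_le_mul_of_nonneg_left ?_ (by positivity)
  rw [div_le_iff₀ (by positivity)]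
  have h8 : (3.141592 : ℝ) ^ 8 ≤ π ^ 8 := pow_le_pow_left₀ (by norm_num) hπ1.le 8
  have h9 := rho_gt
  have h10 : 0.38 * 1.25331 * (3.141592 : ℝ) ^ 8 ≤ 0.38 * rho * π ^ 8 :=
    mul_le_mul (by linarith) h8 (by positivity) (by linarith)
  refine le_trans ?_ h10
  norm_num at *
  linarith

variable {ι : Type*} [Fintype ι] [DecidableEq ι]

lemma C1_neg (x : ℝ) : C1 (-x) = C1 x := by
  unfold C1
  refine integral_congr_ae (Eventually.of_forall fun t => ?_)
  simp only [neg_mul, cos_neg]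

section
variable {a : ι → ℝ} {s : Finset ι} {A : ℝ}

/-- Master inequality with numerical normalisation. -/
theorem master2 (ha : ∀ i ∈ s, 0 ≤ a i ∧ a i ≤ A) (hA : 0 < A) (hA1 : A ≤ 0.57)
    (hs : ∑ i ∈ s, a i ^ 2 = 1) {x : ℝ}
    {W : ℝ → ℝ} (hWi : IntegrableOn (fun t => W t * ga t) (Ioc 0 (π / (2 * A)))) {g y w' : ℝ}
    (hW : ∀ t, 0 < t → t ≤ π / (2 * A) → P A x t * phi a s t ≤ (base A x t + W t) * ga t)
    (hw : ∫ t in Ioc 0 (π / (2 * A)), W t * ga t ≤ A * rho * w')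
    (hg : ga x ≤ g) (hy : 1 - C1 x ≤ y) (hy0 : 0 ≤ y)
    (hfin : g + GlA A + 0.25398 * A * (y + 0.1662 * A ^ 2) + w' + 0.38 * A ^ 7 ≤ 0) :
    Pr (fun ε => Sm a s ε ≤ x) ≤ 1 / 2 + D x + D A := by
  refine master (τ := A * rho * (0.38 * A ^ 7)) (e := A ^ 2 / π * (1 + 0.1662 * A ^ 2)) hA hWi hW hw
    ((tail_general hA x).trans (tail_num hA hA1)) (end_general ha hA hs x) ?_
  have hr := rho_pos
  have hπ := pi_pos
  have hG := G_ge A hA.le
  have hG' : -(A * GlA A) ≤ G A := by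
    refine le_trans (le_of_eq ?_) hG
    unfold GlA; ring
  have h1 : A ^ 2 / π * (1 - C1 x) ≤ A ^ 2 / π * y :=
    mul_le_mul_of_nonneg_left hy (by positivity)
  have h2 : A ^ 2 / π * (y + 0.1662 * A ^ 2) ≤ A * rho * (0.25398 * A * (y + 0.1662 * A ^ 2)) := by
    have e : A ^ 2 / π * (y + 0.1662 * A ^ 2) =
        A * rho * (1 / (π * rho) * A * (y + 0.1662 * A ^ 2)) := by
      field_simp
    rw [e]
    refine mul_le_mul_of_nonneg_left ?_ (by positivity)
    exact mul_le_mul_of_nonneg_right (mul_le_mul_of_nonneg_right c1_le hA.le) (by positivity)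
  have h3 : A * (rho * ga x) ≤ A * rho * g := by
    rw [← mul_assoc]
    exact mul_le_mul_of_nonneg_left hg (by positivity)
  have h4 := mul_le_mul_of_nonneg_left hfin (by positivity : 0 ≤ A * rho)
  have h5 : rho * -(A * GlA A) ≤ rho * G A := mul_le_mul_of_nonneg_left hG' hr.le
  have h6 : A ^ 2 / π * (1 + 0.1662 * A ^ 2) - A ^ 2 / π * C1 x ≤
      A ^ 2 / π * (y + 0.1662 * A ^ 2) := by
    have : A ^ 2 / π * (1 + 0.1662 * A ^ 2) - A ^ 2 / π * C1 x =
      A ^ 2 / π * (1 - C1 x) + A ^ 2 / π * (0.1662 * A ^ 2) := by ring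
    rw [this]
    linarith
  nlinarith

/-- The kurtosis step. -/
lemma kurt {Pv φ g q m : ℝ} (hg : 0 ≤ g) (hq : 0 ≤ q) (hm : 0 ≤ m) (h1 : φ ≤ g)
    (h2 : g * (1 - q) ≤ φ) (h3 : -Pv ≤ m) : Pv * φ ≤ (Pv + m * q) * g := by
  have hqg : 0 ≤ q * g := mul_nonneg hq hg
  rcases le_total 0 Pv with h | h
  · have := mul_le_mul_of_nonneg_left h1 h
    have : 0 ≤ m * (q * g) := mul_nonneg hm hqg
    nlinarith
  · have h4 := mul_le_mul_of_nonpos_left h2 h
    have h5 := mul_le_mul_of_nonneg_right h3 hqg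
    nlinarith

/-- Splitting the kernel. -/
lemma P_base {x t : ℝ} (hA : 0 < A) (ht : 0 < t) :
    P A x t = base A x t - A * kk (A * t) * sin (x * t) := by
  rw [P_eq hA.ne' ht.ne']
  rfl

lemma At_le (hA : 0 < A) {t : ℝ} (ht : t ≤ π / (2 * A)) : A * t ≤ π / 2 := by
  calc A * t ≤ A * (π / (2 * A)) := mul_le_mul_of_nonneg_left ht hA.le
    _ = π / 2 := by field_simp

/-- `κ = 1 - At kk(At)` lies in `[0,1]`. -/
lemma kappa_mem {θ : ℝ} (h0 : 0 < θ) (h1 : θ ≤ π / 2) : 0 ≤ 1 - θ * kk θ ∧ 1 - θ * kk θ ≤ 1 := by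
  have hπ := pi_pos
  have hs : 0 < sin θ := sin_pos_of_pos_of_lt_pi h0 (by linarith)
  have hc : 0 ≤ cos θ := cos_nonneg_of_neg_pi_div_two_le_of_le (by linarith) h1
  constructor
  · have e : 1 - θ * kk θ = θ / π + (1 - θ / π) * (θ * (cos θ / sin θ)) := by
      unfold kk rr; field_simp; ring
    rw [e]
    have := one_sub_nonneg h1
    have : 0 ≤ 1 - θ / π := by linarith
    positivity
  · have := mul_nonneg h0.le (kk_nonneg h0 h1)
    linarith

/-- Lower bound of the kernel in general. -/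
lemma negP_le {x t m1 m2 : ℝ} (hA : 0 < A) (ht : 0 < t) (ht1 : t ≤ π / (2 * A))
    (hm1 : 0 ≤ m1) (h1 : -(sin (x * t) / t) ≤ m1) (hm2 : 0 ≤ m2) (h2 : -cos (x * t) ≤ m2) :
    -P A x t ≤ m1 + A * (1 - A * t / π) * m2 := by
  have hθ0 : 0 < A * t := mul_pos hA ht
  have hθ1 := At_le hA ht1
  have hκ := kappa_mem hθ0 hθ1
  have hv := one_sub_nonneg hθ1
  have e : P A x t = (1 - A * t * kk (A * t)) * (sin (x * t) / t) +
      A * (1 - A * t / π) * cos (x * t) := by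
    rw [P_eq hA.ne' ht.ne']
    field_simp
    ring
  rw [e]
  have h3 : -((1 - A * t * kk (A * t)) * (sin (x * t) / t)) ≤ m1 := by
    rw [← mul_neg]
    calc (1 - A * t * kk (A * t)) * -(sin (x * t) / t) ≤ (1 - A * t * kk (A * t)) * m1 :=
          mul_le_mul_of_nonneg_left h1 hκ.1
      _ ≤ 1 * m1 := mul_le_mul_of_nonneg_right hκ.2 hm1
      _ = m1 := one_mul _
  have h4 : 0 ≤ A * (1 - A * t / π) := mul_nonneg hA.le (by linarith)
  have h5 := mul_le_mul_of_nonneg_left h2 h4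
  linarith

lemma q_nonneg (t : ℝ) : 0 ≤ A ^ 2 * t ^ 4 / 10 := by positivity

/-- Negative side, polynomial region. -/
theorem neg_poly (ha : ∀ i ∈ s, 0 ≤ a i ∧ a i ≤ A) (hA : 0 < A) (hA1 : A ≤ 0.46)
    (hs : ∑ i ∈ s, a i ^ 2 = 1) {X : ℝ} (hX1 : 1.7 * A ≤ X) (hX2 : X ≤ 0.92) :
    Pr (fun ε => Sm a s ε ≤ -X) ≤ 1 / 2 - D X + D A := by
  have hX0 : 0 < X := by linarith
  have hπ := pi_pos
  have hr := rho_pos
  set W : ℝ → ℝ := fun t => A * kb (A * t) * (X * t * p5 (X * t)) +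
    (X * p5 (X * t) + 0.0273 * A * X ^ 4 * t ^ 4) * (A ^ 2 * t ^ 4 / 10) with hWdef
  set c : ℕ → ℝ := fun k => match k with
    | 2 => A ^ 2 * X / 3
    | 3 => -0.088 * A ^ 3 * X
    | 4 => 0.0059 * A ^ 4 * X - A ^ 2 * X ^ 3 / 18 + A ^ 2 * X / 10
    | 5 => 0.088 * A ^ 3 * X ^ 3 / 6
    | 6 => -0.0059 * A ^ 4 * X ^ 3 / 6 + A ^ 2 * X ^ 5 / 360 - A ^ 2 * X ^ 3 / 60
    | 7 => -0.088 * A ^ 3 * X ^ 5 / 120
    | 8 => 0.0059 * A ^ 4 * X ^ 5 / 120 + A ^ 2 * X ^ 5 / 1200 + 0.00273 * A ^ 3 * X ^ 4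
    | _ => 0 with hc
  have hWc : ∀ t, W t = ∑ k ∈ Finset.range 9, c k * t ^ k := by
    intro t
    simp only [hWdef, hc, Finset.sum_range_succ, Finset.range_zero, Finset.sum_empty]
    unfold kb p5
    ring
  have hWi : IntegrableOn (fun t => W t * ga t) (Ioi 0) := by
    have := int_poly 9 c
    refine this.congr (Eventually.of_forall fun t => ?_)
    simp only [hWc]
  have hW0 : ∀ t, 0 < t → 0 ≤ W t := by
    intro t ht
    have h1 := kb_nonneg (θ := A * t) (by positivity)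
    have h2 := (p5_pos (X * t)).le
    simp only [hWdef]
    positivity
  have hint : ∫ t in Ioi (0 : ℝ), W t * ga t ≤ A * rho * ((A / 3 * (X - X ^ 3 / 2 + X ^ 5 / 8) -
    0.088 * 0.79788 * A ^ 2 * (2 * X - 4 / 3 * X ^ 3 + 2 / 5 * X ^ 5) +
    0.0059 * A ^ 3 * (3 * X - 5 / 2 * X ^ 3 + 7 / 8 * X ^ 5)) +
  (A / 10 * (3 * X - 5 / 2 * X ^ 3 + 7 / 8 * X ^ 5) + 0.28665 * A ^ 2 * X ^ 4)) := by
    have h := integral_poly 9 c
    simp only [hWc]
    rw [h]
    simp only [hc, Finset.sum_range_succ, Finset.range_zero, Finset.sum_empty]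
    rw [mo2, mo3, mo4, mo5, mo6, mo7, mo8]
    have hi := inv_rho_ge
    have hpos : 0 ≤ 2 * X - 4 / 3 * X ^ 3 + 2 / 5 * X ^ 5 := by
      have e : 2 * X - 4 / 3 * X ^ 3 + 2 / 5 * X ^ 5 = X * (2 - 4 / 3 * X ^ 2 + 2 / 5 * X ^ 4) := by
        ring
      rw [e]
      have : 0 ≤ 2 - 4 / 3 * X ^ 2 + 2 / 5 * X ^ 4 := by nlinarith [sq_nonneg (X ^ 2)]
      positivity
    have h2 : 0.79788 * rho ≤ 1 := by
      have := rho_lt
      linarith
    have h3 : 0 ≤ 0.088 * A ^ 3 * (2 * X - 4 / 3 * X ^ 3 + 2 / 5 * X ^ 5) * (1 - 0.79788 * rho) := by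
      have : 0 ≤ 1 - 0.79788 * rho := by linarith
      positivity
    linarith
  refine (master2 (x := -X) ha hA (by linarith) hs (hWi.mono_set Ioc_subset_Ioi_self)
    (g := gaU X) (y := XSp X) ?_ ((setIntegral_mono_set hWi ?_
      Ioc_subset_Ioi_self.eventuallyLE).trans hint) ?_ ?_ ?_ ?_).trans_eq ?_
  · -- pointwise bound
    intro t ht0 ht1
    have hθ0 : 0 < A * t := mul_pos hA ht0
    have hθ1 := At_le hA ht1
    have hXt : 0 < X * t := mul_pos hX0 ht0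
    have hsin5 := sin_le5 (X * t) hXt.le
    have hs5 : sin (X * t) ≤ X * t * p5 (X * t) := by
      refine hsin5.trans (le_of_eq ?_)
      unfold p5; ring
    have hp5 := p5_pos (X * t)
    have hm : -P A (-X) t ≤ X * p5 (X * t) + A * (1 - A * t / π) * (0.0273 * (X * t) ^ 4) := by
      refine negP_le hA ht0 ht1 (by positivity) ?_ (by positivity) ?_
      · rw [neg_mul, sin_neg, neg_div, neg_neg, div_le_iff₀ ht0]
        linarith
      · rw [neg_mul, cos_neg]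
        exact negcos_le hXt.le
    have hm2 : -P A (-X) t ≤ X * p5 (X * t) + 0.0273 * A * X ^ 4 * t ^ 4 := by
      refine hm.trans ?_
      have h1 : A * (1 - A * t / π) * (0.0273 * (X * t) ^ 4) ≤ A * 1 * (0.0273 * (X * t) ^ 4) := by
        refine mul_le_mul_of_nonneg_right (mul_le_mul_of_nonneg_left ?_ hA.le) (by positivity)
        have : 0 ≤ A * t / π := by positivity
        linarith
      have e : A * 1 * (0.0273 * (X * t) ^ 4) = 0.0273 * A * X ^ 4 * t ^ 4 := by ring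
      linarith
    have h2 := kurt (ga_pos t).le (q_nonneg (A := A) t)
      (by positivity : 0 ≤ X * p5 (X * t) + 0.0273 * A * X ^ 4 * t ^ 4)
      (phi_le_ga ha hA hs ht0.le ht1) (phi_ge ha hA (by nlinarith) hs ht0.le ht1) hm2
    refine h2.trans (mul_le_mul_of_nonneg_right ?_ (ga_pos t).le)
    rw [P_base hA ht0]
    have hk0 := kk_nonneg hθ0 hθ1
    have hk1 := kk_le hθ0 hθ1
    have h3 : -(A * kk (A * t) * sin (-X * t)) ≤ A * kb (A * t) * (X * t * p5 (X * t)) := by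
      rw [neg_mul, sin_neg]
      have h4 : A * kk (A * t) * sin (X * t) ≤ A * kk (A * t) * (X * t * p5 (X * t)) :=
        mul_le_mul_of_nonneg_left hs5 (by positivity)
      have h5 : A * kk (A * t) * (X * t * p5 (X * t)) ≤ A * kb (A * t) * (X * t * p5 (X * t)) :=
        mul_le_mul_of_nonneg_right (mul_le_mul_of_nonneg_left hk1 hA.le) (by positivity)
      linarith
    simp only [hWdef]
    linarith
  · refine (ae_restrict_iff' measurableSet_Ioi).2 (Eventually.of_forall fun t ht => ?_)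
    exact mul_nonneg (hW0 t ht) (ga_pos t).le
  · rw [ga_neg]; exact ga_le' X
  · rw [C1_neg]
    have := C1_ge X hX0.le
    unfold XSp
    linarith
  · have e : XSp X = X ^ 2 * (1 - X ^ 2 / 3 + X ^ 4 / 15) := by unfold XSp; ring
    rw [e]
    have : 0 ≤ 1 - X ^ 2 / 3 + X ^ 4 / 15 := by nlinarith [sq_nonneg (X ^ 2)]
    positivity
  · have hQ : Qneg A X ≤ 0 := by
      rcases le_total X 0.782 with h | h
      · refine (qneg_mono hA.le (B := X / 1.7) ?_ ?_ hX0.le hX2).trans (qneg_diag hX0.le h)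
        · rw [le_div_iff₀ (by norm_num)]; linarith
        · rw [div_le_iff₀ (by norm_num)]; linarith
      · exact (qneg_mono hA.le hA1 (by norm_num) hX0.le hX2).trans (qneg_top h hX2)
    unfold Qneg at hQ
    linarith
  · rw [D_neg]; ring

end

end BE
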