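import Mathlib
import Pool.Agent.Lib.BE.Regions

/-!
# The regions near the origin with enough small weights
-/

set_option autoImplicit false
set_option linter.unusedSectionVars false

open MeasureTheory Set Filter Topology Real

namespace BE

/-- A cubic majorant of the exponential. -/
lemma exp_cubic {κ S : ℝ} (hκ : 1 / 6 ≤ κ)
    (hS : exp S ≤ 1 + S + S ^ 2 / 2 + κ * S ^ 3) (s : ℝ) (h0 : 0 ≤ s) (h1 : s ≤ S) :
    exp s ≤ 1 + s + s ^ 2 / 2 + κ * s ^ 3 := by
  have hκ0 : 0 < κ := by linarith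
  obtain ⟨m, hm⟩ : ∃ m, m = (3 * κ - 1 / 2) / κ := ⟨_, rfl⟩
  have hm0 : 0 ≤ m := by rw [hm]; apply div_nonneg <;> linarith
  have hmκ : κ * m = 3 * κ - 1 / 2 := by rw [hm]; field_simp
  have hd : ∀ y, HasDerivAt (fun s => (1 + s + s ^ 2 / 2 + κ * s ^ 3) * exp (-s))
      (y ^ 2 * (κ * (m - y)) * exp (-y)) y := by
    intro y
    have h1 : HasDerivAt (fun s : ℝ => 1 + s + s ^ 2 / 2 + κ * s ^ 3) (1 + y + 3 * κ * y ^ 2) y := by
      have := (((hasDerivAt_id y).const_add 1).add ((hasDerivAt_pow 2 y).div_const 2)).add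
        ((hasDerivAt_pow 3 y).const_mul κ)
      refine this.congr_deriv ?_
      norm_num; ring
    have h2 := h1.mul (hasDerivAt_exp_neg y)
    refine h2.congr_deriv ?_
    rw [mul_sub, hmκ]
    ring
  have key : 1 ≤ (1 + s + s ^ 2 / 2 + κ * s ^ 3) * exp (-s) := by
    rcases le_total s m with h | h
    · have hmono : MonotoneOn (fun s => (1 + s + s ^ 2 / 2 + κ * s ^ 3) * exp (-s)) (Icc 0 m) := by
        refine monotoneOn_of_deriv_nonneg (convex_Icc 0 m)
          (fun y _ => (hd y).continuousAt.continuousWithinAt)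
          (fun y _ => (hd y).differentiableAt.differentiableWithinAt) fun y hy => ?_
        rw [interior_Icc] at hy
        rw [(hd y).deriv]
        have : 0 ≤ m - y := by linarith [hy.2]
        positivity
      have := hmono (left_mem_Icc.2 hm0) ⟨h0, h⟩ h0
      simpa using this
    · have hanti : AntitoneOn (fun s => (1 + s + s ^ 2 / 2 + κ * s ^ 3) * exp (-s)) (Ici m) := by
        refine antitoneOn_of_deriv_nonpos (convex_Ici m)
          (fun y _ => (hd y).continuousAt.continuousWithinAt)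
          (fun y _ => (hd y).differentiableAt.differentiableWithinAt) fun y hy => ?_
        rw [interior_Ici] at hy
        rw [(hd y).deriv]
        have hy' : m < y := hy
        have h3 : κ * (m - y) ≤ 0 := mul_nonpos_of_nonneg_of_nonpos hκ0.le (by linarith)
        have h4 : y ^ 2 * (κ * (m - y)) ≤ 0 := mul_nonpos_of_nonneg_of_nonpos (sq_nonneg y) h3
        exact mul_nonpos_of_nonpos_of_nonneg h4 (exp_pos _).le
      have h3 := hanti (mem_Ici.2 h) (mem_Ici.2 (h.trans h1)) h1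
      refine le_trans ?_ h3
      simp only
      rw [exp_neg, ← div_eq_mul_inv, le_div_iff₀ (exp_pos S), one_mul]
      exact hS
  rw [exp_neg, ← div_eq_mul_inv, le_div_iff₀ (exp_pos s), one_mul] at key
  exact key

variable {ι : Type*} [Fintype ι] [DecidableEq ι]

section
variable {a : ι → ℝ} {s : Finset ι} {A : ℝ}

/-- The general estimate near the origin. -/
theorem D_general (ha : ∀ i ∈ s, 0 ≤ a i ∧ a i ≤ A) (hA : 0 < A) (hA1 : A ≤ 0.675)
    (hs : ∑ i ∈ s, a i ^ 2 = 1) {z κ : ℝ} (hz0 : 0 ≤ z) (hκ : 0 ≤ κ)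
    (hexp : ∀ s, 0 ≤ s → s ≤ π ^ 2 * z / 2 → exp s ≤ 1 + s + s ^ 2 / 2 + κ * s ^ 3)
    (hz : A ^ 2 * z ≤ ∑ i ∈ s.filter (fun i => a i ≤ A / 2), a i ^ 2)
    {x : ℝ} (hx0 : 0 ≤ x) (hx : x ≤ A / 2) {c : ℝ} (hc : c = π * z * A)
    (hnum : rho * (A / 6 - A ^ 3 / 40 + A ^ 5 / 336) - 1 / π + (1 / π ^ 2 + 1 / π) * ga (π / A) +
      1 / π * exp (-(π ^ 2 * z / 2)) * (1 + c * rho + c ^ 2 + 3 * κ * c ^ 3 * rho +
        0.0831 * A ^ 2 * (2 + 3 * c * rho + 4 * c ^ 2 + 15 * κ * c ^ 3 * rho)) ≤ 0) :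
    Pr (fun ε => Sm a s ε ≤ x) ≤ 1 / 2 + D x + D A := by
  have hπ := pi_pos
  have hr := rho_pos
  have hc0 : 0 ≤ c := by rw [hc]; positivity
  set E := exp (-(π ^ 2 * z / 2)) with hE
  have hE0 : 0 < E := exp_pos _
  -- the end integral
  have h := integral_poly 7 (fun k => match k with
    | 1 => A ^ 2 / π * E | 2 => A ^ 2 / π * E * c | 3 => A ^ 2 / π * E * (c ^ 2 / 2 + 0.0831 * A ^ 2)
    | 4 => A ^ 2 / π * E * (κ * c ^ 3 + 0.0831 * A ^ 2 * c)
    | 5 => A ^ 2 / π * E * (0.0831 * A ^ 2 * (c ^ 2 / 2))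
    | 6 => A ^ 2 / π * E * (0.0831 * A ^ 2 * (κ * c ^ 3)) | _ => 0)
  have hi := int_poly 7 (fun k => match k with
    | 1 => A ^ 2 / π * E | 2 => A ^ 2 / π * E * c | 3 => A ^ 2 / π * E * (c ^ 2 / 2 + 0.0831 * A ^ 2)
    | 4 => A ^ 2 / π * E * (κ * c ^ 3 + 0.0831 * A ^ 2 * c)
    | 5 => A ^ 2 / π * E * (0.0831 * A ^ 2 * (c ^ 2 / 2))
    | 6 => A ^ 2 / π * E * (0.0831 * A ^ 2 * (κ * c ^ 3)) | _ => 0)
  simp only [Finset.sum_range_succ, Finset.range_zero, Finset.sum_empty] at h hi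
  rw [mo_one, mo2, mo3, mo4, mo5, mo6] at h
  have e : ∀ u : ℝ, A ^ 2 * u / π * (1 + 0.0831 * (A * u) ^ 2) *
      (E * (1 + c * u + (c * u) ^ 2 / 2 + κ * (c * u) ^ 3)) * ga u =
      (0 + 0 * u ^ 0 + A ^ 2 / π * E * u ^ 1 + A ^ 2 / π * E * c * u ^ 2 +
        A ^ 2 / π * E * (c ^ 2 / 2 + 0.0831 * A ^ 2) * u ^ 3 +
        A ^ 2 / π * E * (κ * c ^ 3 + 0.0831 * A ^ 2 * c) * u ^ 4 +
        A ^ 2 / π * E * (0.0831 * A ^ 2 * (c ^ 2 / 2)) * u ^ 5 +
        A ^ 2 / π * E * (0.0831 * A ^ 2 * (κ * c ^ 3)) * u ^ 6) * ga u := by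
    intro u; ring
  have h2 := end_bound (a := a) (s := s) hA x
    (w := fun u => E * (1 + c * u + (c * u) ^ 2 / 2 + κ * (c * u) ^ 3))
    (fun u hu => by positivity)
    (fun u hu0 hu => by
      have h3 := phi_end_small ha hA hs hz hu0 hu
      refine h3.trans (mul_le_mul_of_nonneg_left ?_ (ga_pos u).le)
      have e1 : -(π ^ 2 * z / 2) * (1 - 2 * A * u / π) = -(π ^ 2 * z / 2) + c * u := by
        rw [hc]; field_simp; ring
      rw [e1, exp_add]
      refine mul_le_mul_of_nonneg_left ?_ hE0.le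
      refine hexp (c * u) (by positivity) ?_
      calc c * u ≤ c * (π / (2 * A)) := mul_le_mul_of_nonneg_left hu hc0
        _ = π ^ 2 * z / 2 := by rw [hc]; field_simp)
    (by simp only [e]; exact hi)
  simp only [e] at h2
  rw [h] at h2
  refine master (W := fun _ => 0) (w := 0) hA (by simp) ?_ (by simp) (tail_small hA hx0 hx) h2 ?_
  · -- pointwise bound
    intro t ht0 ht1
    rw [add_zero]
    have hθ0 : 0 < A * t := mul_pos hA ht0
    have hθ1 := At_le hA ht1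
    have hxt : x * t ≤ π / 2 := by
      calc x * t ≤ A / 2 * (π / (2 * A)) := mul_le_mul hx ht1 ht0.le (by positivity)
        _ = π / 4 := by field_simp; norm_num
        _ ≤ π / 2 := by linarith
    have hxt0 : 0 ≤ x * t := by positivity
    have hsin : 0 ≤ sin (x * t) := sin_nonneg_of_nonneg_of_le_pi hxt0 (by linarith)
    have hcos : 0 ≤ cos (x * t) := cos_nonneg_of_neg_pi_div_two_le_of_le (by linarith) hxt
    have hP : -P A x t ≤ 0 + A * (1 - A * t / π) * 0 := by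
      refine negP_le hA ht0 ht1 le_rfl ?_ le_rfl ?_
      · have : 0 ≤ sin (x * t) / t := by positivity
        linarith
      · linarith
    have hP0 : 0 ≤ P A x t := by linarith
    have h3 : P A x t * phi a s t ≤ P A x t * ga t :=
      mul_le_mul_of_nonneg_left (phi_le_ga ha hA hs ht0.le ht1) hP0
    refine h3.trans (mul_le_mul_of_nonneg_right ?_ (ga_pos t).le)
    rw [P_base hA ht0]
    have := kk_nonneg hθ0 hθ1
    have : 0 ≤ A * kk (A * t) * sin (x * t) := by positivity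
    linarith
  · -- final inequality
    have hga := ga_le x
    have hC := C1_ge2 x
    have hG := G_ge A hA.le
    have hx2 : x ^ 2 ≤ (A / 2) ^ 2 := pow_le_pow_left₀ hx0 hx 2
    have hx3 : x ^ 2 ≤ 0.12 := by nlinarith
    have h3 : A * (rho * ga x) - A ^ 2 / π * C1 x ≤ A * rho - A ^ 2 / π := by
      have h4 : A * (rho * ga x) ≤ A * (rho * (1 - x ^ 2 / 2 + x ^ 4 / 8)) :=
        mul_le_mul_of_nonneg_left (mul_le_mul_of_nonneg_left hga hr.le) hA.le
      have h5 : A ^ 2 / π * (1 - x ^ 2) ≤ A ^ 2 / π * C1 x :=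
        mul_le_mul_of_nonneg_left hC (by positivity)
      have h6 : A * x ^ 2 * (rho * (-1 / 2 + x ^ 2 / 8) + A / π) ≤ 0 := by
        have h7 : A / π ≤ 0.25 := by
          rw [div_le_iff₀ hπ]
          have := pi_gt_d2
          linarith
        have h8 : rho * (-1 / 2 + x ^ 2 / 8) ≤ rho * (-0.48) :=
          mul_le_mul_of_nonneg_left (by linarith) hr.le
        have h9 := rho_gt
        have h10 : rho * (-1 / 2 + x ^ 2 / 8) + A / π ≤ 0 := by linarith
        exact mul_nonpos_of_nonneg_of_nonpos (by positivity) h10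
      have h11 : A * (rho * (1 - x ^ 2 / 2 + x ^ 4 / 8)) - A ^ 2 / π * (1 - x ^ 2) =
          A * rho - A ^ 2 / π + A * x ^ 2 * (rho * (-1 / 2 + x ^ 2 / 8) + A / π) := by
        field_simp
        ring
      linarith
    have h4 : rho * (A - A ^ 3 / 6 + A ^ 5 / 40 - A ^ 7 / 336) ≤ rho * G A :=
      mul_le_mul_of_nonneg_left hG hr.le
    have h5 := mul_le_mul_of_nonneg_left hnum (sq_nonneg A)
    rw [mul_zero] at h5
    have h6 : A ^ 2 * (rho * (A / 6 - A ^ 3 / 40 + A ^ 5 / 336) - 1 / π +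
          (1 / π ^ 2 + 1 / π) * ga (π / A) +
          1 / π * E * (1 + c * rho + c ^ 2 + 3 * κ * c ^ 3 * rho +
            0.0831 * A ^ 2 * (2 + 3 * c * rho + 4 * c ^ 2 + 15 * κ * c ^ 3 * rho))) =
        rho * (A ^ 3 / 6 - A ^ 5 / 40 + A ^ 7 / 336) - A ^ 2 / π +
          (1 / π ^ 2 + 1 / π) * A ^ 2 * ga (π / A) +
          A ^ 2 / π * E * (1 + c * rho + c ^ 2 + 3 * κ * c ^ 3 * rho +
            0.0831 * A ^ 2 * (2 + 3 * c * rho + 4 * c ^ 2 + 15 * κ * c ^ 3 * rho)) := by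
      ring
    rw [h6] at h5
    have h7 : rho * (A - A ^ 3 / 6 + A ^ 5 / 40 - A ^ 7 / 336) +
          rho * (A ^ 3 / 6 - A ^ 5 / 40 + A ^ 7 / 336) = A * rho := by ring
    have h8 : (0 : ℝ) + 0 * mo 0 + A ^ 2 / π * E * 1 + A ^ 2 / π * E * c * rho +
          A ^ 2 / π * E * (c ^ 2 / 2 + 0.0831 * A ^ 2) * 2 +
          A ^ 2 / π * E * (κ * c ^ 3 + 0.0831 * A ^ 2 * c) * (3 * rho) +
          A ^ 2 / π * E * (0.0831 * A ^ 2 * (c ^ 2 / 2)) * 8 +
          A ^ 2 / π * E * (0.0831 * A ^ 2 * (κ * c ^ 3)) * (15 * rho) =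
          A ^ 2 / π * E * (1 + c * rho + c ^ 2 + 3 * κ * c ^ 3 * rho +
            0.0831 * A ^ 2 * (2 + 3 * c * rho + 4 * c ^ 2 + 15 * κ * c ^ 3 * rho)) := by
      ring
    rw [h8]
    linarith

end

end BE
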