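import Mathlib
import Pool.Agent.Lib.BE.RegionsD

/-!
# The regions near the origin, numerical part
-/

set_option autoImplicit false
set_option linter.unusedSectionVars false

open MeasureTheory Set Filter Topology Real

namespace BE

lemma ga_small {y : ℝ} (hy : 4.6 ≤ y) : ga y ≤ 1 / 1300 := by
  have h1 : ga y = exp (-(y ^ 2 / 2)) := by unfold ga; congr 1; ring
  have h2 : (10 : ℝ) ≤ y ^ 2 / 2 := by nlinarith
  have h3 := exp_ge5 (x := 10) (by norm_num)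
  have h4 : exp 10 ≤ exp (y ^ 2 / 2) := exp_le_exp.2 h2
  rw [h1, exp_neg, inv_eq_one_div]
  apply one_div_le_one_div_of_le (by norm_num)
  refine le_trans ?_ h4
  refine le_trans ?_ h3
  norm_num

lemma inv_pi_bounds : 0.3183 ≤ 1 / π ∧ 1 / π ≤ 0.31832 := by
  have h1 := pi_gt_d4
  have h2 := pi_lt_d4
  have hπ := pi_pos
  constructor
  · rw [le_div_iff₀ hπ]
    linarith
  · rw [div_le_iff₀ hπ]
    linarith

/-- Numerical assembly. -/
lemma D_num {A c κ E c1 A2 K E1 T : ℝ} (hA : 0 < A) (hA1 : A ≤ 0.675) (hc : 0 ≤ c) (hcc : c ≤ c1)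
    (hκ : 0 ≤ κ) (hA2 : A ^ 2 ≤ A2) (hE0 : 0 ≤ E) (hE : E ≤ E1)
    (hT : A / 6 - A ^ 3 / 40 + A ^ 5 / 336 ≤ T) (hT0 : 0 ≤ T)
    (hK : 1 + c1 * 1.25332 + c1 ^ 2 + 3 * κ * c1 ^ 3 * 1.25332 +
        0.0831 * A2 * (2 + 3 * c1 * 1.25332 + 4 * c1 ^ 2 + 15 * κ * c1 ^ 3 * 1.25332) ≤ K)
    (hfin : 1.25332 * T - 0.3183 + 0.0004 + 0.31832 * E1 * K ≤ 0) :
    rho * (A / 6 - A ^ 3 / 40 + A ^ 5 / 336) - 1 / π + (1 / π ^ 2 + 1 / π) * ga (π / A) +
      1 / π * E * (1 + c * rho + c ^ 2 + 3 * κ * c ^ 3 * rho +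
        0.0831 * A ^ 2 * (2 + 3 * c * rho + 4 * c ^ 2 + 15 * κ * c ^ 3 * rho)) ≤ 0 := by
  have hπ := pi_pos
  have hr := rho_pos
  have hr1 := rho_lt
  obtain ⟨hp1, hp2⟩ := inv_pi_bounds
  have h1 : rho * (A / 6 - A ^ 3 / 40 + A ^ 5 / 336) ≤ 1.25332 * T := by
    calc _ ≤ rho * T := mul_le_mul_of_nonneg_left hT hr.le
      _ ≤ _ := mul_le_mul_of_nonneg_right hr1.le hT0
  have h2 : (1 / π ^ 2 + 1 / π) * ga (π / A) ≤ 0.0004 := by
    have h3 : ga (π / A) ≤ 1 / 1300 := ga_small (by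
      rw [le_div_iff₀ hA]
      have := pi_gt_d2
      nlinarith)
    have h4 : 1 / π ^ 2 + 1 / π ≤ 0.42 := by
      have e : 1 / π ^ 2 = (1 / π) ^ 2 := by rw [one_div_pow]
      rw [e]
      nlinarith
    calc (1 / π ^ 2 + 1 / π) * ga (π / A) ≤ 0.42 * (1 / 1300) :=
          mul_le_mul h4 h3 (ga_pos _).le (by norm_num)
      _ ≤ _ := by norm_num
  have hc2 : c ^ 2 ≤ c1 ^ 2 := pow_le_pow_left₀ hc hcc 2
  have hc3 : c ^ 3 ≤ c1 ^ 3 := pow_le_pow_left₀ hc hcc 3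
  have hc10 : 0 ≤ c1 := hc.trans hcc
  have hcr : c * rho ≤ c1 * 1.25332 := mul_le_mul hcc hr1.le hr.le hc10
  have hcr3 : c ^ 3 * rho ≤ c1 ^ 3 * 1.25332 := mul_le_mul hc3 hr1.le hr.le (by positivity)
  have hκ3 : κ * (c ^ 3 * rho) ≤ κ * (c1 ^ 3 * 1.25332) := mul_le_mul_of_nonneg_left hcr3 hκ
  have h5 : 2 + 3 * c * rho + 4 * c ^ 2 + 15 * κ * c ^ 3 * rho ≤
      2 + 3 * c1 * 1.25332 + 4 * c1 ^ 2 + 15 * κ * c1 ^ 3 * 1.25332 := by linarith
  have h6 : A ^ 2 * (2 + 3 * c * rho + 4 * c ^ 2 + 15 * κ * c ^ 3 * rho) ≤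
      A2 * (2 + 3 * c1 * 1.25332 + 4 * c1 ^ 2 + 15 * κ * c1 ^ 3 * 1.25332) :=
    mul_le_mul hA2 h5 (by positivity) ((sq_nonneg A).trans hA2)
  have h7 : 1 + c * rho + c ^ 2 + 3 * κ * c ^ 3 * rho +
        0.0831 * A ^ 2 * (2 + 3 * c * rho + 4 * c ^ 2 + 15 * κ * c ^ 3 * rho) ≤ K := by linarith
  have h70 : 0 ≤ 1 + c * rho + c ^ 2 + 3 * κ * c ^ 3 * rho +
        0.0831 * A ^ 2 * (2 + 3 * c * rho + 4 * c ^ 2 + 15 * κ * c ^ 3 * rho) := by positivity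
  have h8 : 1 / π * E * (1 + c * rho + c ^ 2 + 3 * κ * c ^ 3 * rho +
        0.0831 * A ^ 2 * (2 + 3 * c * rho + 4 * c ^ 2 + 15 * κ * c ^ 3 * rho)) ≤
      0.31832 * E1 * K := by
    refine mul_le_mul (mul_le_mul hp2 hE hE0 (by norm_num)) h7 h70 ?_
    have : 0 ≤ E1 := hE0.trans hE
    positivity
  linarith

variable {ι : Type*} [Fintype ι] [DecidableEq ι]

section
variable {a : ι → ℝ} {s : Finset ι} {A : ℝ}

lemma poly_T {A : ℝ} (h0 : 0 ≤ A) {B : ℝ} (h : A ≤ B) (hB : B ≤ 1) :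
    A / 6 - A ^ 3 / 40 + A ^ 5 / 336 ≤ B / 6 - B ^ 3 / 40 + B ^ 5 / 336 := by
  have h5 : A ^ 5 ≤ B ^ 5 := pow_le_pow_left₀ h0 h 5
  have h3 : B ^ 3 - A ^ 3 ≤ (B - A) * 3 := by
    have e : B ^ 3 - A ^ 3 = (B - A) * (B ^ 2 + A * B + A ^ 2) := by ring
    rw [e]
    apply mul_le_mul_of_nonneg_left _ (by linarith)
    nlinarith
  linarith

/-- D1 -/
theorem D_one (ha : ∀ i ∈ s, 0 ≤ a i ∧ a i ≤ A) (hA : 0 < A) (hA1 : A ≤ 0.49)
    (hs : ∑ i ∈ s, a i ^ 2 = 1)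
    (hz : A ^ 2 * 0.155 ≤ ∑ i ∈ s.filter (fun i => a i ≤ A / 2), a i ^ 2)
    {x : ℝ} (hx0 : 0 ≤ x) (hx : x ≤ A / 2) :
    Pr (fun ε => Sm a s ε ≤ x) ≤ 1 / 2 + D x + D A := by
  have hπ := pi_pos
  have hπ1 := pi_gt_d4
  have hπ2 := pi_lt_d4
  refine D_general ha hA (by linarith) hs (z := 0.155) (κ := 0.21) (by norm_num) (by norm_num)
    ?_ hz hx0 hx rfl ?_
  · intro t ht0 ht1
    refine exp_cubic (S := 0.765) (by norm_num) ?_ t ht0 (ht1.trans (by nlinarith))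
    have h := Real.exp_bound' (x := 0.765) (by norm_num) (by norm_num) (n := 6) (by norm_num)
    refine h.trans ?_
    norm_num [Finset.sum_range_succ, Nat.factorial]
  · have hE : exp (-(π ^ 2 * 0.155 / 2)) ≤ 0.46737 := by
      have h1 : (0.7648 : ℝ) ≤ π ^ 2 * 0.155 / 2 := by nlinarith
      have h2 := exp_le4 0.7648 (by norm_num)
      have h3 : exp (-(π ^ 2 * 0.155 / 2)) ≤ exp (-0.7648) := exp_le_exp.2 (by linarith)
      refine h3.trans (h2.trans ?_)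
      norm_num
    refine D_num (c1 := 0.23861) (A2 := 0.2401) (K := 1.4302) (E1 := 0.46737) (T := 0.07882) hA
      (by linarith) (by positivity) ?_ (by norm_num) (by nlinarith) (exp_pos _).le hE
      ((poly_T hA.le hA1 (by norm_num)).trans (by norm_num)) (by norm_num) (by norm_num)
      (by norm_num)
    calc π * 0.155 * A ≤ 3.1416 * 0.155 * 0.49 := by
          apply mul_le_mul _ hA1 hA.le (by norm_num)
          linarith
      _ ≤ _ := by norm_num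

/-- D2 -/
theorem D_two (ha : ∀ i ∈ s, 0 ≤ a i ∧ a i ≤ A) (hA0 : 0.49 ≤ A) (hA1 : A ≤ 0.675)
    (hs : ∑ i ∈ s, a i ^ 2 = 1)
    (hz : A ^ 2 * 0.5 ≤ ∑ i ∈ s.filter (fun i => a i ≤ A / 2), a i ^ 2)
    {x : ℝ} (hx0 : 0 ≤ x) (hx : x ≤ A / 2) :
    Pr (fun ε => Sm a s ε ≤ x) ≤ 1 / 2 + D x + D A := by
  have hA : 0 < A := by linarith
  have hπ := pi_pos
  have hπ1 := pi_gt_d4
  have hπ2 := pi_lt_d4
  refine D_general ha hA (by linarith) hs (z := 0.5) (κ := 0.36) (by norm_num) (by norm_num)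
    ?_ hz hx0 hx rfl ?_
  · intro t ht0 ht1
    refine exp_cubic (S := 2.4675) (by norm_num) ?_ t ht0 (ht1.trans (by nlinarith))
    have h := Real.exp_bound' (x := 0.4675) (by norm_num) (by norm_num) (n := 6) (by norm_num)
    have h1 := exp_one_lt_d9
    have e : exp 2.4675 = exp 1 ^ 2 * exp 0.4675 := by
      rw [← exp_nat_mul, ← exp_add]
      norm_num
    have h2 : exp 0.4675 ≤ 1.597 := by
      refine h.trans ?_
      norm_num [Finset.sum_range_succ, Nat.factorial]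
    have h3 : exp 1 ^ 2 ≤ 7.39 := by
      calc exp 1 ^ 2 ≤ 2.7182818286 ^ 2 := pow_le_pow_left₀ (exp_pos _).le h1.le 2
        _ ≤ _ := by norm_num
    rw [e]
    calc exp 1 ^ 2 * exp 0.4675 ≤ 7.39 * 1.597 := mul_le_mul h3 h2 (exp_pos _).le (by norm_num)
      _ ≤ _ := by norm_num
  · have hE : exp (-(π ^ 2 * 0.5 / 2)) ≤ 0.08486 := by
      have h1 : (2.4672 : ℝ) ≤ π ^ 2 * 0.5 / 2 := by nlinarith
      have h2 := exp_le4 0.4672 (by norm_num)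
      have h3 : exp (-(π ^ 2 * 0.5 / 2)) ≤ exp (-2.4672) := exp_le_exp.2 (by linarith)
      have e : exp (-2.4672) = exp (-1) ^ 2 * exp (-0.4672) := by
        rw [← exp_nat_mul, ← exp_add]
        norm_num
      have h4 := exp_neg_one_lt_d9
      have h5 : exp (-1) ^ 2 ≤ 0.135336 := by
        calc exp (-1) ^ 2 ≤ 0.3678794412 ^ 2 := pow_le_pow_left₀ (exp_pos _).le h4.le 2
          _ ≤ _ := by norm_num
      refine h3.trans ?_
      rw [e]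
      calc exp (-1) ^ 2 * exp (-0.4672) ≤ 0.135336 *
            (1 - 0.4672 + 0.4672 ^ 2 / 2 - 0.4672 ^ 3 / 6 + 0.4672 ^ 4 / 24) :=
              mul_le_mul h5 h2 (exp_pos _).le (by norm_num)
        _ ≤ _ := by norm_num
    refine D_num (c1 := 1.0603) (A2 := 0.455625) (K := 5.7694) (E1 := 0.08486) (T := 0.10524) hA
      hA1 (by positivity) ?_ (by norm_num) (by nlinarith) (exp_pos _).le hE
      ((poly_T hA.le hA1 (by norm_num)).trans (by norm_num)) (by norm_num) (by norm_num)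
      (by norm_num)
    calc π * 0.5 * A ≤ 3.1416 * 0.5 * 0.675 := by
          apply mul_le_mul _ hA1 hA.le (by norm_num)
          linarith
      _ ≤ _ := by norm_num

end

end BE
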