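import Mathlib
import Pool.Agent.Lib.BE.Regions

/-!
# The crude region and the assembled negative and positive regions
-/

set_option autoImplicit false
set_option linter.unusedSectionVars false

open MeasureTheory Set Filter Topology Real

namespace BE

lemma ga_abs (x : ℝ) : ga |x| = ga x := by
  unfold ga
  rw [sq_abs]

lemma C1_abs (x : ℝ) : C1 |x| = C1 x := by
  rcases abs_cases x with ⟨h, _⟩ | ⟨h, _⟩
  · rw [h]
  · rw [h, C1_neg]

lemma XSp_nonneg (X : ℝ) : 0 ≤ XSp X := by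
  have e : XSp X = X ^ 2 * (1 - X ^ 2 / 3 + X ^ 4 / 15) := by unfold XSp; ring
  rw [e]
  have : 0 ≤ 1 - X ^ 2 / 3 + X ^ 4 / 15 := by nlinarith [sq_nonneg (X ^ 2 - 5 / 2)]
  positivity

variable {ι : Type*} [Fintype ι] [DecidableEq ι]

section
variable {a : ι → ℝ} {s : Finset ι} {A : ℝ}

/-- The region far from the mean. -/
theorem crude (ha : ∀ i ∈ s, 0 ≤ a i ∧ a i ≤ A) (hA : 0 < A) (hA1 : A ≤ 0.57)
    (hs : ∑ i ∈ s, a i ^ 2 = 1) {x X : ℝ} (hxX : |x| = X) (hX1 : 2 * A ≤ X) (hX2 : 0.92 ≤ X) :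
    Pr (fun ε => Sm a s ε ≤ x) ≤ 1 / 2 + D x + D A := by
  have hX0 : 0 < X := by linarith
  have hπ := pi_pos
  have hr := rho_pos
  set W : ℝ → ℝ := fun t => A * kb (A * t) +
    (A ^ 2 / 10) * (t ^ 3 + A * (1 - A * t / (2 * π)) ^ 2 * t ^ 4) with hWdef
  set c : ℕ → ℝ := fun k => match k with
    | 1 => A ^ 2 / 3
    | 2 => -0.088 * A ^ 3
    | 3 => 0.0059 * A ^ 4 + A ^ 2 / 10
    | 4 => A ^ 3 / 10
    | 5 => -(A ^ 4 / (10 * π))
    | 6 => A ^ 5 / (40 * π ^ 2)
    | _ => 0 with hc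
  have hWc : ∀ t, W t = ∑ k ∈ Finset.range 7, c k * t ^ k := by
    intro t
    simp only [hWdef, hc, Finset.sum_range_succ, Finset.range_zero, Finset.sum_empty]
    unfold kb
    field_simp
    ring
  have hWi : IntegrableOn (fun t => W t * ga t) (Ioi 0) := by
    have := int_poly 7 c
    refine this.congr (Eventually.of_forall fun t => ?_)
    simp only [hWc]
  have hW0 : ∀ t, 0 < t → 0 ≤ W t := by
    intro t ht
    have h1 := kb_nonneg (θ := A * t) (by positivity)
    simp only [hWdef]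
    positivity
  have hint : ∫ t in Ioi (0 : ℝ), W t * ga t ≤ A * rho *
      ((0.79789 / 3 * A - 0.088 * A ^ 2 + 0.0118 * 0.79789 * A ^ 3) +
        (0.79789 / 5 * A + 0.3 * A ^ 2 - 0.8 * 0.25397 * A ^ 3 + 0.038 * A ^ 4)) := by
    have h := integral_poly 7 c
    simp only [hWc]
    rw [h]
    simp only [hc, Finset.sum_range_succ, Finset.range_zero, Finset.sum_empty]
    rw [mo_one, mo2, mo3, mo4, mo5, mo6]
    have h1 : 1 ≤ rho * 0.79789 := by
      have := inv_rho_le
      rwa [div_le_iff₀ hr, mul_comm] at this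
    have h2 : 0.25397 * rho ≤ 1 / π := by
      have := c1_ge
      rw [le_div_iff₀ pirho_pos] at this
      rw [le_div_iff₀ hπ]
      linarith
    have h3 : 3 / 8 / π ^ 2 ≤ 0.038 := by
      rw [div_le_iff₀ (by positivity)]
      nlinarith [pi_gt_d4]
    have e : 0 * mo 0 + A ^ 2 / 3 * 1 + -0.088 * A ^ 3 * rho +
        (0.0059 * A ^ 4 + A ^ 2 / 10) * 2 + A ^ 3 / 10 * (3 * rho) + -(A ^ 4 / (10 * π)) * 8 +
        A ^ 5 / (40 * π ^ 2) * (15 * rho) =
        A ^ 2 / 3 - 0.088 * A ^ 3 * rho + 0.0118 * A ^ 4 + A ^ 2 / 5 + 0.3 * A ^ 3 * rho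
        - 0.8 * A ^ 4 * (1 / π) + A ^ 5 * rho * (3 / 8 / π ^ 2) := by
      field_simp
      ring
    have e0 : (0 : ℝ) + 0 * mo 0 = 0 * mo 0 := by ring
    rw [e0, e]
    have g1 := mul_le_mul_of_nonneg_left h1 (by positivity : 0 ≤ A ^ 2 / 3)
    have g2 := mul_le_mul_of_nonneg_left h1 (by positivity : 0 ≤ 0.0118 * A ^ 4)
    have g3 := mul_le_mul_of_nonneg_left h1 (by positivity : 0 ≤ A ^ 2 / 5)
    have g4 := mul_le_mul_of_nonneg_left h2 (by positivity : 0 ≤ 0.8 * A ^ 4)
    have g5 := mul_le_mul_of_nonneg_left h3 (by positivity : 0 ≤ A ^ 5 * rho)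
    linarith
  have hpt : ∀ t, 0 < t → t ≤ π / (2 * A) → P A x t * phi a s t ≤ (base A x t + W t) * ga t := by
    intro t ht0 ht1
    have hθ0 : 0 < A * t := mul_pos hA ht0
    have hθ1 := At_le hA ht1
    have hv := one_sub_nonneg hθ1
    have hm : -P A x t ≤ 1 / t + A * (1 - A * t / π) * 1 := by
      refine negP_le hA ht0 ht1 (by positivity) ?_ (by positivity) ?_
      · rw [← neg_div]
        refine div_le_div_of_nonneg_right ?_ ht0.le
        have := neg_one_le_sin (x * t)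
        linarith
      · have := neg_one_le_cos (x * t)
        linarith
    have hm0 : 0 ≤ 1 / t + A * (1 - A * t / π) * 1 := by
      have : 0 ≤ 1 - A * t / π := by linarith
      positivity
    have h2 := kurt (ga_pos t).le (q_nonneg (A := A) t) hm0
      (phi_le_ga ha hA hs ht0.le ht1) (phi_ge ha hA (by nlinarith) hs ht0.le ht1) hm
    refine h2.trans (mul_le_mul_of_nonneg_right ?_ (ga_pos t).le)
    rw [P_base hA ht0]
    have hk0 := kk_nonneg hθ0 hθ1
    have hk1 := kk_le hθ0 hθ1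
    have h3 : -(A * kk (A * t) * sin (x * t)) ≤ A * kb (A * t) := by
      have h4 : A * kk (A * t) * (-sin (x * t)) ≤ A * kk (A * t) * 1 :=
        mul_le_mul_of_nonneg_left (by have := neg_one_le_sin (x * t); linarith) (by positivity)
      have h5 : A * kk (A * t) ≤ A * kb (A * t) := mul_le_mul_of_nonneg_left hk1 hA.le
      linarith
    have h6 : (1 / t + A * (1 - A * t / π) * 1) * (A ^ 2 * t ^ 4 / 10) ≤
        (A ^ 2 / 10) * (t ^ 3 + A * (1 - A * t / (2 * π)) ^ 2 * t ^ 4) := by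
      have e1 : (1 / t + A * (1 - A * t / π) * 1) * (A ^ 2 * t ^ 4 / 10) =
          (A ^ 2 / 10) * (t ^ 3 + A * (1 - A * t / π) * t ^ 4) := by
        field_simp
      rw [e1]
      refine mul_le_mul_of_nonneg_left ?_ (by positivity)
      have h7 : 1 - A * t / π ≤ (1 - A * t / (2 * π)) ^ 2 := by
        have e2 : (1 - A * t / (2 * π)) ^ 2 = 1 - A * t / π + (A * t / (2 * π)) ^ 2 := by
          field_simp
          ring
        rw [e2]
        have := sq_nonneg (A * t / (2 * π))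
        linarith
      have h8 := mul_le_mul_of_nonneg_right (mul_le_mul_of_nonneg_left h7 hA.le)
        (by positivity : 0 ≤ t ^ 4)
      linarith
    simp only [hWdef]
    linarith
  have hiw : ∫ t in Ioc 0 (π / (2 * A)), W t * ga t ≤ A * rho *
      ((0.79789 / 3 * A - 0.088 * A ^ 2 + 0.0118 * 0.79789 * A ^ 3) +
        (0.79789 / 5 * A + 0.3 * A ^ 2 - 0.8 * 0.25397 * A ^ 3 + 0.038 * A ^ 4)) := by
    refine (setIntegral_mono_set hWi ?_ Ioc_subset_Ioi_self.eventuallyLE).trans hint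
    refine (ae_restrict_iff' measurableSet_Ioi).2 (Eventually.of_forall fun t ht => ?_)
    exact mul_nonneg (hW0 t ht) (ga_pos t).le
  have hWi' : IntegrableOn (fun t => W t * ga t) (Ioc 0 (π / (2 * A))) :=
    hWi.mono_set Ioc_subset_Ioi_self
  rcases le_total X 1.5 with h15 | h15
  · refine master2 ha hA hA1 hs hWi' (g := gaU X) (y := XSp X) hpt hiw ?_ ?_
      (XSp_nonneg X) ?_
    · rw [← ga_abs, hxX]; exact ga_le' X
    · rw [← C1_abs, hxX]
      have := C1_ge X hX0.le
      unfold XSp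
      linarith
    · have hQ : Qcr A (gaU X) (XSp X) ≤ 0 := by
        have hy := XSp_nonneg X
        rcases le_total X 1.14 with h | h
        · exact (qcr_mono hA.le (by linarith) (by linarith) hy).trans (qcr_diag hX2 h)
        · exact (qcr_mono hA.le hA1 (by norm_num) hy).trans (qcr_top h h15)
      unfold Qcr at hQ
      linarith
  · refine master2 ha hA hA1 hs hWi' (g := gaU 1.5) (y := 2) hpt hiw ?_ ?_ (by norm_num) ?_
    · rw [← ga_abs, hxX]
      exact (ga_anti (by norm_num) h15).trans (ga_le' 1.5)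
    · have := C1_ge_neg_one x
      linarith
    · have hQ : Qcr A (gaU 1.5) 2 ≤ 0 := by
        refine (qcr_mono hA.le hA1 (by norm_num) (by norm_num)).trans ?_
        unfold Qcr gaU GlA
        norm_num
      unfold Qcr at hQ
      linarith

/-- The negative region. -/
theorem Cneg (ha : ∀ i ∈ s, 0 ≤ a i ∧ a i ≤ A) (hA : 0 < A)
    (hs : ∑ i ∈ s, a i ^ 2 = 1) {X : ℝ}
    (h : (A ≤ 0.56 ∧ 2 * A ≤ X) ∨ (A ≤ 0.46 ∧ 1.7 * A ≤ X)) :
    Pr (fun ε => Sm a s ε ≤ -X) ≤ 1 / 2 - D X + D A := by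
  have hX0 : 0 ≤ X := by
    rcases h with h | h <;> linarith [h.2]
  have hcr : A ≤ 0.56 → 2 * A ≤ X → 0.92 ≤ X →
      Pr (fun ε => Sm a s ε ≤ -X) ≤ 1 / 2 - D X + D A := by
    intro h1 h2 h3
    have := crude (x := -X) (X := X) ha hA (by linarith) hs (by rw [abs_neg, abs_of_nonneg hX0])
      h2 h3
    rw [D_neg] at this
    linarith
  rcases le_total A 0.46 with hA1 | hA1
  · have h17 : 1.7 * A ≤ X := by rcases h with h | h <;> linarith [h.2]
    rcases le_total X 0.92 with hx | hx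
    · exact neg_poly ha hA hA1 hs h17 hx
    · exact hcr (by linarith) (by linarith) hx
  · rcases h with h | h
    · exact hcr h.1 h.2 (by linarith [h.2])
    · have : A = 0.46 := le_antisymm h.1 hA1
      rcases le_total X 0.92 with hx | hx
      · exact neg_poly ha hA h.1 hs h.2 hx
      · exact hcr (by linarith) (by linarith) hx

/-- The positive region. -/
theorem Cpos (ha : ∀ i ∈ s, 0 ≤ a i ∧ a i ≤ A) (hA : 0 < A) (hA1 : A ≤ 0.57)
    (hs : ∑ i ∈ s, a i ^ 2 = 1) {X : ℝ} (hX1 : A ≤ X) :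
    Pr (fun ε => Sm a s ε ≤ X) ≤ 1 / 2 + D X + D A := by
  have hX0 : 0 < X := by linarith
  rcases le_total 1.14 X with hX2 | hX2
  · exact crude ha hA hA1 hs (abs_of_pos hX0) (by linarith) (by linarith)
  have hπ := pi_pos
  have hr := rho_pos
  set W : ℝ → ℝ := fun t => 0.0003 * A ^ 2 * X ^ 5 * t ^ 6 +
    (0.0009 * X ^ 5 * t ^ 4 + 0.0273 * A * X ^ 4 * t ^ 4) * (A ^ 2 * t ^ 4 / 10) with hWdef
  set c : ℕ → ℝ := fun k => match k with
    | 6 => 0.0003 * A ^ 2 * X ^ 5
    | 8 => (0.0009 * X ^ 5 + 0.0273 * A * X ^ 4) * (A ^ 2 / 10)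
    | _ => 0 with hc
  have hWc : ∀ t, W t = ∑ k ∈ Finset.range 9, c k * t ^ k := by
    intro t
    simp only [hWdef, hc, Finset.sum_range_succ, Finset.range_zero, Finset.sum_empty]
    ring
  have hWi : IntegrableOn (fun t => W t * ga t) (Ioi 0) := by
    have := int_poly 9 c
    refine this.congr (Eventually.of_forall fun t => ?_)
    simp only [hWc]
  have hint : ∫ t in Ioi (0 : ℝ), W t * ga t ≤ A * rho *
      (0.01395 * A * X ^ 5 + 0.28665 * A ^ 2 * X ^ 4) := by
    have h := integral_poly 9 c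
    simp only [hWc]
    rw [h]
    simp only [hc, Finset.sum_range_succ, Finset.range_zero, Finset.sum_empty]
    rw [mo6, mo8]
    refine le_of_eq ?_
    ring
  refine master2 ha hA hA1 hs (hWi.mono_set Ioc_subset_Ioi_self)
    (g := gaU X) (y := XSp X) ?_ ((setIntegral_mono_set hWi ?_
      Ioc_subset_Ioi_self.eventuallyLE).trans hint) (ga_le' X) ?_
      (XSp_nonneg X) ?_
  · intro t ht0 ht1
    have hθ0 : 0 < A * t := mul_pos hA ht0
    have hθ1 := At_le hA ht1
    have hXt : 0 < X * t := mul_pos hX0 ht0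
    have hns := negsin_le hXt.le
    have hnc := negcos_le hXt.le
    have hm : -P A X t ≤ 0.0009 * X ^ 5 * t ^ 4 +
        A * (1 - A * t / π) * (0.0273 * (X * t) ^ 4) := by
      refine negP_le hA ht0 ht1 (by positivity) ?_ (by positivity) hnc
      rw [← neg_div, div_le_iff₀ ht0]
      refine hns.trans (le_of_eq ?_)
      ring
    have hm2 : -P A X t ≤ 0.0009 * X ^ 5 * t ^ 4 + 0.0273 * A * X ^ 4 * t ^ 4 := by
      refine hm.trans ?_
      have h1 : A * (1 - A * t / π) * (0.0273 * (X * t) ^ 4) ≤ A * 1 * (0.0273 * (X * t) ^ 4) := by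
        refine mul_le_mul_of_nonneg_right (mul_le_mul_of_nonneg_left ?_ hA.le) (by positivity)
        have : 0 ≤ A * t / π := by positivity
        linarith
      have e : A * 1 * (0.0273 * (X * t) ^ 4) = 0.0273 * A * X ^ 4 * t ^ 4 := by ring
      linarith
    have h2 := kurt (ga_pos t).le (q_nonneg (A := A) t)
      (by positivity : 0 ≤ 0.0009 * X ^ 5 * t ^ 4 + 0.0273 * A * X ^ 4 * t ^ 4)
      (phi_le_ga ha hA hs ht0.le ht1) (phi_ge ha hA (by nlinarith) hs ht0.le ht1) hm2
    refine h2.trans (mul_le_mul_of_nonneg_right ?_ (ga_pos t).le)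
    rw [P_base hA ht0]
    have hk0 := kk_nonneg hθ0 hθ1
    have hk1 : kk (A * t) ≤ A * t / 3 := by
      refine (kk_le hθ0 hθ1).trans ?_
      unfold kb
      have h5 : A * t ≤ 1.6 := hθ1.trans (by linarith [pi_lt_d2])
      nlinarith [mul_nonneg (sq_nonneg (A * t)) (sub_nonneg.2 h5)]
    have h3 : -(A * kk (A * t) * sin (X * t)) ≤ 0.0003 * A ^ 2 * X ^ 5 * t ^ 6 := by
      have h4 : A * kk (A * t) * (-sin (X * t)) ≤ A * kk (A * t) * (0.0009 * (X * t) ^ 5) :=
        mul_le_mul_of_nonneg_left hns (by positivity)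
      have h5 : A * kk (A * t) * (0.0009 * (X * t) ^ 5) ≤
          A * (A * t / 3) * (0.0009 * (X * t) ^ 5) :=
        mul_le_mul_of_nonneg_right (mul_le_mul_of_nonneg_left hk1 hA.le) (by positivity)
      have e : A * (A * t / 3) * (0.0009 * (X * t) ^ 5) = 0.0003 * A ^ 2 * X ^ 5 * t ^ 6 := by
        ring
      linarith
    simp only [hWdef]
    linarith
  · refine (ae_restrict_iff' measurableSet_Ioi).2 (Eventually.of_forall fun t ht => ?_)
    have ht0 : 0 < t := ht
    have := (ga_pos t).le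
    simp only [hWdef, Pi.zero_apply]
    positivity
  · have := C1_ge X hX0.le
    unfold XSp
    linarith
  · have hQ : Qpos A X ≤ 0 := by
      rcases le_total X 0.57 with h | h
      · exact (qpos_mono hA.le hX1 (by linarith) hX0.le (by linarith)).trans (qpos_diag hX0.le h)
      · exact (qpos_mono hA.le hA1 (by norm_num) hX0.le (by linarith)).trans (qpos_top h hX2)
    unfold Qpos at hQ
    linarith

end

end BE
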