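import Mathlib
import Pool.Agent.Lib.BE.Regions2

/-!
# The intermediate region `A / 2 ≤ x ≤ A`
-/

set_option autoImplicit false
set_option linter.unusedSectionVars false

open MeasureTheory Set Filter Topology Real

namespace BE

lemma tail_three {c : ℝ} (hc : 0 ≤ c) :
    ∫ t in Ioi c, t ^ 3 * ga t = (c ^ 2 + 2) * ga c := by
  have h : ∀ t ∈ Ici c, HasDerivAt (fun t => -((t ^ 2 + 2) * ga t)) (t ^ 3 * ga t) t := by
    intro t _
    have := (((hasDerivAt_pow 2 t).add_const 2).mul (ga_hasDeriv t)).neg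
    refine this.congr_deriv ?_
    norm_num
    ring
  have hl : Tendsto (fun t => -((t ^ 2 + 2) * ga t)) atTop (𝓝 0) := by
    have := ((tendsto_pow_ga 2).add ((tendsto_pow_ga 0).const_mul 2)).neg
    simp only [mul_zero, add_zero, neg_zero] at this
    refine this.congr fun t => ?_
    ring
  have h2 := integral_Ioi_of_hasDerivAt_of_tendsto' h ((int_pow_ga 3).mono_set
    (Ioi_subset_Ioi hc)) hl
  rw [h2]
  ring

lemma tail_five {c : ℝ} (hc : 0 ≤ c) :
    ∫ t in Ioi c, t ^ 5 * ga t = (c ^ 4 + 4 * c ^ 2 + 8) * ga c := by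
  have h : ∀ t ∈ Ici c, HasDerivAt (fun t => -((t ^ 4 + 4 * t ^ 2 + 8) * ga t))
      (t ^ 5 * ga t) t := by
    intro t _
    have := ((((hasDerivAt_pow 4 t).add ((hasDerivAt_pow 2 t).const_mul 4)).add_const 8).mul
      (ga_hasDeriv t)).neg
    refine this.congr_deriv ?_
    norm_num
    ring
  have hl : Tendsto (fun t => -((t ^ 4 + 4 * t ^ 2 + 8) * ga t)) atTop (𝓝 0) := by
    have := (((tendsto_pow_ga 4).add ((tendsto_pow_ga 2).const_mul 4)).add
      ((tendsto_pow_ga 0).const_mul 8)).neg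
    simp only [mul_zero, add_zero, neg_zero] at this
    refine this.congr fun t => ?_
    ring
  have h2 := integral_Ioi_of_hasDerivAt_of_tendsto' h ((int_pow_ga 5).mono_set
    (Ioi_subset_Ioi hc)) hl
  rw [h2]
  ring

lemma p_exp {p : ℝ} (hp : 6.67 ≤ p) : p ≤ 0.0096 * exp p := by
  have h0 : 403.4 ≤ exp 6 := by
    have e : exp 6 = exp 3 ^ 2 := by rw [← exp_nat_mul]; norm_num
    rw [e]
    calc (403.4 : ℝ) ≤ 20.085 ^ 2 := by norm_num
      _ ≤ exp 3 ^ 2 := pow_le_pow_left₀ (by norm_num) exp_one_cube 2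
  have h1 : exp p = exp 6 * exp (p - 6) := by
    rw [← exp_add]; ring_nf
  have hd : 0 ≤ p - 6 := by linarith
  have h2 := exp_ge5 hd
  have h3 : 1 + (p - 6) + (p - 6) ^ 2 / 2 ≤ exp (p - 6) := by
    have : 0 ≤ (p - 6) ^ 3 / 6 + (p - 6) ^ 4 / 24 + (p - 6) ^ 5 / 120 := by positivity
    linarith
  have h4 : 403.4 * (1 + (p - 6) + (p - 6) ^ 2 / 2) ≤ exp p := by
    rw [h1]
    exact mul_le_mul h0 h3 (by positivity) (by positivity)
  nlinarith [sq_nonneg (p - 6)]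

lemma tail_mid {A x : ℝ} (hA : 0 < A) (hA1 : A ≤ 0.43) (hx0 : 0 ≤ x) (hx : x ≤ A) :
    A ^ 3 * x / (3 * π) * (((π / (2 * A)) ^ 2 + 2) * ga (π / (2 * A))) +
      A ^ 3 * x ^ 3 / (18 * π) * (((π / (2 * A)) ^ 4 + 4 * (π / (2 * A)) ^ 2 + 8) *
        ga (π / (2 * A))) ≤ A * rho * (0.0012 * A ^ 2) := by
  have hπ := pi_pos
  have hπ1 := pi_gt_d4
  have hπ2 := pi_lt_d4
  set t0 := π / (2 * A) with ht0
  have ht : 0 < t0 := by positivity
  set p := π ^ 2 / (8 * A ^ 2) with hp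
  have hp0 : 6.67 ≤ p := by
    rw [hp, le_div_iff₀ (by positivity)]
    nlinarith
  have hg : ga t0 = exp (-p) := by
    unfold ga
    congr 1
    rw [hp, ht0]
    field_simp
    ring
  have h1 := p_exp hp0
  have h2 : p * exp (-p) ≤ 0.0096 := by
    rw [exp_neg, ← div_eq_mul_inv, div_le_iff₀ (exp_pos p)]
    exact h1
  have hx3 : x ^ 3 ≤ A ^ 3 := pow_le_pow_left₀ hx0 hx 3
  have hg0 := (ga_pos t0).le
  have h3 : A ^ 3 * x / (3 * π) * ((t0 ^ 2 + 2) * ga t0) ≤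
      A ^ 3 * A / (3 * π) * ((t0 ^ 2 + 2) * ga t0) := by
    refine mul_le_mul_of_nonneg_right ?_ (by positivity)
    exact div_le_div_of_nonneg_right (mul_le_mul_of_nonneg_left hx (by positivity)) (by positivity)
  have h4 : A ^ 3 * x ^ 3 / (18 * π) * ((t0 ^ 4 + 4 * t0 ^ 2 + 8) * ga t0) ≤
      A ^ 3 * A ^ 3 / (18 * π) * ((t0 ^ 4 + 4 * t0 ^ 2 + 8) * ga t0) := by
    refine mul_le_mul_of_nonneg_right ?_ (by positivity)
    exact div_le_div_of_nonneg_right (mul_le_mul_of_nonneg_left hx3 (by positivity))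
      (by positivity)
  refine (add_le_add h3 h4).trans ?_
  have e : A ^ 3 * A / (3 * π) * ((t0 ^ 2 + 2) * ga t0) +
      A ^ 3 * A ^ 3 / (18 * π) * ((t0 ^ 4 + 4 * t0 ^ 2 + 8) * ga t0) =
      A ^ 4 * (8 / (3 * π ^ 3)) * (π ^ 2 / 4 + 2 * A ^ 2 +
        (π ^ 4 / 16 + A ^ 2 * π ^ 2 + 8 * A ^ 4) / 6) * (p * ga t0) := by
    rw [hp, ht0]
    field_simp
    ring
  rw [e, hg]
  have h5 : π ^ 2 / 4 + 2 * A ^ 2 + (π ^ 4 / 16 + A ^ 2 * π ^ 2 + 8 * A ^ 4) / 6 ≤ 4.21 := by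
    have g1 : A ^ 2 ≤ 0.1849 := by nlinarith
    have g2 : π ^ 2 ≤ 9.8703 := by nlinarith
    have g3 : A ^ 4 ≤ 0.0342 := by nlinarith
    have g4 : π ^ 4 ≤ 97.423 := by nlinarith
    have g5 : A ^ 2 * π ^ 2 ≤ 0.1849 * 9.8703 := mul_le_mul g1 g2 (by positivity) (by norm_num)
    norm_num at g5
    linarith
  have h6 : 8 / (3 * π ^ 3) ≤ 0.08602 := by
    rw [div_le_iff₀ (by positivity)]
    have : (3.1415 : ℝ) ^ 3 ≤ π ^ 3 := pow_le_pow_left₀ (by norm_num) hπ1.le 3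
    norm_num at this
    linarith
  have h7 : A ^ 4 * (8 / (3 * π ^ 3)) * (π ^ 2 / 4 + 2 * A ^ 2 +
        (π ^ 4 / 16 + A ^ 2 * π ^ 2 + 8 * A ^ 4) / 6) * (p * exp (-p)) ≤
      A ^ 4 * 0.08602 * 4.21 * 0.0096 := by
    refine mul_le_mul (mul_le_mul (mul_le_mul_of_nonneg_left h6 (by positivity)) h5
      (by positivity) (by positivity)) h2 (by positivity) (by positivity)
  refine h7.trans ?_
  have h8 : A * rho * (0.0012 * A ^ 2) = A ^ 3 * (rho * 0.0012) := by ring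
  rw [h8]
  have h9 := rho_gt
  have h10 : A ^ 4 * 0.08602 * 4.21 * 0.0096 = A ^ 3 * (A * (0.08602 * 4.21 * 0.0096)) := by ring
  rw [h10]
  refine mul_le_mul_of_nonneg_left ?_ (by positivity)
  norm_num
  linarith

/-- Final polynomial inequality for the intermediate region. -/
lemma qpp {A x : ℝ} (hA : 0 < A) (hA1 : A ≤ 0.43) (hx1 : A / 2 ≤ x) (hx2 : x ≤ A) :
    gaU x + GlA A + 0.25398 * A * (x ^ 2 + 0.1662 * A ^ 2) +
      (-(A * x / 3) * (1 - 2 * 0.25398 * A) + A * x ^ 3 / 18 * (3 - 8 * 0.25397 * A) +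
        0.0012 * A ^ 2) + 0.38 * A ^ 7 ≤ 0 := by
  have hx0 : 0 < x := by linarith
  have hx3 : x ≤ 0.43 := by linarith
  have hx20 : x ^ 2 ≤ 0.1849 := by nlinarith
  have hA20 : A ^ 2 ≤ 0.1849 := by nlinarith
  have h1 : gaU x ≤ 1 - x ^ 2 / 2 + x ^ 4 / 8 := by
    unfold gaU
    have : 0 ≤ x ^ 6 * (8 - x ^ 2) := by
      have : 0 ≤ 8 - x ^ 2 := by linarith
      positivity
    linarith
  have h2 : x ^ 4 ≤ 0.1849 * x ^ 2 := by nlinarith [sq_nonneg x]
  have h3 : A * x ^ 2 ≤ 0.43 * x ^ 2 := mul_le_mul_of_nonneg_right hA1 (sq_nonneg x)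
  have h4 : A * x ^ 3 ≤ 0.1849 * x ^ 2 := by
    have : A * x ≤ 0.1849 := by nlinarith
    nlinarith [mul_nonneg (sub_nonneg.2 this) (sq_nonneg x)]
  have h5 : A ^ 2 * x ^ 3 ≥ 0 := by positivity
  have h6 : A ^ 2 * x ≤ 0.43 * (A * x) := by nlinarith [mul_nonneg hA.le hx0.le]
  have h7 : A ^ 2 / 4 ≤ x ^ 2 := by nlinarith
  have h8 : A ^ 2 / 2 ≤ A * x := by nlinarith
  have h9 : A ^ 3 ≤ 0.43 * A ^ 2 := by nlinarith [sq_nonneg A]
  have h10 : A ^ 7 ≤ 0.0148 * A ^ 2 := by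
    have e : A ^ 7 = A ^ 2 * A ^ 5 := by ring
    have : A ^ 5 ≤ 0.43 ^ 5 := pow_le_pow_left₀ hA.le hA1 5
    norm_num at this
    rw [e]
    nlinarith [sq_nonneg A]
  have h11 : A ^ 6 ≤ A ^ 4 := by
    have e : A ^ 6 = A ^ 4 * A ^ 2 := by ring
    rw [e]
    have : 0 ≤ A ^ 4 := by positivity
    nlinarith
  have h12 : 0 ≤ A ^ 4 := by positivity
  unfold GlA
  nlinarith

variable {ι : Type*} [Fintype ι] [DecidableEq ι]

section
variable {a : ι → ℝ} {s : Finset ι} {A : ℝ}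

/-- Upper comparison of the product with the Gaussian when the kernel is nonnegative. -/
lemma pos_kernel {x : ℝ} (ha : ∀ i ∈ s, 0 ≤ a i ∧ a i ≤ A) (hA : 0 < A)
    (hs : ∑ i ∈ s, a i ^ 2 = 1) (hx0 : 0 ≤ x) (hx : x ≤ A) {t : ℝ} (ht0 : 0 < t)
    (ht : t ≤ π / (2 * A)) :
    0 ≤ sin (x * t) ∧ P A x t * phi a s t ≤ (base A x t - A * kk (A * t) * sin (x * t)) * ga t := by
  have hπ := pi_pos
  have hθ0 : 0 < A * t := mul_pos hA ht0
  have hθ1 := At_le hA ht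
  have hxt0 : 0 ≤ x * t := by positivity
  have hxt : x * t ≤ π / 2 := (mul_le_mul_of_nonneg_right hx ht0.le).trans hθ1
  have hs0 : 0 ≤ sin (x * t) := sin_nonneg_of_nonneg_of_le_pi hxt0 (by linarith)
  have hc0 : 0 ≤ cos (x * t) := cos_nonneg_of_neg_pi_div_two_le_of_le (by linarith) hxt
  refine ⟨hs0, ?_⟩
  have hP : 0 ≤ P A x t := by
    have := negP_le (x := x) (m1 := 0) (m2 := 0) hA ht0 ht le_rfl
      (by rw [neg_nonpos]; positivity) le_rfl (by linarith)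
    linarith
  rw [← P_base hA ht0]
  exact mul_le_mul_of_nonneg_left (phi_le_ga ha hA hs ht0.le ht) hP

/-- The intermediate region. -/
theorem Cpp (ha : ∀ i ∈ s, 0 ≤ a i ∧ a i ≤ A) (hA : 0 < A) (hA1 : A ≤ 0.43)
    (hs : ∑ i ∈ s, a i ^ 2 = 1) {x : ℝ} (hx1 : A / 2 ≤ x) (hx2 : x ≤ A) :
    Pr (fun ε => Sm a s ε ≤ x) ≤ 1 / 2 + D x + D A := by
  have hx0 : 0 < x := by linarith
  have hπ := pi_pos
  have hr := rho_pos
  have ht0 : 0 < π / (2 * A) := by positivity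
  set W : ℝ → ℝ := fun t => -(A ^ 2 / 3 * (1 - A * t / π) * (x * t ^ 2 - x ^ 3 * t ^ 4 / 6))
    with hWdef
  set c : ℕ → ℝ := fun k => match k with
    | 2 => -(A ^ 2 * x / 3)
    | 3 => A ^ 3 * x / (3 * π)
    | 4 => A ^ 2 * x ^ 3 / 18
    | 5 => -(A ^ 3 * x ^ 3 / (18 * π))
    | _ => 0 with hc
  have hWc : ∀ t, W t = ∑ k ∈ Finset.range 6, c k * t ^ k := by
    intro t
    simp only [hWdef, hc, Finset.sum_range_succ, Finset.range_zero, Finset.sum_empty]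
    field_simp
    ring
  have hWi : IntegrableOn (fun t => W t * ga t) (Ioi 0) := by
    have := int_poly 6 c
    refine this.congr (Eventually.of_forall fun t => ?_)
    simp only [hWc]
  have hint : ∫ t in Ioi (0 : ℝ), W t * ga t = -(A ^ 2 * x / 3) * rho +
      A ^ 3 * x / (3 * π) * 2 + A ^ 2 * x ^ 3 / 18 * (3 * rho) - A ^ 3 * x ^ 3 / (18 * π) * 8 := by
    have h := integral_poly 6 c
    simp only [hWc]
    rw [h]
    simp only [hc, Finset.sum_range_succ, Finset.range_zero, Finset.sum_empty]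
    rw [mo2, mo3, mo4, mo5]
    ring
  have htail : -∫ t in Ioi (π / (2 * A)), W t * ga t ≤
      A ^ 3 * x / (3 * π) * (((π / (2 * A)) ^ 2 + 2) * ga (π / (2 * A))) +
      A ^ 3 * x ^ 3 / (18 * π) * (((π / (2 * A)) ^ 4 + 4 * (π / (2 * A)) ^ 2 + 8) *
        ga (π / (2 * A))) := by
    rw [← tail_three ht0.le, ← tail_five ht0.le, ← integral_neg, ← integral_const_mul,
      ← integral_const_mul, ← integral_add
      (((int_pow_ga 3).mono_set (Ioi_subset_Ioi ht0.le)).const_mul _)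
      (((int_pow_ga 5).mono_set (Ioi_subset_Ioi ht0.le)).const_mul _)]
    refine setIntegral_mono_on ((hWi.mono_set (Ioi_subset_Ioi ht0.le)).neg)
      ((((int_pow_ga 3).mono_set (Ioi_subset_Ioi ht0.le)).const_mul _).add
      (((int_pow_ga 5).mono_set (Ioi_subset_Ioi ht0.le)).const_mul _)) measurableSet_Ioi
      fun t ht => ?_
    have ht1 : π / (2 * A) < t := ht
    have htp : 0 < t := ht0.trans ht1
    have e : A ^ 3 * x / (3 * π) * (t ^ 3 * ga t) + A ^ 3 * x ^ 3 / (18 * π) * (t ^ 5 * ga t) =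
        (A ^ 2 / 3 * ((A * t / π) * (x * t ^ 2) + (A * t / π) * (x ^ 3 * t ^ 4 / 6))) * ga t := by
      field_simp
      ring
    simp only [hWdef]
    rw [e, ← neg_mul, neg_neg]
    refine mul_le_mul_of_nonneg_right ?_ (ga_pos t).le
    rw [mul_assoc]
    refine mul_le_mul_of_nonneg_left ?_ (by positivity)
    have hv : 1 / 2 ≤ A * t / π := by
      rw [div_lt_iff₀ (by positivity)] at ht1
      rw [le_div_iff₀ hπ]; linarith
    set v := A * t / π
    have h1 : 0 ≤ x * t ^ 2 := by positivity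
    have h2 : 0 ≤ x ^ 3 * t ^ 4 / 6 := by positivity
    rcases le_total v 1 with h | h
    · nlinarith [mul_nonneg (sub_nonneg.2 h) h2, mul_nonneg (sub_nonneg.2 hv) h1]
    · nlinarith [mul_nonneg (sub_nonneg.2 h) h1, mul_nonneg (sub_nonneg.2 h) h2]
  have hsplit : ∫ t in Ioc 0 (π / (2 * A)), W t * ga t =
      (∫ t in Ioi (0 : ℝ), W t * ga t) - ∫ t in Ioi (π / (2 * A)), W t * ga t := by
    rw [← Ioc_union_Ioi_eq_Ioi ht0.le,
      setIntegral_union Ioc_disjoint_Ioi_same measurableSet_Ioi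
      (hWi.mono_set Ioc_subset_Ioi_self) (hWi.mono_set (Ioi_subset_Ioi ht0.le))]
    ring
  refine master2 ha hA (by linarith) hs (hWi.mono_set Ioc_subset_Ioi_self)
    (g := gaU x) (y := x ^ 2) (w' := -(A * x / 3) * (1 - 2 * 0.25398 * A) +
      A * x ^ 3 / 18 * (3 - 8 * 0.25397 * A) + 0.0012 * A ^ 2) ?_ ?_ (ga_le' x) ?_
      (sq_nonneg x) ?_
  · intro t ht1 ht2
    have hθ0 : 0 < A * t := mul_pos hA ht1
    have hθ1 := At_le hA ht2
    have hxt0 : 0 ≤ x * t := by positivity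
    obtain ⟨hs0, hP⟩ := pos_kernel ha hA hs hx0.le hx2 ht1 ht2
    refine hP.trans (mul_le_mul_of_nonneg_right ?_ (ga_pos t).le)
    have hk := kk_ge hθ0 hθ1
    have hs3 := sin_ge3 (x * t) hxt0
    have hv := one_sub_nonneg hθ1
    have h1 : (1 - A * t / π) * (A * t / 3) * (x * t - (x * t) ^ 3 / 6) ≤
        kk (A * t) * sin (x * t) := by
      have g1 : (1 - A * t / π) * (A * t / 3) * (x * t - (x * t) ^ 3 / 6) ≤
          (1 - A * t / π) * (A * t / 3) * sin (x * t) :=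
        mul_le_mul_of_nonneg_left hs3 (mul_nonneg (by linarith) (by positivity))
      exact g1.trans (mul_le_mul_of_nonneg_right hk hs0)
    have h2 := mul_le_mul_of_nonneg_left h1 hA.le
    have e : A * ((1 - A * t / π) * (A * t / 3) * (x * t - (x * t) ^ 3 / 6)) =
        A ^ 2 / 3 * (1 - A * t / π) * (x * t ^ 2 - x ^ 3 * t ^ 4 / 6) := by
      ring
    simp only [hWdef]
    linarith
  · rw [hsplit, hint]
    have h1 := htail.trans (tail_mid hA hA1 hx0.le hx2)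
    have h2 : 0.25397 * rho ≤ 1 / π := by
      have := c1_ge
      rw [le_div_iff₀ pirho_pos] at this
      rw [le_div_iff₀ hπ]
      linarith
    have h3 : 1 / π ≤ 0.25398 * rho := by
      have := c1_le
      rw [div_le_iff₀ pirho_pos] at this
      rw [div_le_iff₀ hπ]
      linarith
    have e1 : A ^ 3 * x / (3 * π) * 2 = A ^ 3 * x * 2 / 3 * (1 / π) := by field_simp
    have e2 : A ^ 3 * x ^ 3 / (18 * π) * 8 = A ^ 3 * x ^ 3 * 8 / 18 * (1 / π) := by field_simp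
    rw [e1, e2]
    have g1 := mul_le_mul_of_nonneg_left h3 (by positivity : 0 ≤ A ^ 3 * x * 2 / 3)
    have g2 := mul_le_mul_of_nonneg_left h2 (by positivity : 0 ≤ A ^ 3 * x ^ 3 * 8 / 18)
    linarith
  · have := C1_ge2 x
    linarith
  · exact qpp hA hA1 hx1 hx2

end

end BE
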