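import Mathlib
import Pool.Agent.Lib.BE.RegionsP
import Pool.Agent.Lib.BE.RegionsD2
import Pool.Agent.Lib.BE.Large
import Pool.Agent.Lib.BE.LargeZero
import Pool.Agent.Lib.BE.Cond
import Pool.Agent.Lib.BE.Assemble

/-!
# The one-sided bound in all regions
-/

set_option autoImplicit false
set_option linter.unusedSectionVars false

open MeasureTheory Set Filter Topology Real

namespace BE

variable {ι : Type*} [Fintype ι] [DecidableEq ι]

lemma D_mono {x y : ℝ} (h : x ≤ y) : D x ≤ D y := by
  unfold D
  exact div_le_div_of_nonneg_right (G_mono h) (by have := rho_pos; positivity)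

lemma quarter_of {x A : ℝ} (h : 0.62666 ≤ G x + G A) : 1 / 4 ≤ D x + D A := by
  have hr := rho_pos
  have h2 := rho_lt
  unfold D
  rw [← add_div, le_div_iff₀ (by positivity)]
  linarith

/-- Few small weights force many big ones. -/
lemma card_big {a : ι → ℝ} {s : Finset ι} {A : ℝ} (ha : ∀ i ∈ s, 0 ≤ a i ∧ a i ≤ A)
    (hs : ∑ i ∈ s, a i ^ 2 = 1)
    (hz : ∑ i ∈ s.filter (fun i => a i ≤ A / 2), a i ^ 2 ≤ A ^ 2 * 0.5) :
    1 - A ^ 2 * 0.5 ≤ ((s.filter (fun i => A / 2 < a i)).card : ℝ) * A ^ 2 := by
  have h1 := Finset.sum_filter_add_sum_filter_not s (fun i => a i ≤ A / 2) (fun i => a i ^ 2)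
  rw [hs] at h1
  have h2 : ∑ i ∈ s.filter (fun i => ¬a i ≤ A / 2), a i ^ 2 ≤
      ((s.filter (fun i => A / 2 < a i)).card : ℝ) * A ^ 2 := by
    simp only [not_le]
    rw [← nsmul_eq_mul]
    refine Finset.sum_le_card_nsmul _ _ _ fun i hi => ?_
    have := ha i (Finset.mem_filter.1 hi).1
    exact pow_le_pow_left₀ this.1 this.2 2
  linarith

/-- The one-sided bound. -/
theorem U_all (a : ι → ℝ) (s : Finset ι) {i0 : ι} {A : ℝ} (ha : ∀ i ∈ s, 0 ≤ a i ∧ a i ≤ A)
    (hi0 : i0 ∈ s) (hi : a i0 = A) (hs : ∑ i ∈ s, a i ^ 2 = 1) (hA : 0 < A) (x : ℝ) :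
    Pr (fun ε => Sm a s ε ≤ x) ≤ 1 / 2 + D x + D A := by
  have hr := rho_pos
  have hD0 : D 0 = 0 := by unfold D; rw [G_zero, zero_div]
  rcases lt_or_ge x (-A) with hx | hx
  · -- far negative
    obtain ⟨X, hX⟩ : ∃ X, X = -x := ⟨_, rfl⟩
    have hxX : x = -X := by linarith
    have hAX : A < X := by linarith
    have hgoal : Pr (fun ε => Sm a s ε ≤ -X) ≤ 1 / 2 - D X + D A := by
      rcases le_total A 0.56 with h1 | h1
      · rcases le_total A 0.46 with h2 | h2
        · rcases le_total X (1.7 * A) with h3 | h3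
          · refine cond_step a s ha hi0 hi hs hA h2 hAX h3 ?_
            intro a' s' A' X' g1 g2 g3 g4 g5
            exact Cneg g1 g3 g2 (Or.inl ⟨g4, g5⟩)
          · exact Cneg ha hA hs (Or.inr ⟨h2, h3⟩)
        · rcases le_total X (2 * A) with h3 | h3
          · exact neg_cheb a s hi0 hi hs h2 (by linarith) hAX h3
          · exact Cneg ha hA hs (Or.inl ⟨h1, h3⟩)
      · exact neg_large a s hi0 hi hs h1 hAX
    rw [hxX, D_neg]
    linarith
  rcases lt_or_ge x 0 with hx0 | hx0
  · have h1 := Pr_neg_half a s hx0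
    have h2 := D_mono hx
    rw [D_neg] at h2
    linarith
  rcases le_or_gt A x with hxA | hxA
  · rcases le_total A 0.56 with h1 | h1
    · exact Cpos ha hA (by linarith) hs hxA
    · exact pos_large a s hi0 hi hs h1 hxA
  by_cases hD : 1 / 4 ≤ D x + D A
  · have := pos_half a s hi0 hi hxA
    linarith
  have hGx : 0 ≤ G x := G_nonneg hx0
  have hsum : G x + G A < 0.62666 := by
    by_contra h
    exact hD (quarter_of (not_lt.1 h))
  have hA675 : A ≤ 0.675 := by
    by_contra h
    have h1 := G_mono (not_le.1 h).le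
    have h2 := G_ge 0.675 (by norm_num)
    norm_num at h2
    linarith
  rcases le_total x (A / 2) with hx2 | hx2
  · rcases le_total A 0.49 with h1 | h1
    · rcases le_total (A ^ 2 * 0.155) (∑ i ∈ s.filter (fun i => a i ≤ A / 2), a i ^ 2) with h2 | h2
      · exact D_one ha hA h1 hs h2 hx0 hx2
      · exact sperner_small a s ha hs hA h1 hx0 hx2 (by linarith)
    · rcases le_total (A ^ 2 * 0.5) (∑ i ∈ s.filter (fun i => a i ≤ A / 2), a i ^ 2) with h2 | h2
      · exact D_two ha h1 hA675 hs h2 hx0 hx2
      · have h3 := card_big ha hs h2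
        rcases le_total A 0.56 with h4 | h4
        · refine sperner_three a s ha h1 hx0 hx2 ?_
          by_contra h5
          have h6 : ((s.filter (fun i => A / 2 < a i)).card : ℝ) ≤ 2 := by
            have : (s.filter (fun i => A / 2 < a i)).card ≤ 2 := by omega
            exact_mod_cast this
          have h7 := mul_le_mul_of_nonneg_right h6 (sq_nonneg A)
          nlinarith
        · refine zero_large a s ha hi0 hi hs h4 hA675 hx0 ?_ ?_
          · by_contra h5
            have g1 := G_mono (not_le.1 h5).le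
            have g2 := G_mono h4
            have g3 := G_ge 0.1 (by norm_num)
            have g4 := G056_ge
            norm_num at g3
            linarith
          · by_contra h5
            have h6 : ((s.filter (fun i => A / 2 < a i)).card : ℝ) ≤ 1 := by
              have : (s.filter (fun i => A / 2 < a i)).card ≤ 1 := by omega
              exact_mod_cast this
            have h7 := mul_le_mul_of_nonneg_right h6 (sq_nonneg A)
            nlinarith
  · have hA43 : A ≤ 0.43 := by
      by_contra h
      have h0 := not_le.1 h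
      have h1 := G_mono h0.le
      have h2 := G_ge 0.43 (by norm_num)
      have h3 : (0.215 : ℝ) ≤ x := by linarith
      have h4 := G_mono h3
      have h5 := G_ge 0.215 (by norm_num)
      norm_num at h2 h5
      linarith
    exact Cpp ha hA hA43 hs hx2 hxA.le

end BE
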